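import Mathlib
import Pool.Agent.Helper94.Abc.Det2
import Pool.Agent.Helper51.ABC.PairFiber
import Pool.Agent.Helper92.ABC.Defs

/-!
## SR10 pair_fiber_close: helper51's pair_fiber (Helper51/ABC/PairFiber.lean) with closeness. t = P.2/P.1, |t^j - c1/c2| <= Delta/(c2 A0^j), t >= B0/A1, so all t lie in an interval of length
 2 Delta/(c2 A0^j) (A1/B0)^(j-1) with c2 >= N/B1^j; gaps >= m/A1^2 inside a class (as in pair_fiber, gap_card).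
-/

set_option autoImplicit false

namespace Pool.Agent.Helper1.SR

open Finset Pool.Agent.Helper94.Abc

open Pool.Agent.Helper92.ABC (radn full rc part rpart rootp prs Box wt num coord)

/-- powers separate points -/
private lemma PFC_pow_sub {β s t : ℝ} {j : ℕ} (hj : 1 ≤ j) (hβ : 0 < β) (hs : β ≤ s) (hst : s ≤ t) :
    (t - s) * β ^ (j - 1) ≤ t ^ j - s ^ j := by
  obtain ⟨k, rfl⟩ : ∃ k, j = k + 1 := ⟨j - 1, by omega⟩
  have hs0 : 0 ≤ s := by linarith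
  have h1 : β ^ k ≤ t ^ k := pow_le_pow_left₀ hβ.le (hs.trans hst) k
  have h2 : s ^ k ≤ t ^ k := pow_le_pow_left₀ hs0 hst k
  have h3 : s * s ^ k ≤ s * t ^ k := mul_le_mul_of_nonneg_left h2 hs0
  have h4 : (t - s) * β ^ k ≤ (t - s) * t ^ k := mul_le_mul_of_nonneg_left h1 (by linarith)
  have e1 : t ^ (k + 1) = t * t ^ k := by ring
  have e2 : s ^ (k + 1) = s * s ^ k := by ring
  rw [Nat.add_sub_cancel, e1, e2]
  nlinarith

/-- SR10: the pair fibre with closeness. -/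
theorem pair_fiber_close (j : ℕ) (hj : 1 ≤ j) (ε : ℝ) (hε : 0 < ε) :
    ∃ C : ℝ, 0 < C ∧ ∀ (m : ℕ) (u v : ℤ) (A0 A1 B0 B1 c1 c2 N Δ : ℝ) (F : Finset (ℕ × ℕ)),
      1 ≤ m → IsCoprime u (m : ℤ) → IsCoprime v (m : ℤ) → 1 ≤ A0 → 1 ≤ A1 → 1 ≤ B0 → 1 ≤ B1 →
      0 < c1 → 0 < c2 → 0 < N → 0 ≤ Δ →
      (∀ P ∈ F, 0 < P.1 ∧ 0 < P.2 ∧ P.1.Coprime P.2 ∧ P.1.Coprime m ∧ P.2.Coprime m ∧
        A0 ≤ (P.1 : ℝ) ∧ (P.1 : ℝ) ≤ A1 ∧ B0 ≤ (P.2 : ℝ) ∧ (P.2 : ℝ) ≤ B1 ∧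
        N ≤ c2 * (P.2 : ℝ) ^ j ∧ |c1 * (P.1 : ℝ) ^ j - c2 * (P.2 : ℝ) ^ j| ≤ Δ ∧
        (m : ℤ) ∣ u * (P.1 : ℤ) ^ j - v * (P.2 : ℤ) ^ j) →
      (F.card : ℝ) ≤ C * (m : ℝ) ^ ε *
        (1 + 2 * Δ * (B1 ^ j * A1 ^ (j + 1)) / (N * (A0 ^ j * B0 ^ (j - 1)) * m)) := by
  classical
  obtain ⟨C, hC0, hC⟩ := Pool.Agent.Helper26.Abc2.card_roots_int hj hε
  refine ⟨C, hC0, ?_⟩
  intro m u v A0 A1 B0 B1 c1 c2 N Δ F hm hu hv hA0 hA1 hB0 hB1 hc1 hc2 hN hΔ hF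
  have hm0 : (0 : ℝ) < m := by exact_mod_cast hm
  have hA0' : 0 < A0 := lt_of_lt_of_le one_pos hA0
  have hA1' : 0 < A1 := lt_of_lt_of_le one_pos hA1
  have hB0' : 0 < B0 := lt_of_lt_of_le one_pos hB0
  have hB1' : 0 < B1 := lt_of_lt_of_le one_pos hB1
  -- the inverse of `u`
  obtain ⟨a, b, hab⟩ := hu
  have ha : IsCoprime a (m : ℤ) := ⟨u, b, by rw [mul_comm u a]; exact hab⟩
  set w : ℤ := v * a with hw
  have hwm : IsCoprime w (m : ℤ) := hv.mul_left ha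
  -- classes
  have hex : ∀ P : ℕ × ℕ, ∃ x : ℕ, P ∈ F → x < m ∧ (m : ℤ) ∣ (x : ℤ) * P.2 - P.1 := by
    intro P
    by_cases hP : P ∈ F
    · obtain ⟨x, hx⟩ := Pool.Agent.Helper92.ABC.exists_class (A := P.1) hm (hF P hP).2.2.2.2.1
      exact ⟨x, fun _ => hx⟩
    · exact ⟨0, fun h => absurd h hP⟩
  choose f hf using hex
  set T : Finset ℕ := (Finset.range m).filter (fun x : ℕ => (m : ℤ) ∣ (x : ℤ) ^ j - w) with hT
  have hfT : ∀ P ∈ F, f P ∈ T := by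
    intro P hP
    obtain ⟨h1, h2⟩ := hf P hP
    obtain ⟨-, -, -, -, hB, -, -, -, -, -, -, hd⟩ := hF P hP
    rw [hT, Finset.mem_filter, Finset.mem_range]
    refine ⟨h1, ?_⟩
    have hBm : IsCoprime (m : ℤ) ((P.2 : ℤ) ^ j) :=
      (Nat.isCoprime_iff_coprime.2 hB).symm.pow_right
    have h3 : (m : ℤ) ∣ ((f P : ℤ) * P.2) ^ j - (P.1 : ℤ) ^ j :=
      h2.trans (sub_dvd_pow_sub_pow _ _ j)
    refine hBm.dvd_of_dvd_mul_right ?_
    have h4 : ((f P : ℤ) ^ j - w) * (P.2 : ℤ) ^ j =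
        (((f P : ℤ) * P.2) ^ j - (P.1 : ℤ) ^ j) + a * (u * (P.1 : ℤ) ^ j - v * (P.2 : ℤ) ^ j) +
          m * (b * (P.1 : ℤ) ^ j) := by
      rw [mul_pow, hw]
      linear_combination (-(P.1 : ℤ) ^ j) * hab
    rw [h4]
    exact dvd_add (dvd_add h3 (hd.mul_left a)) (dvd_mul_right _ _)
  -- closeness of two slopes
  set D : ℝ := 2 * Δ * B1 ^ j / (N * A0 ^ j) with hD
  have hD0 : 0 ≤ D := by rw [hD]; positivity
  have hclose : ∀ P ∈ F, |((P.2 : ℝ) / P.1) ^ j - c1 / c2| ≤ D / 2 := by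
    intro P hP
    obtain ⟨hp1, hp2, -, -, -, h3, -, -, h5, h6, h7, -⟩ := hF P hP
    have hP1 : (0 : ℝ) < P.1 := by exact_mod_cast hp1
    have hP1j : (0 : ℝ) < (P.1 : ℝ) ^ j := by positivity
    have e1 : ((P.2 : ℝ) / P.1) ^ j - c1 / c2 =
        -(c1 * (P.1 : ℝ) ^ j - c2 * (P.2 : ℝ) ^ j) / (c2 * (P.1 : ℝ) ^ j) := by
      rw [div_pow]
      field_simp
      ring
    rw [e1, abs_div, abs_neg, abs_of_pos (mul_pos hc2 hP1j)]
    have e2 : D / 2 = Δ / (N / B1 ^ j * A0 ^ j) := by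
      rw [hD]
      field_simp
    rw [e2]
    have hNB : N / B1 ^ j ≤ c2 := by
      rw [div_le_iff₀ (by positivity)]
      have hpow : (P.2 : ℝ) ^ j ≤ B1 ^ j := pow_le_pow_left₀ (by positivity) h5 j
      exact h6.trans (mul_le_mul_of_nonneg_left hpow hc2.le)
    have hAA : A0 ^ j ≤ (P.1 : ℝ) ^ j := pow_le_pow_left₀ hA0'.le h3 j
    refine div_le_div₀ hΔ h7 (by positivity) ?_
    exact mul_le_mul hNB hAA (by positivity) hc2.le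
  set L : ℝ := D * (A1 / B0) ^ (j - 1) with hL
  have hL0 : 0 ≤ L := by rw [hL]; positivity
  have hslope : ∀ P ∈ F, B0 / A1 ≤ (P.2 : ℝ) / P.1 := by
    intro P hP
    obtain ⟨hp1, hp2, -, -, -, -, h4, h5, -, -, -, -⟩ := hF P hP
    have hP1 : (0 : ℝ) < P.1 := by exact_mod_cast hp1
    exact div_le_div₀ (by positivity) h5 hP1 h4
  have hpair : ∀ P ∈ F, ∀ Q ∈ F, (P.2 : ℝ) / P.1 ≤ (Q.2 : ℝ) / Q.1 →
      (Q.2 : ℝ) / Q.1 ≤ (P.2 : ℝ) / P.1 + L := by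
    intro P hP Q hQ hle
    have h1 := PFC_pow_sub (β := B0 / A1) hj (by positivity) (hslope P hP) hle
    have h2 := abs_le.1 (hclose P hP)
    have h3 := abs_le.1 (hclose Q hQ)
    have h4 : ((Q.2 : ℝ) / Q.1 - (P.2 : ℝ) / P.1) * (B0 / A1) ^ (j - 1) ≤ D := by
      refine h1.trans ?_
      linarith [h2.1, h3.2]
    have h5 : (B0 / A1) ^ (j - 1) * (A1 / B0) ^ (j - 1) = 1 := by
      rw [← mul_pow]
      have : B0 / A1 * (A1 / B0) = 1 := by field_simp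
      rw [this, one_pow]
    have h6 : (Q.2 : ℝ) / Q.1 - (P.2 : ℝ) / P.1 ≤ L := by
      calc (Q.2 : ℝ) / Q.1 - (P.2 : ℝ) / P.1
          = ((Q.2 : ℝ) / Q.1 - (P.2 : ℝ) / P.1) * ((B0 / A1) ^ (j - 1) * (A1 / B0) ^ (j - 1)) := by
            rw [h5, mul_one]
        _ = (((Q.2 : ℝ) / Q.1 - (P.2 : ℝ) / P.1) * (B0 / A1) ^ (j - 1)) * (A1 / B0) ^ (j - 1) := by
            ring
        _ ≤ D * (A1 / B0) ^ (j - 1) := mul_le_mul_of_nonneg_right h4 (by positivity)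
    linarith
  have hRHS : (1 : ℝ) + 2 * Δ * (B1 ^ j * A1 ^ (j + 1)) / (N * (A0 ^ j * B0 ^ (j - 1)) * m) =
      1 + L / ((m : ℝ) / A1 ^ 2) := by
    rw [hL, hD]
    have e1 : A1 ^ (j + 1) = A1 ^ (j - 1) * A1 ^ 2 := by
      rw [← pow_add]
      congr 1
      omega
    rw [e1, div_pow]
    field_simp
  -- fibres
  have hfib : ∀ x ∈ T, ((F.filter (fun P => f P = x)).card : ℝ) ≤
      1 + 2 * Δ * (B1 ^ j * A1 ^ (j + 1)) / (N * (A0 ^ j * B0 ^ (j - 1)) * m) := by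
    intro x hx
    rw [hRHS]
    have hG : 0 < (m : ℝ) / A1 ^ 2 := by positivity
    rcases (F.filter (fun P => f P = x)).eq_empty_or_nonempty with hemp | hne
    · rw [hemp, Finset.card_empty]
      have : 0 ≤ L / ((m : ℝ) / A1 ^ 2) := by positivity
      push_cast
      linarith
    obtain ⟨P0, hP0, hmin⟩ := Finset.exists_min_image (F.filter (fun P => f P = x))
      (fun P : ℕ × ℕ => (P.2 : ℝ) / P.1) hne
    have h1 := Pool.Agent.Helper94.Abc.gap_card (F.filter (fun P => f P = x))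
      (fun P : ℕ × ℕ => (P.2 : ℝ) / P.1) (u := (P0.2 : ℝ) / P0.1) (v := (P0.2 : ℝ) / P0.1 + L)
      (G := (m : ℝ) / A1 ^ 2) hG (by linarith) ?_ ?_
    · refine h1.trans (le_of_eq ?_)
      congr 1
      rw [add_sub_cancel_left]
    · intro P hP
      exact ⟨hmin P hP, hpair P0 (Finset.mem_filter.1 hP0).1 P (Finset.mem_filter.1 hP).1
        (hmin P hP)⟩
    · intro P hP Q hQ hne
      obtain ⟨hPF, hPx⟩ := Finset.mem_filter.1 hP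
      obtain ⟨hQF, hQx⟩ := Finset.mem_filter.1 hQ
      obtain ⟨hp1, hp2, hp3, -, -, -, hp4, -, -, -, -, -⟩ := hF P hPF
      obtain ⟨hq1, hq2, hq3, -, -, -, hq4, -, -, -, -, -⟩ := hF Q hQF
      have h3 := (hf P hPF).2
      have h4 := (hf Q hQF).2
      rw [hPx] at h3
      rw [hQx] at h4
      have h5 : (m : ℤ) ∣ (P.2 : ℤ) * Q.1 - (Q.2 : ℤ) * P.1 := by
        have h6 : (P.2 : ℤ) * Q.1 - (Q.2 : ℤ) * P.1 =
            Q.2 * ((x : ℤ) * P.2 - P.1) - P.2 * ((x : ℤ) * Q.2 - Q.1) := by ring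
        rw [h6]
        exact dvd_sub (h3.mul_left _) (h4.mul_left _)
      have h6 : (P.2 : ℤ) * Q.1 - (Q.2 : ℤ) * P.1 ≠ 0 := by
        intro h0
        have h7 : P.1 * Q.2 = Q.1 * P.2 := by
          have : (P.1 : ℤ) * Q.2 = Q.1 * P.2 := by linarith
          exact_mod_cast this
        obtain ⟨h8, h9⟩ := Pool.Agent.Helper92.ABC.eq_of_slope hp1 hq1 hp3 hq3 h7
        exact hne (Prod.ext h8 h9)
      have h7 : (m : ℤ) ≤ |(P.2 : ℤ) * Q.1 - (Q.2 : ℤ) * P.1| :=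
        Int.le_of_dvd (abs_pos.2 h6) ((dvd_abs _ _).2 h5)
      have h8 : (m : ℝ) ≤ |(P.2 : ℝ) * Q.1 - (Q.2 : ℝ) * P.1| := by exact_mod_cast h7
      have hP1 : (0 : ℝ) < P.1 := by exact_mod_cast hp1
      have hQ1 : (0 : ℝ) < Q.1 := by exact_mod_cast hq1
      have h9 : (P.2 : ℝ) / P.1 - (Q.2 : ℝ) / Q.1 =
          ((P.2 : ℝ) * Q.1 - (Q.2 : ℝ) * P.1) / (P.1 * Q.1) := by
        field_simp
      rw [h9, abs_div, abs_of_pos (mul_pos hP1 hQ1)]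
      refine div_le_div₀ (abs_nonneg _) h8 (mul_pos hP1 hQ1) ?_
      rw [sq]
      exact mul_le_mul hp4 hq4 hQ1.le hA1'.le
  have h1 := Finset.card_eq_sum_card_fiberwise hfT
  have h2 : (F.card : ℝ) = ∑ x ∈ T, ((F.filter (fun P => f P = x)).card : ℝ) := by
    rw [h1]
    push_cast
    rfl
  rw [h2]
  have h3 : (0 : ℝ) ≤ 1 + 2 * Δ * (B1 ^ j * A1 ^ (j + 1)) / (N * (A0 ^ j * B0 ^ (j - 1)) * m) := by
    positivity
  calc ∑ x ∈ T, ((F.filter (fun P => f P = x)).card : ℝ)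
      ≤ ∑ _x ∈ T, (1 + 2 * Δ * (B1 ^ j * A1 ^ (j + 1)) / (N * (A0 ^ j * B0 ^ (j - 1)) * m)) :=
        Finset.sum_le_sum hfib
    _ = (T.card : ℝ) *
        (1 + 2 * Δ * (B1 ^ j * A1 ^ (j + 1)) / (N * (A0 ^ j * B0 ^ (j - 1)) * m)) := by
        rw [Finset.sum_const, nsmul_eq_mul]
    _ ≤ C * (m : ℝ) ^ ε *
        (1 + 2 * Δ * (B1 ^ j * A1 ^ (j + 1)) / (N * (A0 ^ j * B0 ^ (j - 1)) * m)) :=
        mul_le_mul_of_nonneg_right (hC m w hm hwm) h3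

end Pool.Agent.Helper1.SR
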