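import Mathlib
import Pool.Agent.Helper94.Abc.Det2
import Pool.Agent.Helper94.ABC.TV
import Pool.Agent.Helper26.ABC.PairTool
import Pool.Agent.Helper1.SR.St.PFC

/-!
## SR11 tool_pairA: helper26's tool_pair for p = 0, q = 1, r = 2 with SR10: c1 = part(U 1), c2 = part(U 2), c1 P.1^j = num 1, c2 P.2^j = num 2, |difference| = num 0 <= Z^(rc 1 full (k 0) + 20), N = Z^(rc 1 full (k 2)), m = part (U 0) (num 0).
 rc 1 full = rc 1 U + rc 1 (full \ U). The constant 400 is generous.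

-/

set_option autoImplicit false

namespace Pool.Agent.Helper1.SR

open Finset Pool.Agent.Helper94.Abc

open Pool.Agent.Helper92.ABC (radn full rc part rpart rootp prs Box wt num coord)

open Pool.Agent.Helper92.ABC in
/-- the size of the second summand -/
private lemma pairA_size (z : ℝ) (hz : 2 ≤ z) (e j : ℕ) (hj : 1 ≤ j) (he : (2 * j + 1) * e ≤ 48)
    (al be r0 rA R2 : ℕ) (m : ℝ) (hm : z ^ r0 ≤ m) :
    2 * z ^ (r0 + rA + 20) * ((z ^ (be + e)) ^ j * (z ^ (al + e)) ^ (j + 1)) /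
      (z ^ R2 * ((z ^ al) ^ j * (z ^ be) ^ (j - 1)) * m) ≤
      z ^ ((al : ℤ) + be + rA - R2 + 400) := by
  have hz0 : 0 < z := by linarith
  have hz1 : 1 ≤ z := by linarith
  obtain ⟨i, rfl⟩ : ∃ i, j = i + 1 := ⟨j - 1, by omega⟩
  have h1 : 2 * z ^ (r0 + rA + 20) * ((z ^ (be + e)) ^ (i + 1) * (z ^ (al + e)) ^ (i + 1 + 1)) /
      (z ^ R2 * ((z ^ al) ^ (i + 1) * (z ^ be) ^ (i + 1 - 1)) * m) ≤
      z * z ^ (r0 + rA + 20) * ((z ^ (be + e)) ^ (i + 1) * (z ^ (al + e)) ^ (i + 1 + 1)) /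
      (z ^ R2 * ((z ^ al) ^ (i + 1) * (z ^ be) ^ (i + 1 - 1)) * z ^ r0) := by
    apply div_le_div₀ (by positivity) ?_ (by positivity) ?_
    · gcongr
    · gcongr
  refine h1.trans ?_
  have h2 : z * z ^ (r0 + rA + 20) * ((z ^ (be + e)) ^ (i + 1) * (z ^ (al + e)) ^ (i + 1 + 1)) /
      (z ^ R2 * ((z ^ al) ^ (i + 1) * (z ^ be) ^ (i + 1 - 1)) * z ^ r0) =
      z ^ ((al : ℤ) + be + rA - R2 + (21 + ((2 * (i + 1) + 1) * e : ℕ))) := by
    rw [Nat.add_sub_cancel, ← pow_succ', ← pow_mul, ← pow_mul, ← pow_mul, ← pow_mul, ← pow_add,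
      ← pow_add, ← pow_add, ← pow_add, ← pow_add, ← zpow_natCast, ← zpow_natCast,
      ← zpow_sub₀ hz0.ne']
    congr 1
    push_cast
    ring
  rw [h2]
  apply zpow_le_zpow_right₀ hz1
  have : (((2 * (i + 1) + 1) * e : ℕ) : ℤ) ≤ 48 := by exact_mod_cast he
  linarith

private lemma pairA_rc_split {U : Finset ℕ} (hU : U ⊆ full) (k : ℕ → ℕ) :
    rc 1 full k = rc 1 U k + rc 1 (full \ U) k := by
  have h5 : (5 : ℕ) ∈ full := by decide
  have h1 := Finset.sum_sdiff (f := fun i => (i / 1) * k i) hU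
  have h2 : (if 5 ∈ full then k 6 else 0) =
      (if 5 ∈ U then k 6 else 0) + (if 5 ∈ full \ U then k 6 else 0) := by
    rw [if_pos h5]
    by_cases hu : (5 : ℕ) ∈ U
    · have hn : (5 : ℕ) ∉ full \ U := fun h => (Finset.mem_sdiff.1 h).2 hu
      rw [if_pos hu, if_neg hn, add_zero]
    · have hn : (5 : ℕ) ∈ full \ U := Finset.mem_sdiff.2 ⟨h5, hu⟩
      rw [if_neg hu, if_pos hn, zero_add]
  show (∑ i ∈ full, (i / 1) * k i + if 5 ∈ full then k 6 else 0) =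
    (∑ i ∈ U, (i / 1) * k i + if 5 ∈ U then k 6 else 0) +
    (∑ i ∈ full \ U, (i / 1) * k i + if 5 ∈ full \ U then k 6 else 0)
  rw [h2, ← h1]
  ring

open Pool.Agent.Helper92.ABC in
private theorem pairA_main (ε : ℝ) (hε : 0 < ε) : ∃ C : ℝ, 0 < C ∧ ∀ (Z Q : ℕ) (k : Fin 3 → ℕ → ℕ)
    (j : ℕ) (U : Fin 3 → Finset ℕ), 2 ≤ Z → 1 ≤ j → j ≤ 4 → (∀ n, U n ⊆ full) →
    (j = 1 ∨ ∀ i ∈ full \ U 1, i < 5 ∧ j ∣ i) → (j = 1 ∨ ∀ i ∈ full \ U 2, i < 5 ∧ j ∣ i) →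
    ((Box Z Q k).card : ℝ) ≤ C * ((Z : ℝ) ^ Q) ^ ε * (Z : ℝ) ^ (∑ n, wt (U n) (k n)) *
      (1 + (Z : ℝ) ^ ((rc j (full \ U 1) (k 1) : ℤ) + rc j (full \ U 2) (k 2) +
        rc 1 (full \ U 0) (k 0) - rc 1 full (k 2) + 400)) := by
  classical
  obtain ⟨C1, hC1, hcu⟩ := card_radn_le (ε / 4) (by positivity)
  obtain ⟨G1, hG1, hg1⟩ := pair_fiber_close 1 (by norm_num) (ε / 4) (by positivity)
  obtain ⟨G2, hG2, hg2⟩ := pair_fiber_close 2 (by norm_num) (ε / 4) (by positivity)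
  obtain ⟨G3, hG3, hg3⟩ := pair_fiber_close 3 (by norm_num) (ε / 4) (by positivity)
  obtain ⟨G4, hG4, hg4⟩ := pair_fiber_close 4 (by norm_num) (ε / 4) (by positivity)
  obtain ⟨G, hG, hg⟩ : ∃ G : ℝ, 0 < G ∧ ∀ (j : ℕ), 1 ≤ j → j ≤ 4 →
      ∀ (m : ℕ) (u v : ℤ) (A0 A1 B0 B1 c1 c2 N Δ : ℝ) (F : Finset (ℕ × ℕ)),
      1 ≤ m → IsCoprime u (m : ℤ) → IsCoprime v (m : ℤ) → 1 ≤ A0 → 1 ≤ A1 → 1 ≤ B0 → 1 ≤ B1 →
      0 < c1 → 0 < c2 → 0 < N → 0 ≤ Δ →
      (∀ P ∈ F, 0 < P.1 ∧ 0 < P.2 ∧ P.1.Coprime P.2 ∧ P.1.Coprime m ∧ P.2.Coprime m ∧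
        A0 ≤ (P.1 : ℝ) ∧ (P.1 : ℝ) ≤ A1 ∧ B0 ≤ (P.2 : ℝ) ∧ (P.2 : ℝ) ≤ B1 ∧
        N ≤ c2 * (P.2 : ℝ) ^ j ∧ |c1 * (P.1 : ℝ) ^ j - c2 * (P.2 : ℝ) ^ j| ≤ Δ ∧
        (m : ℤ) ∣ u * (P.1 : ℤ) ^ j - v * (P.2 : ℤ) ^ j) →
      (F.card : ℝ) ≤ G * (m : ℝ) ^ (ε / 4) *
        (1 + 2 * Δ * (B1 ^ j * A1 ^ (j + 1)) / (N * (A0 ^ j * B0 ^ (j - 1)) * m)) := by
    refine ⟨G1 + G2 + G3 + G4, by positivity, ?_⟩
    intro j hj hj4 m u v A0 A1 B0 B1 c1 c2 N Δ F h1 h2 h3 h4 h5 h5' h6 h8 h9 h10 h11 h12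
    have hX : 0 ≤ (m : ℝ) ^ (ε / 4) *
        (1 + 2 * Δ * (B1 ^ j * A1 ^ (j + 1)) / (N * (A0 ^ j * B0 ^ (j - 1)) * m)) := by
      have : 0 ≤ B1 := by linarith
      have : 0 ≤ B0 := by linarith
      have : 0 ≤ A0 := by linarith
      have : 0 ≤ A1 := by linarith
      positivity
    obtain rfl | rfl | rfl | rfl : j = 1 ∨ j = 2 ∨ j = 3 ∨ j = 4 := by omega
    · have := hg1 m u v A0 A1 B0 B1 c1 c2 N Δ F h1 h2 h3 h4 h5 h5' h6 h8 h9 h10 h11 h12
      nlinarith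
    · have := hg2 m u v A0 A1 B0 B1 c1 c2 N Δ F h1 h2 h3 h4 h5 h5' h6 h8 h9 h10 h11 h12
      nlinarith
    · have := hg3 m u v A0 A1 B0 B1 c1 c2 N Δ F h1 h2 h3 h4 h5 h5' h6 h8 h9 h10 h11 h12
      nlinarith
    · have := hg4 m u v A0 A1 B0 B1 c1 c2 N Δ F h1 h2 h3 h4 h5 h5' h6 h8 h9 h10 h11 h12
      nlinarith
  refine ⟨C1 ^ 3 * G, by positivity, ?_⟩
  intro Z Q k j U hZ hj hj4 hU hVq hVr
  have hpq : (0 : Fin 3) ≠ 1 := by decide
  have hpr : (0 : Fin 3) ≠ 2 := by decide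
  have hqr : (1 : Fin 3) ≠ 2 := by decide
  have hz : (2 : ℝ) ≤ (Z : ℝ) := by exact_mod_cast hZ
  have hz0 : (0 : ℝ) < (Z : ℝ) := by linarith
  have hz1 : (1 : ℝ) ≤ (Z : ℝ) := by linarith
  have hZ0 : 0 < Z := by omega
  -- the facts for members of the box
  have hbox : ∀ t ∈ Box Z Q k, t.1.Coprime t.2 ∧ (∀ n, num t n ≠ 0) ∧
      (∀ n, num t n ≤ Z ^ Q) ∧ (∀ n : Fin 3, ∀ i ∈ Finset.Icc 1 6,
        Nat.log Z (coord (num t n) i) = k n i) := by
    intro t ht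
    simp only [Box, Finset.mem_filter, Finset.mem_product, Finset.mem_Icc] at ht
    obtain ⟨⟨⟨ha1, ha2⟩, ⟨hb1, hb2⟩⟩, hco, hs, hk⟩ := ht
    refine ⟨hco, ?_, ?_, ?_⟩
    · intro n
      have := num_pos ha1 hb1 n
      omega
    · intro n
      exact num_le hs n
    · intro n i hi
      exact hk n i (Finset.mem_Icc.1 hi)
  have hkU : ∀ t ∈ Box Z Q k, ∀ n : Fin 3, ∀ S : Finset ℕ, S ⊆ full →
      wt S (fun i => Nat.log Z (coord (num t n) i)) = wt S (k n) := by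
    intro t ht n S hS
    apply wt_congr'
    intro i hi
    exact (hbox t ht).2.2.2 n i (Finset.Icc_subset_Icc_right (by norm_num) (hS hi))
  have hkR : ∀ t ∈ Box Z Q k, ∀ n : Fin 3, ∀ (j : ℕ) (S : Finset ℕ), S ⊆ full →
      rc j S (fun i => Nat.log Z (coord (num t n) i)) = rc j S (k n) := by
    intro t ht n j S hS
    apply rc_congr'
    · intro i hi
      exact (hbox t ht).2.2.2 n i (Finset.Icc_subset_Icc_right (by norm_num) (hS hi))
    · exact (hbox t ht).2.2.2 n 6 (Finset.mem_Icc.2 ⟨by norm_num, le_rfl⟩)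
  have hsub : ∀ n, full \ U n ⊆ full := fun n => Finset.sdiff_subset
  -- sizes of the numbers
  have hfullpart : ∀ n : ℕ, n ≠ 0 → rootp 1 full n = n := by
    intro n hn
    have h1 := part_eq_rootp_pow 1 le_rfl full (Finset.Subset.refl _) (Or.inl rfl) n
    rw [pow_one] at h1
    rw [← h1]
    unfold part
    rw [prs_full]
    exact Nat.prod_factorization_pow_eq_self hn
  have hlowN : ∀ t ∈ Box Z Q k, ∀ n : Fin 3, Z ^ rc 1 full (k n) ≤ num t n := by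
    intro t ht n
    have := rootp_lower Z hZ 1 le_rfl full (Finset.Subset.refl _) (Or.inl rfl) (num t n)
      ((hbox t ht).2.1 n)
    rwa [hkR t ht n 1 full (Finset.Subset.refl _), hfullpart _ ((hbox t ht).2.1 n)] at this
  have huppN : ∀ t ∈ Box Z Q k, ∀ n : Fin 3, num t n ≤ Z ^ (rc 1 full (k n) + 16) := by
    intro t ht n
    have := rootp_upper Z hZ 1 le_rfl full (Finset.Subset.refl _) (Or.inl rfl) (num t n)
      ((hbox t ht).2.1 n)
    rwa [hkR t ht n 1 full (Finset.Subset.refl _), hfullpart _ ((hbox t ht).2.1 n),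
      if_pos rfl] at this
  -- decomposition of the numbers
  have hdec : ∀ t ∈ Box Z Q k, ∀ n : Fin 3, (j = 1 ∨ ∀ i ∈ full \ U n, i < 5 ∧ j ∣ i) →
      part (U n) (num t n) * rootp j (full \ U n) (num t n) ^ j = num t n := by
    intro t ht n hV
    rw [← part_eq_rootp_pow j hj (full \ U n) (hsub n) hV (num t n)]
    exact part_mul_part (U n) (hU n) (num t n) ((hbox t ht).2.1 n)
  have hpd : ∀ t ∈ Box Z Q k, ∀ n : Fin 3, part (U n) (num t n) ∣ num t n := by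
    intro t ht n
    exact ⟨_, (part_mul_part (U n) (hU n) (num t n) ((hbox t ht).2.1 n)).symm⟩
  have hpp : ∀ t ∈ Box Z Q k, ∀ n : Fin 3, 0 < part (U n) (num t n) := by
    intro t ht n
    exact Nat.pos_of_ne_zero (part_ne_zero _ _)
  set f : ℕ × ℕ → (Fin 3 → ℕ) := fun t n => part (U n) (num t n) with hf
  set g : ℕ × ℕ → ℕ × ℕ := fun t =>
    (rootp j (full \ U 1) (num t 1), rootp j (full \ U 2) (num t 2)) with hgdef
  set T : Fin 3 → Finset ℕ := fun n =>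
    (Finset.Icc 1 (Z ^ Q)).filter (fun d => radn d ≤ Z ^ wt (U n) (k n)) with hT
  have hTm : ∀ t ∈ Box Z Q k, ∀ n : Fin 3, part (U n) (num t n) ∈ T n := by
    intro t ht n
    simp only [hT, Finset.mem_filter, Finset.mem_Icc]
    refine ⟨⟨hpp t ht n, ?_⟩, ?_⟩
    · exact (Nat.le_of_dvd (Nat.pos_of_ne_zero ((hbox t ht).2.1 n)) (hpd t ht n)).trans
        ((hbox t ht).2.2.1 n)
    · rw [radn_part, ← hkU t ht n (U n) (hU n)]
      exact rpart_upper Z hZ (U n) (hU n) (num t n) ((hbox t ht).2.1 n)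
  have hTc : ∀ n : Fin 3, ((T n).card : ℝ) ≤
      C1 * ((Z : ℝ) ^ Q) ^ (ε / 4) * (Z : ℝ) ^ wt (U n) (k n) := by
    intro n
    have := hcu (Z ^ Q) (Z ^ wt (U n) (k n))
    push_cast at this
    exact this
  set e : ℤ := (rc j (full \ U 1) (k 1) : ℤ) + rc j (full \ U 2) (k 2) +
        rc 1 (full \ U 0) (k 0) - rc 1 full (k 2) + 400 with he
  have hze : (0 : ℝ) ≤ (Z : ℝ) ^ e := (zpow_pos hz0 e).le
  -- the fibres
  have hfib : ∀ b ∈ Fintype.piFinset T,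
      (((Box Z Q k).filter (fun t => f t = b)).card : ℝ) ≤
      G * ((Z : ℝ) ^ Q) ^ (ε / 4) * (1 + (Z : ℝ) ^ e) := by
    intro b hb
    rcases ((Box Z Q k).filter (fun t => f t = b)).eq_empty_or_nonempty with h0 | ⟨t0, ht0⟩
    · rw [h0]
      simp only [Finset.card_empty, Nat.cast_zero]
      positivity
    rw [Finset.mem_filter] at ht0
    obtain ⟨ht0, hft0⟩ := ht0
    have hbn : ∀ n, b n = part (U n) (num t0 n) := fun n => by rw [← hft0]
    have hcard : (((Box Z Q k).filter (fun t => f t = b)).image g).card =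
        ((Box Z Q k).filter (fun t => f t = b)).card := by
      apply Finset.card_image_of_injOn
      intro t ht t' ht' htt
      rw [Finset.mem_coe, Finset.mem_filter] at ht ht'
      have hff : f t = f t' := ht.2.trans ht'.2.symm
      have hffn : ∀ n, part (U n) (num t n) = part (U n) (num t' n) := fun n => congrFun hff n
      simp only [hgdef, Prod.mk.injEq] at htt
      have h0 : num t 1 = num t' 1 := by
        rw [← hdec t ht.1 1 hVq, ← hdec t' ht'.1 1 hVq, hffn 1, htt.1]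
      have h1 : num t 2 = num t' 2 := by
        rw [← hdec t ht.1 2 hVr, ← hdec t' ht'.1 2 hVr, hffn 2, htt.2]
      exact num_inj hqr h0 h1
    rw [← hcard]
    have hco0 : ∀ {x y : Fin 3}, x ≠ y → (num t0 x).Coprime (num t0 y) := fun hxy =>
      num_coprime (hbox t0 ht0).1 hxy
    obtain ⟨d, hd48, hdu⟩ : ∃ d : ℕ, (2 * j + 1) * d ≤ 48 ∧ d = (if j = 1 then 16 else 3) := by
      by_cases hj1 : j = 1
      · refine ⟨16, ?_, by rw [if_pos hj1]⟩
        rw [hj1]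
      · refine ⟨3, ?_, by rw [if_neg hj1]⟩
        omega
    have hone : ∀ a : ℕ, (1 : ℝ) ≤ (Z : ℝ) ^ a := fun a => one_le_pow₀ hz1
    have key := hg j hj hj4 (b 0) (sgn3 1 * (b 1 : ℤ)) ((-sgn3 2) * (b 2 : ℤ))
      ((Z : ℝ) ^ (rc j (full \ U 1) (k 1))) ((Z : ℝ) ^ (rc j (full \ U 1) (k 1) + d))
      ((Z : ℝ) ^ (rc j (full \ U 2) (k 2))) ((Z : ℝ) ^ (rc j (full \ U 2) (k 2) + d))
      (b 1 : ℝ) (b 2 : ℝ) ((Z : ℝ) ^ rc 1 full (k 2))
      ((Z : ℝ) ^ (rc 1 (U 0) (k 0) + rc 1 (full \ U 0) (k 0) + 20))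
      (((Box Z Q k).filter (fun t => f t = b)).image g)
      (by rw [hbn]; exact hpp t0 ht0 0)
      (by
        rw [hbn, hbn]
        refine IsCoprime.mul_left ?_ ?_
        · exact coprime_of_unit (sgn3_unit 1)
        · exact Nat.isCoprime_iff_coprime.2
            (Nat.Coprime.of_dvd (hpd t0 ht0 1) (hpd t0 ht0 0) (hco0 hpq.symm)))
      (by
        rw [hbn, hbn]
        refine IsCoprime.mul_left ?_ ?_
        · exact coprime_of_unit (sgn3_unit 2).neg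
        · exact Nat.isCoprime_iff_coprime.2
            (Nat.Coprime.of_dvd (hpd t0 ht0 2) (hpd t0 ht0 0) (hco0 hpr.symm)))
      (hone _) (hone _) (hone _) (hone _)
      (by rw [hbn]; exact_mod_cast hpp t0 ht0 1)
      (by rw [hbn]; exact_mod_cast hpp t0 ht0 2)
      (by positivity) (by positivity)
      (by
        intro P hP
        rw [Finset.mem_image] at hP
        obtain ⟨t, ht, rfl⟩ := hP
        rw [Finset.mem_filter] at ht
        obtain ⟨ht, hft⟩ := ht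
        have hbt : ∀ n, b n = part (U n) (num t n) := fun n => by rw [← hft]
        have hlow : ∀ n : Fin 3, (j = 1 ∨ ∀ i ∈ full \ U n, i < 5 ∧ j ∣ i) →
            Z ^ rc j (full \ U n) (k n) ≤ rootp j (full \ U n) (num t n) := by
          intro n hV
          have := rootp_lower Z hZ j hj (full \ U n) (hsub n) hV (num t n)
            ((hbox t ht).2.1 n)
          rwa [hkR t ht n j (full \ U n) (hsub n)] at this
        have hupp : ∀ n : Fin 3, (j = 1 ∨ ∀ i ∈ full \ U n, i < 5 ∧ j ∣ i) →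
            rootp j (full \ U n) (num t n) ≤ Z ^ (rc j (full \ U n) (k n) + d) := by
          intro n hV
          have := rootp_upper Z hZ j hj (full \ U n) (hsub n) hV (num t n)
            ((hbox t ht).2.1 n)
          rwa [hkR t ht n j (full \ U n) (hsub n), ← hdu] at this
        have hpos : ∀ n : Fin 3, (j = 1 ∨ ∀ i ∈ full \ U n, i < 5 ∧ j ∣ i) →
            0 < rootp j (full \ U n) (num t n) := fun n hV =>
          lt_of_lt_of_le (by positivity) (hlow n hV)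
        have hco : ∀ {x y : Fin 3}, x ≠ y → (num t x).Coprime (num t y) := fun hxy =>
          num_coprime (hbox t ht).1 hxy
        have hrd : ∀ n : Fin 3, (j = 1 ∨ ∀ i ∈ full \ U n, i < 5 ∧ j ∣ i) →
            rootp j (full \ U n) (num t n) ∣ num t n := by
          intro n hV
          exact (dvd_pow_self _ (by omega)).trans
            (Dvd.intro_left (part (U n) (num t n)) (hdec t ht n hV))
        have hc1 : (b 1 : ℝ) * (rootp j (full \ U 1) (num t 1) : ℝ) ^ j = (num t 1 : ℝ) := by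
          rw [hbt 1]
          exact_mod_cast hdec t ht 1 hVq
        have hc2 : (b 2 : ℝ) * (rootp j (full \ U 2) (num t 2) : ℝ) ^ j = (num t 2 : ℝ) := by
          rw [hbt 2]
          exact_mod_cast hdec t ht 2 hVr
        simp only [hgdef]
        refine ⟨hpos 1 hVq, hpos 2 hVr, ?_, ?_, ?_, ?_, ?_, ?_, ?_, ?_, ?_, ?_⟩
        · exact Nat.Coprime.of_dvd (hrd 1 hVq) (hrd 2 hVr) (hco hqr)
        · rw [hbt 0]
          exact Nat.Coprime.of_dvd (hrd 1 hVq) (hpd t ht 0) (hco hpq.symm)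
        · rw [hbt 0]
          exact Nat.Coprime.of_dvd (hrd 2 hVr) (hpd t ht 0) (hco hpr.symm)
        · exact_mod_cast hlow 1 hVq
        · exact_mod_cast hupp 1 hVq
        · exact_mod_cast hlow 2 hVr
        · exact_mod_cast hupp 2 hVr
        · rw [hc2]
          exact_mod_cast hlowN t ht 2
        · rw [hc1, hc2]
          have h20 : ((num t 2 : ℕ) : ℝ) = (num t 0 : ℝ) + (num t 1 : ℝ) := by
            obtain ⟨x, y⟩ := t
            simp [num]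
          have h3 : ((num t 1 : ℕ) : ℝ) - (num t 2 : ℝ) = -(num t 0 : ℝ) := by
            rw [h20]; ring
          rw [h3, abs_neg, abs_of_nonneg (Nat.cast_nonneg _), ← pairA_rc_split (hU 0)]
          have h4 := huppN t ht 0
          have h5 : ((num t 0 : ℕ) : ℝ) ≤ (Z : ℝ) ^ (rc 1 full (k 0) + 16) := by
            exact_mod_cast h4
          exact h5.trans (pow_le_pow_right₀ hz1 (by omega))
        · have h1 : (sgn3 1 * (b 1 : ℤ)) * (rootp j (full \ U 1) (num t 1) : ℤ) ^ j -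
              ((-sgn3 2) * (b 2 : ℤ)) * (rootp j (full \ U 2) (num t 2) : ℤ) ^ j =
              (-sgn3 0) * (num t 0 : ℤ) := by
            rw [← sgn3_rel t hpq hpr hqr, mul_assoc, mul_assoc]
            have h2 : (b 1 : ℤ) * (rootp j (full \ U 1) (num t 1) : ℤ) ^ j = (num t 1 : ℤ) := by
              rw [hbt 1]
              exact_mod_cast hdec t ht 1 hVq
            have h3 : (b 2 : ℤ) * (rootp j (full \ U 2) (num t 2) : ℤ) ^ j = (num t 2 : ℤ) := by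
              rw [hbt 2]
              exact_mod_cast hdec t ht 2 hVr
            rw [h2, h3]
          rw [h1, hbt 0]
          exact Dvd.dvd.mul_left (Int.natCast_dvd_natCast.2 (hpd t ht 0)) _)
    refine key.trans ?_
    have hbp1 : ((b 0 : ℕ) : ℝ) ≤ (Z : ℝ) ^ Q := by
      have := hTm t0 ht0 0
      simp only [hT, Finset.mem_filter, Finset.mem_Icc] at this
      rw [hbn 0]
      exact_mod_cast this.1.2
    have hbp2 : (Z : ℝ) ^ rc 1 (U 0) (k 0) ≤ ((b 0 : ℕ) : ℝ) := by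
      have h1 := rootp_lower Z hZ 1 le_rfl (U 0) (hU 0) (Or.inl rfl) (num t0 0)
        ((hbox t0 ht0).2.1 0)
      rw [hkR t0 ht0 0 1 (U 0) (hU 0)] at h1
      have h2 := part_eq_rootp_pow 1 le_rfl (U 0) (hU 0) (Or.inl rfl) (num t0 0)
      rw [pow_one] at h2
      rw [hbn 0, h2]
      exact_mod_cast h1
    have hsz := pairA_size (Z : ℝ) hz d j hj hd48 (rc j (full \ U 1) (k 1))
      (rc j (full \ U 2) (k 2)) (rc 1 (U 0) (k 0)) (rc 1 (full \ U 0) (k 0)) (rc 1 full (k 2))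
      (b 0 : ℝ) hbp2
    have hrp : ((b 0 : ℕ) : ℝ) ^ (ε / 4) ≤ ((Z : ℝ) ^ Q) ^ (ε / 4) :=
      Real.rpow_le_rpow (Nat.cast_nonneg _) hbp1 (by positivity)
    have hnn : (0 : ℝ) ≤ ((Z : ℝ) ^ Q) ^ (ε / 4) := by positivity
    have hbp0 : (0 : ℝ) ≤ ((b 0 : ℕ) : ℝ) := Nat.cast_nonneg _
    have hst1 : G * ((b 0 : ℕ) : ℝ) ^ (ε / 4) ≤ G * ((Z : ℝ) ^ Q) ^ (ε / 4) :=
      mul_le_mul_of_nonneg_left hrp hG.le
    refine mul_le_mul hst1 ?_ ?_ (by positivity)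
    · exact add_le_add le_rfl hsz
    · positivity
  -- the total
  have hmaps : ∀ t ∈ Box Z Q k, f t ∈ Fintype.piFinset T := by
    intro t ht
    rw [Fintype.mem_piFinset]
    exact fun n => hTm t ht n
  have htot : ((Box Z Q k).card : ℝ) ≤ ((Fintype.piFinset T).card : ℝ) *
      (G * ((Z : ℝ) ^ Q) ^ (ε / 4) * (1 + (Z : ℝ) ^ e)) := by
    rw [Finset.card_eq_sum_card_fiberwise (f := f) (t := Fintype.piFinset T) hmaps]
    push_cast
    have := Finset.sum_le_card_nsmul (Fintype.piFinset T)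
      (fun b => (((Box Z Q k).filter (fun t => f t = b)).card : ℝ)) _ hfib
    rw [nsmul_eq_mul] at this
    exact this
  refine htot.trans ?_
  have hc3 : ((Fintype.piFinset T).card : ℝ) ≤
      C1 ^ 3 * (((Z : ℝ) ^ Q) ^ (ε / 4)) ^ 3 * (Z : ℝ) ^ (∑ n, wt (U n) (k n)) := by
    rw [Fintype.card_piFinset, Fin.prod_univ_three]
    push_cast
    have h0 := hTc 0
    have h1 := hTc 1
    have h2 := hTc 2
    calc ((T 0).card : ℝ) * ((T 1).card : ℝ) * ((T 2).card : ℝ)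
        ≤ (C1 * ((Z : ℝ) ^ Q) ^ (ε / 4) * (Z : ℝ) ^ wt (U 0) (k 0)) *
          (C1 * ((Z : ℝ) ^ Q) ^ (ε / 4) * (Z : ℝ) ^ wt (U 1) (k 1)) *
          (C1 * ((Z : ℝ) ^ Q) ^ (ε / 4) * (Z : ℝ) ^ wt (U 2) (k 2)) := by
          gcongr
      _ = _ := by
          rw [Fin.sum_univ_three, pow_add, pow_add]
          ring
  have hpw : (((Z : ℝ) ^ Q) ^ (ε / 4)) ^ 3 * ((Z : ℝ) ^ Q) ^ (ε / 4) =
      ((Z : ℝ) ^ Q) ^ ε := by
    have hzq : (0 : ℝ) ≤ (Z : ℝ) ^ Q := by positivity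
    rw [← Real.rpow_natCast (((Z : ℝ) ^ Q) ^ (ε / 4)) 3,
      ← Real.rpow_mul hzq, ← Real.rpow_add (by positivity)]
    congr 1
    push_cast
    ring
  calc ((Fintype.piFinset T).card : ℝ) *
      (G * ((Z : ℝ) ^ Q) ^ (ε / 4) * (1 + (Z : ℝ) ^ e))
      ≤ (C1 ^ 3 * (((Z : ℝ) ^ Q) ^ (ε / 4)) ^ 3 * (Z : ℝ) ^ (∑ n, wt (U n) (k n))) *
      (G * ((Z : ℝ) ^ Q) ^ (ε / 4) * (1 + (Z : ℝ) ^ e)) := by
        gcongr
    _ = C1 ^ 3 * G * ((((Z : ℝ) ^ Q) ^ (ε / 4)) ^ 3 * ((Z : ℝ) ^ Q) ^ (ε / 4)) *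
        (Z : ℝ) ^ (∑ n, wt (U n) (k n)) * (1 + (Z : ℝ) ^ e) := by ring
    _ = _ := by rw [hpw]

/-- SR11: the pair tool with closeness (`num t 0` small). -/
theorem tool_pairA (ε : ℝ) (hε : 0 < ε) : ∃ C : ℝ, 0 < C ∧ ∀ (Z Q : ℕ) (k : Fin 3 → ℕ → ℕ)
    (j : ℕ) (U : Fin 3 → Finset ℕ), 2 ≤ Z → 1 ≤ j → j ≤ 4 → (∀ n, U n ⊆ full) →
    (j = 1 ∨ ∀ i ∈ full \ U 1, i < 5 ∧ j ∣ i) → (j = 1 ∨ ∀ i ∈ full \ U 2, i < 5 ∧ j ∣ i) →
    ((Box Z Q k).card : ℝ) ≤ C * ((Z : ℝ) ^ Q) ^ ε * (Z : ℝ) ^ (∑ n, wt (U n) (k n)) *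
      (1 + (Z : ℝ) ^ ((rc j (full \ U 1) (k 1) : ℤ) + rc j (full \ U 2) (k 2) +
        rc 1 (full \ U 0) (k 0) - rc 1 full (k 2) + 400)) := by
  exact pairA_main ε hε

end Pool.Agent.Helper1.SR
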