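import Mathlib
import Pool.Agent.Helper94.Abc.Det2
import Pool.Agent.Helper92.ABC.Defs

/-!
## SR5 few_lines
Case R <= 1: theta = (R - t0)/m, F = ceil(sqrt(m/(R d))) >= 1 (so F <= 2 sqrt(m/(R d)) since m/(Rd) >= 1). Dirichlet (Real.exists_int_int_abs_mul_sub_le): 1 <= f <= F, |f theta - e| <= 1/(F+1).
h_i = (z_i - t0 w_i)/m integer, |h_i - theta w_i| = (z_i - R w_i)/m in [0, R d W/m]. So |f h_i - e w_i| <= F R d W/m + W/(F+1) <= 3 sqrt(R W^2 d/m) =: b, and the integer f h_i - e w_i takes <= 1 + 2b values.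
f z - (f t0 + e m) w = m (f h - e w): u1 = f, u2 = -(f t0 + e m), T = {m c : |c| <= b}.
Case R > 1: exchange z and w: w = t0' z mod m (t0 is prime to m as soon as C is nonempty), w/z in [R', R'(1+d)] with R' = 1/(R(1+d)) <= 1, R' Z^2 <= Z^2/R <= Y.

-/

set_option autoImplicit false

namespace Pool.Agent.Helper1.SR

open Finset Pool.Agent.Helper94.Abc

open Pool.Agent.Helper92.ABC (radn full rc part rpart rootp prs Box wt num coord)

/-- the case `R ≤ 1` -/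
private theorem few_lines_aux {ι : Type*} (C : Finset ι) (z w : ι → ℤ) (m : ℕ) (t0 : ℤ)
    (R d Y W : ℝ) (hm : 1 ≤ m) (hd0 : 0 < d) (hd1 : d ≤ 1) (hR : 0 < R) (hRle : R ≤ 1)
    (hw : ∀ i ∈ C, 0 < w i ∧ (w i : ℝ) ≤ W)
    (ht : ∀ i ∈ C, (m : ℤ) ∣ z i - t0 * w i)
    (hR1 : ∀ i ∈ C, R ≤ (z i : ℝ) / w i) (hR2 : ∀ i ∈ C, (z i : ℝ) / w i ≤ R * (1 + d))
    (hY1 : R * W ^ 2 ≤ Y) :
    ∃ (u1 u2 : ℤ) (T : Finset ℤ), u1 ≠ 0 ∧
      (T.card : ℝ) ≤ 1 + 6 * Real.sqrt (Y * d / m) ∧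
      ∀ i ∈ C, u1 * z i + u2 * w i ∈ T := by
  have hm' : (1 : ℝ) ≤ (m : ℝ) := by exact_mod_cast hm
  have hm0 : (0 : ℝ) < (m : ℝ) := by linarith
  have hRd : 0 < R * d := mul_pos hR hd0
  have hRd1 : R * d ≤ 1 := by nlinarith
  -- `q = sqrt (m / (R d)) ≥ 1`
  obtain ⟨q, hq⟩ : ∃ q : ℝ, q = Real.sqrt ((m : ℝ) / (R * d)) := ⟨_, rfl⟩
  have hq2 : q ^ 2 = (m : ℝ) / (R * d) := by
    rw [hq]; exact Real.sq_sqrt (by positivity)
  have hq0 : 0 ≤ q := by rw [hq]; exact Real.sqrt_nonneg _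
  have hq1 : 1 ≤ q := by
    have h1 : 1 ≤ (m : ℝ) / (R * d) := by
      rw [le_div_iff₀ hRd]; linarith
    rw [hq]
    exact Real.one_le_sqrt.mpr h1
  have hqpos : 0 < q := by linarith
  have hF0 : 0 < ⌈q⌉₊ := Nat.ceil_pos.mpr hqpos
  obtain ⟨e, f, hf0, hfF, hef⟩ :=
    Real.exists_int_int_abs_mul_sub_le ((R - (t0 : ℝ)) / m) hF0
  have hFle : ((⌈q⌉₊ : ℕ) : ℝ) ≤ 2 * q := by
    have := Nat.ceil_lt_add_one hq0
    linarith
  have hFge : q ≤ ((⌈q⌉₊ : ℕ) : ℝ) := Nat.le_ceil q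
  have hfr : (0 : ℝ) < (f : ℝ) := by exact_mod_cast hf0
  have hfF' : (f : ℝ) ≤ ((⌈q⌉₊ : ℕ) : ℝ) := by exact_mod_cast hfF
  have hf2q : (f : ℝ) ≤ 2 * q := le_trans hfF' hFle
  have hef' : |(f : ℝ) * ((R - (t0 : ℝ)) / m) - e| ≤ 1 / q := by
    refine le_trans hef ?_
    apply one_div_le_one_div_of_le hqpos
    linarith
  obtain ⟨b, hb⟩ : ∃ b : ℝ, b = 3 * Real.sqrt (Y * d / m) := ⟨_, rfl⟩
  have hb0 : 0 ≤ b := by rw [hb]; positivity
  refine ⟨f, -(f * t0 + e * m), (Finset.Icc (-⌊b⌋) ⌊b⌋).image (fun c => (m : ℤ) * c), ?_, ?_, ?_⟩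
  · exact ne_of_gt hf0
  · have h1 : ((Finset.Icc (-⌊b⌋) ⌊b⌋).image (fun c => (m : ℤ) * c)).card
        ≤ (Finset.Icc (-⌊b⌋) ⌊b⌋).card := Finset.card_image_le
    have hfl0 : 0 ≤ ⌊b⌋ := Int.floor_nonneg.mpr hb0
    have h2 : (((Finset.Icc (-⌊b⌋) ⌊b⌋).card : ℕ) : ℤ) = 2 * ⌊b⌋ + 1 := by
      rw [Int.card_Icc, Int.toNat_of_nonneg (by linarith)]
      ring
    have h3 : (((Finset.Icc (-⌊b⌋) ⌊b⌋).card : ℕ) : ℝ) = 2 * (⌊b⌋ : ℝ) + 1 := by
      exact_mod_cast h2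
    have h4 : (⌊b⌋ : ℝ) ≤ b := Int.floor_le b
    have h5 : ((((Finset.Icc (-⌊b⌋) ⌊b⌋).image (fun c => (m : ℤ) * c)).card : ℕ) : ℝ)
        ≤ (((Finset.Icc (-⌊b⌋) ⌊b⌋).card : ℕ) : ℝ) := by exact_mod_cast h1
    have h6 : 2 * b = 6 * Real.sqrt (Y * d / m) := by rw [hb]; ring
    linarith
  · intro i hi
    obtain ⟨hwi, hwW⟩ := hw i hi
    obtain ⟨h, hh⟩ := ht i hi
    have hwr : (0 : ℝ) < (w i : ℝ) := by exact_mod_cast hwi
    have hW0 : 0 < W := by linarith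
    have e1 : R * (w i : ℝ) ≤ (z i : ℝ) := (le_div_iff₀ hwr).mp (hR1 i hi)
    have e2 : (z i : ℝ) ≤ R * (1 + d) * (w i : ℝ) := (div_le_iff₀ hwr).mp (hR2 i hi)
    have hhr : (z i : ℝ) - (t0 : ℝ) * (w i : ℝ) = (m : ℝ) * (h : ℝ) := by exact_mod_cast hh
    -- the key estimate
    have key : |(f : ℝ) * (h : ℝ) - (e : ℝ) * (w i : ℝ)| ≤ b := by
      have hdec : (f : ℝ) * (h : ℝ) - (e : ℝ) * (w i : ℝ)
          = (f : ℝ) * (((z i : ℝ) - R * (w i : ℝ)) / m)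
            + ((f : ℝ) * ((R - (t0 : ℝ)) / m) - e) * (w i : ℝ) := by
        have hh2 : (h : ℝ) = ((z i : ℝ) - (t0 : ℝ) * (w i : ℝ)) / m := by
          rw [hhr]; field_simp
        rw [hh2]
        field_simp
        ring
      have p1 : |(f : ℝ) * (((z i : ℝ) - R * (w i : ℝ)) / m)| ≤ 2 * q * (R * d * W / m) := by
        have hnn : 0 ≤ ((z i : ℝ) - R * (w i : ℝ)) / m := by
          apply div_nonneg _ hm0.le
          linarith
        rw [abs_of_nonneg (mul_nonneg hfr.le hnn)]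
        apply mul_le_mul hf2q _ hnn (by linarith)
        apply div_le_div_of_nonneg_right _ hm0.le
        have : R * d * (w i : ℝ) ≤ R * d * W := mul_le_mul_of_nonneg_left hwW hRd.le
        linarith
      have p2 : |((f : ℝ) * ((R - (t0 : ℝ)) / m) - e) * (w i : ℝ)| ≤ 1 / q * W := by
        rw [abs_mul, abs_of_pos hwr]
        exact mul_le_mul hef' hwW hwr.le (by positivity)
      have p3 : 2 * q * (R * d * W / m) = 2 * (W / q) := by
        have : (m : ℝ) = q ^ 2 * (R * d) := by rw [hq2]; field_simp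
        rw [this]
        field_simp
      have p4 : W / q ≤ Real.sqrt (Y * d / m) := by
        apply Real.le_sqrt_of_sq_le
        rw [div_pow, hq2, div_div_eq_mul_div]
        apply div_le_div_of_nonneg_right _ hm0.le
        nlinarith
      rw [hdec]
      calc |(f : ℝ) * (((z i : ℝ) - R * (w i : ℝ)) / m)
            + ((f : ℝ) * ((R - (t0 : ℝ)) / m) - e) * (w i : ℝ)|
          ≤ |(f : ℝ) * (((z i : ℝ) - R * (w i : ℝ)) / m)|
            + |((f : ℝ) * ((R - (t0 : ℝ)) / m) - e) * (w i : ℝ)| := abs_add_le _ _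
        _ ≤ 2 * (W / q) + W / q := by
            have : 1 / q * W = W / q := by ring
            linarith [p1, p2, p3]
        _ ≤ b := by rw [hb]; linarith
    have hval : f * z i + -(f * t0 + e * m) * w i = (m : ℤ) * (f * h - e * w i) := by
      have hz' : z i = t0 * w i + m * h := by linarith
      rw [hz']; ring
    rw [hval]
    apply Finset.mem_image_of_mem
    rw [Finset.mem_Icc]
    obtain ⟨k1, k2⟩ := abs_le.mp key
    constructor
    · have : ((-(f * h - e * w i) : ℤ) : ℝ) ≤ b := by push_cast; linarith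
      have := Int.le_floor.mpr this
      linarith
    · apply Int.le_floor.mpr
      push_cast
      exact k2

/-- SR5: a cluster of pairs lies on few lines. -/
theorem few_lines {ι : Type*} (C : Finset ι) (z w : ι → ℤ) (m : ℕ) (t0 : ℤ)
    (R d Y W Z : ℝ) (hm : 1 ≤ m) (hd0 : 0 < d) (hd1 : d ≤ 1) (hR : 0 < R)
    (hz : ∀ i ∈ C, 0 < z i ∧ (z i : ℝ) ≤ Z) (hw : ∀ i ∈ C, 0 < w i ∧ (w i : ℝ) ≤ W)
    (hcz : ∀ i ∈ C, IsCoprime (z i) (m : ℤ)) (hcw : ∀ i ∈ C, IsCoprime (w i) (m : ℤ))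
    (ht : ∀ i ∈ C, (m : ℤ) ∣ z i - t0 * w i)
    (hR1 : ∀ i ∈ C, R ≤ (z i : ℝ) / w i) (hR2 : ∀ i ∈ C, (z i : ℝ) / w i ≤ R * (1 + d))
    (hY1 : R * W ^ 2 ≤ Y) (hY2 : Z ^ 2 / R ≤ Y) :
    ∃ (u1 u2 : ℤ) (T : Finset ℤ), (u1 ≠ 0 ∨ u2 ≠ 0) ∧
      (T.card : ℝ) ≤ 1 + 6 * Real.sqrt (Y * d / m) ∧
      ∀ i ∈ C, u1 * z i + u2 * w i ∈ T := by
  by_cases hRle : R ≤ 1
  · obtain ⟨u1, u2, T, h1, h2, h3⟩ :=
      few_lines_aux C z w m t0 R d Y W hm hd0 hd1 hR hRle hw ht hR1 hR2 hY1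
    exact ⟨u1, u2, T, Or.inl h1, h2, h3⟩
  push Not at hRle
  rcases C.eq_empty_or_nonempty with hC | ⟨i0, hi0⟩
  · subst hC
    refine ⟨1, 0, ∅, Or.inl one_ne_zero, ?_, ?_⟩
    · simp only [Finset.card_empty, Nat.cast_zero]
      positivity
    · intro i hi
      exact absurd hi (Finset.notMem_empty i)
  -- inverse of t0 modulo m
  have hcop : IsCoprime t0 (m : ℤ) := by
    obtain ⟨h, hh⟩ := ht i0 hi0
    have hz1 : z i0 = t0 * w i0 + m * h := by linarith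
    have h1 : IsCoprime (t0 * w i0 + m * h) (m : ℤ) := hz1 ▸ hcz i0 hi0
    have h2 : IsCoprime (t0 * w i0) (m : ℤ) := by
      have := IsCoprime.add_mul_left_left_iff (x := t0 * w i0) (y := (m : ℤ)) (z := h)
      exact this.mp h1
    exact IsCoprime.of_mul_left_left h2
  obtain ⟨t1, s, hts⟩ := hcop
  have hd' : 0 < 1 + d := by linarith
  have hRR : 0 < R * (1 + d) := mul_pos hR hd'
  have key := few_lines_aux C w z m t1 (1 / (R * (1 + d))) d Y Z hm hd0 hd1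
    (by positivity)
    (by
      rw [div_le_one hRR]
      nlinarith)
    hz
    (by
      intro i hi
      obtain ⟨h, hh⟩ := ht i hi
      refine ⟨s * w i - t1 * h, ?_⟩
      have hz' : z i = t0 * w i + m * h := by linarith
      rw [hz']
      have : w i = (t1 * t0 + s * m) * w i := by rw [hts]; ring
      linear_combination this)
    (by
      intro i hi
      have hwr : (0 : ℝ) < (w i : ℝ) := by exact_mod_cast (hw i hi).1
      have hzr : (0 : ℝ) < (z i : ℝ) := by exact_mod_cast (hz i hi).1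
      have e2 := (div_le_iff₀ hwr).mp (hR2 i hi)
      rw [div_le_div_iff₀ hRR hzr]
      linarith)
    (by
      intro i hi
      have hwr : (0 : ℝ) < (w i : ℝ) := by exact_mod_cast (hw i hi).1
      have hzr : (0 : ℝ) < (z i : ℝ) := by exact_mod_cast (hz i hi).1
      have e1 := (le_div_iff₀ hwr).mp (hR1 i hi)
      have e3 : 1 / (R * (1 + d)) * (1 + d) = 1 / R := by
        field_simp
      rw [e3, div_le_div_iff₀ hzr hR]
      linarith)
    (by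
      refine le_trans ?_ hY2
      have e4 : 1 / (R * (1 + d)) * Z ^ 2 = Z ^ 2 / (R * (1 + d)) := by ring
      rw [e4]
      apply div_le_div_of_nonneg_left (sq_nonneg Z) hR
      nlinarith)
  obtain ⟨u1, u2, T, h1, h2, h3⟩ := key
  refine ⟨u2, u1, T, Or.inr h1, h2, ?_⟩
  intro i hi
  have := h3 i hi
  rwa [add_comm] at this

end Pool.Agent.Helper1.SR
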