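import Mathlib
import Pool.Agent.Helper94.Abc.Det2
import Pool.Agent.Helper92.ABC.Defs

/-!
## SR4 quartic_line / cubic_line
On the line u1 z + u2 w = c: if u1 != 0, z = al w + be (rational), the quartic becomes H(w) with coefficients
w^0: -A p be^4 - e ; w^1: -A be^3 (4 p al + q) ; w^2: -3 A al be^2 (2 p al + q) ; w^3: B r be - A al^2 be (4 p al + 3 q) ; w^4: B (r al + s) - A (p al + q) al^3.
All zero => p, be != 0, q = -4 p al, al * p al = 0 => al = 0 => q = 0, r = 0, s = 0, contradiction to ps - qr != 0. So H has at most 4 roots and w determines z.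
If u1 = 0: w is constant and the polynomial in z is -A p z^4 - A q w z^3 + B r w^3 z + (B s w^4 - e): all zero => p = q = 0, contradiction.
Cubic: u1 != 0: -A(al w + be)^3 + B w^3 - e: w^0: -A be^3 - e, w^1: -3A al be^2 , w^3: B - A al^3: all zero => be != 0, al = 0, B = 0. u1 = 0: leading coefficient -A.

-/

set_option autoImplicit false

namespace Pool.Agent.Helper1.SR

open Finset Pool.Agent.Helper94.Abc

open Pool.Agent.Helper92.ABC (radn full rc part rpart rootp prs Box wt num coord)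

/-- at most four roots -/
private lemma line4_rc4 (a0 a1 a2 a3 a4 : ℚ)
    (h : a0 = 0 → a1 = 0 → a2 = 0 → a3 = 0 → a4 = 0 → False) (W : Finset ℚ)
    (hW : ∀ w ∈ W, a4 * w ^ 4 + a3 * w ^ 3 + a2 * w ^ 2 + a1 * w + a0 = 0) : W.card ≤ 4 := by
  set P : Polynomial ℚ := Polynomial.C a4 * Polynomial.X ^ 4 + Polynomial.C a3 * Polynomial.X ^ 3 +
    Polynomial.C a2 * Polynomial.X ^ 2 + Polynomial.C a1 * Polynomial.X + Polynomial.C a0 with hP
  have hP0 : P ≠ 0 := by
    intro h0
    have hc : ∀ n, P.coeff n = 0 := fun n => by rw [h0, Polynomial.coeff_zero]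
    have h4 := hc 4
    have h3 := hc 3
    have h2 := hc 2
    have h1 := hc 1
    have h00 := hc 0
    rw [hP] at h4 h3 h2 h1 h00
    simp [Polynomial.coeff_X, Polynomial.coeff_C] at h4 h3 h2 h1 h00
    exact h h00 h1 h2 h3 h4
  have hdeg : P.natDegree ≤ 4 := by
    rw [hP]; compute_degree
  have hsub : W ⊆ P.roots.toFinset := by
    intro w hw
    rw [Multiset.mem_toFinset, Polynomial.mem_roots hP0, Polynomial.IsRoot.def, hP]
    simp only [Polynomial.eval_add, Polynomial.eval_mul, Polynomial.eval_C, Polynomial.eval_pow,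
      Polynomial.eval_X]
    exact hW w hw
  calc W.card ≤ P.roots.toFinset.card := Finset.card_le_card hsub
    _ ≤ Multiset.card P.roots := Multiset.toFinset_card_le _
    _ ≤ P.natDegree := Polynomial.card_roots' P
    _ ≤ 4 := hdeg

/-- at most three roots -/
private lemma line4_rc3 (a0 a1 a2 a3 : ℚ)
    (h : a0 = 0 → a1 = 0 → a2 = 0 → a3 = 0 → False) (W : Finset ℚ)
    (hW : ∀ w ∈ W, a3 * w ^ 3 + a2 * w ^ 2 + a1 * w + a0 = 0) : W.card ≤ 3 := by
  set P : Polynomial ℚ := Polynomial.C a3 * Polynomial.X ^ 3 +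
    Polynomial.C a2 * Polynomial.X ^ 2 + Polynomial.C a1 * Polynomial.X + Polynomial.C a0 with hP
  have hP0 : P ≠ 0 := by
    intro h0
    have hc : ∀ n, P.coeff n = 0 := fun n => by rw [h0, Polynomial.coeff_zero]
    have h3 := hc 3
    have h2 := hc 2
    have h1 := hc 1
    have h00 := hc 0
    rw [hP] at h3 h2 h1 h00
    simp [Polynomial.coeff_X, Polynomial.coeff_C] at h3 h2 h1 h00
    exact h h00 h1 h2 h3
  have hdeg : P.natDegree ≤ 3 := by
    rw [hP]; compute_degree
  have hsub : W ⊆ P.roots.toFinset := by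
    intro w hw
    rw [Multiset.mem_toFinset, Polynomial.mem_roots hP0, Polynomial.IsRoot.def, hP]
    simp only [Polynomial.eval_add, Polynomial.eval_mul, Polynomial.eval_C, Polynomial.eval_pow,
      Polynomial.eval_X]
    exact hW w hw
  calc W.card ≤ P.roots.toFinset.card := Finset.card_le_card hsub
    _ ≤ Multiset.card P.roots := Multiset.toFinset_card_le _
    _ ≤ P.natDegree := Polynomial.card_roots' P
    _ ≤ 3 := hdeg

/-- the second coordinate determines the point if `u1 ≠ 0` -/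
private lemma line4_card2 (u1 u2 c : ℤ) (h1 : u1 ≠ 0) (S : Finset (ℤ × ℤ))
    (h : ∀ P ∈ S, u1 * P.1 + u2 * P.2 = c) :
    (S.image fun P : ℤ × ℤ => (P.2 : ℚ)).card = S.card := by
  apply Finset.card_image_of_injOn
  intro P hP Q hQ hPQ
  have h2 : P.2 = Q.2 := by
    have : (P.2 : ℚ) = (Q.2 : ℚ) := hPQ
    exact_mod_cast this
  have h3 := h P hP
  have h4 := h Q hQ
  rw [h2] at h3
  have h5 : u1 * P.1 = u1 * Q.1 := by linarith
  exact Prod.ext (mul_left_cancel₀ h1 h5) h2

/-- the first coordinate determines the point if `u2 ≠ 0` -/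
private lemma line4_card1 (u1 u2 c : ℤ) (h1 : u2 ≠ 0) (S : Finset (ℤ × ℤ))
    (h : ∀ P ∈ S, u1 * P.1 + u2 * P.2 = c) :
    (S.image fun P : ℤ × ℤ => (P.1 : ℚ)).card = S.card := by
  apply Finset.card_image_of_injOn
  intro P hP Q hQ hPQ
  have h2 : P.1 = Q.1 := by
    have : (P.1 : ℚ) = (Q.1 : ℚ) := hPQ
    exact_mod_cast this
  have h3 := h P hP
  have h4 := h Q hQ
  rw [h2] at h3
  have h5 : u2 * P.2 = u2 * Q.2 := by linarith
  exact Prod.ext h2 (mul_left_cancel₀ h1 h5)

/-- SR4: few points of the quartic on a line. `P = (z, w)`. -/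
theorem quartic_line (A B p q r s e u1 u2 c : ℤ) (hA : A ≠ 0) (hB : B ≠ 0) (he : e ≠ 0)
    (hD : p * s - q * r ≠ 0) (hu : u1 ≠ 0 ∨ u2 ≠ 0) (S : Finset (ℤ × ℤ))
    (h : ∀ P ∈ S, u1 * P.1 + u2 * P.2 = c ∧
      B * (r * P.1 + s * P.2) * P.2 ^ 3 - A * (p * P.1 + q * P.2) * P.1 ^ 3 = e) :
    S.card ≤ 4 := by
  have hA' : (A : ℚ) ≠ 0 := by exact_mod_cast hA
  have hB' : (B : ℚ) ≠ 0 := by exact_mod_cast hB
  have he' : (e : ℚ) ≠ 0 := by exact_mod_cast he
  have hD' : (p : ℚ) * s - q * r ≠ 0 := by exact_mod_cast hD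
  have hq : ∀ P ∈ S, (u1 : ℚ) * P.1 + u2 * P.2 = c ∧
      (B : ℚ) * (r * P.1 + s * P.2) * (P.2 : ℚ) ^ 3 -
        A * (p * P.1 + q * P.2) * (P.1 : ℚ) ^ 3 = e := by
    intro P hP
    obtain ⟨h1, h2⟩ := h P hP
    exact ⟨by exact_mod_cast h1, by exact_mod_cast h2⟩
  by_cases h1 : u1 = 0
  · have h2 : u2 ≠ 0 := hu.resolve_left (fun h3 => h3 h1)
    have h2' : (u2 : ℚ) ≠ 0 := by exact_mod_cast h2
    rw [← line4_card1 u1 u2 c h2 S fun P hP => (h P hP).1]
    set w : ℚ := c / u2 with hw
    refine line4_rc4 (B * s * w ^ 4 - e) (B * r * w ^ 3) 0 (-(A * q * w)) (-(A * p)) ?_ _ ?_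
    · intro g0 g1 _ g3 g4
      have hp : (p : ℚ) = 0 := by
        have : (A : ℚ) * p = 0 := by linarith
        exact (mul_eq_zero.mp this).resolve_left hA'
      have hw0 : w ≠ 0 := by
        intro h0
        rw [h0] at g0
        apply he'
        linear_combination -g0
      have hq0 : (q : ℚ) = 0 := by
        have : ((A : ℚ) * w) * q = 0 := by linarith
        exact (mul_eq_zero.mp this).resolve_left (mul_ne_zero hA' hw0)
      apply hD'
      rw [hp, hq0]
      ring
    · intro z hz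
      obtain ⟨P, hP, rfl⟩ := Finset.mem_image.mp hz
      obtain ⟨g1, g2⟩ := hq P hP
      have hPw : (P.2 : ℚ) = w := by
        rw [hw, eq_div_iff h2']
        rw [h1] at g1
        push_cast at g1
        linarith
      rw [hPw] at g2
      linear_combination g2
  · have h1' : (u1 : ℚ) ≠ 0 := by exact_mod_cast h1
    rw [← line4_card2 u1 u2 c h1 S fun P hP => (h P hP).1]
    set al : ℚ := -u2 / u1 with hal
    set be : ℚ := c / u1 with hbe
    refine line4_rc4 (-(A * p * be ^ 4) - e) (-(A * be ^ 3 * (4 * p * al + q)))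
      (-(3 * A * al * be ^ 2 * (2 * p * al + q)))
      (B * r * be - A * al ^ 2 * be * (4 * p * al + 3 * q))
      (B * (r * al + s) - A * (p * al + q) * al ^ 3) ?_ _ ?_
    · intro g0 g1 g2 g3 g4
      have hbe0 : be ≠ 0 := by
        intro h0
        rw [h0] at g0
        apply he'
        linear_combination -g0
      have hp0 : (p : ℚ) ≠ 0 := by
        intro h0
        rw [h0] at g0
        apply he'
        linear_combination -g0
      have hq1 : 4 * p * al + q = 0 := by
        have : ((A : ℚ) * be ^ 3) * (4 * p * al + q) = 0 := by linarith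
        exact (mul_eq_zero.mp this).resolve_left (mul_ne_zero hA' (pow_ne_zero _ hbe0))
      have hal0 : al = 0 := by
        have h3 : ((3 : ℚ) * A * be ^ 2) * (al * (2 * p * al + q)) = 0 := by linarith
        have h4 := (mul_eq_zero.mp h3).resolve_left
          (mul_ne_zero (mul_ne_zero (by norm_num) hA') (pow_ne_zero _ hbe0))
        have h5 : (p : ℚ) * al ^ 2 = 0 := by linear_combination (al * hq1 - h4) / 2
        exact pow_eq_zero_iff (two_ne_zero) |>.mp ((mul_eq_zero.mp h5).resolve_left hp0)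
      rw [hal0] at hq1 g3 g4
      have hq0 : (q : ℚ) = 0 := by linarith
      have hr0 : (r : ℚ) = 0 := by
        have : ((B : ℚ) * be) * r = 0 := by linear_combination g3
        exact (mul_eq_zero.mp this).resolve_left (mul_ne_zero hB' hbe0)
      have hs0 : (s : ℚ) = 0 := by
        have : (B : ℚ) * s = 0 := by linear_combination g4
        exact (mul_eq_zero.mp this).resolve_left hB'
      apply hD'
      rw [hq0, hs0]
      ring
    · intro w hw
      obtain ⟨P, hP, rfl⟩ := Finset.mem_image.mp hw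
      obtain ⟨g1, g2⟩ := hq P hP
      have hPz : (P.1 : ℚ) = al * P.2 + be := by
        rw [hal, hbe]
        field_simp
        linarith
      rw [hPz] at g2
      linear_combination g2

/-- SR4': few points of the cubic on a line. `P = (z, w)`. -/
theorem cubic_line (A B e u1 u2 c : ℤ) (hA : A ≠ 0) (hB : B ≠ 0) (he : e ≠ 0)
    (hu : u1 ≠ 0 ∨ u2 ≠ 0) (S : Finset (ℤ × ℤ))
    (h : ∀ P ∈ S, u1 * P.1 + u2 * P.2 = c ∧ B * P.2 ^ 3 - A * P.1 ^ 3 = e) :
    S.card ≤ 3 := by
  have hA' : (A : ℚ) ≠ 0 := by exact_mod_cast hA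
  have hB' : (B : ℚ) ≠ 0 := by exact_mod_cast hB
  have he' : (e : ℚ) ≠ 0 := by exact_mod_cast he
  have hq : ∀ P ∈ S, (u1 : ℚ) * P.1 + u2 * P.2 = c ∧
      (B : ℚ) * (P.2 : ℚ) ^ 3 - A * (P.1 : ℚ) ^ 3 = e := by
    intro P hP
    obtain ⟨h1, h2⟩ := h P hP
    exact ⟨by exact_mod_cast h1, by exact_mod_cast h2⟩
  by_cases h1 : u1 = 0
  · have h2 : u2 ≠ 0 := hu.resolve_left (fun h3 => h3 h1)
    have h2' : (u2 : ℚ) ≠ 0 := by exact_mod_cast h2
    rw [← line4_card1 u1 u2 c h2 S fun P hP => (h P hP).1]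
    set w : ℚ := c / u2 with hw
    refine line4_rc3 (B * w ^ 3 - e) 0 0 (-A) ?_ _ ?_
    · intro _ _ _ g3
      exact hA' (by linarith)
    · intro z hz
      obtain ⟨P, hP, rfl⟩ := Finset.mem_image.mp hz
      obtain ⟨g1, g2⟩ := hq P hP
      have hPw : (P.2 : ℚ) = w := by
        rw [hw, eq_div_iff h2']
        rw [h1] at g1
        push_cast at g1
        linarith
      rw [hPw] at g2
      linear_combination g2
  · have h1' : (u1 : ℚ) ≠ 0 := by exact_mod_cast h1
    rw [← line4_card2 u1 u2 c h1 S fun P hP => (h P hP).1]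
    set al : ℚ := -u2 / u1 with hal
    set be : ℚ := c / u1 with hbe
    refine line4_rc3 (-(A * be ^ 3) - e) (-(3 * A * al * be ^ 2)) (-(3 * A * al ^ 2 * be))
      (B - A * al ^ 3) ?_ _ ?_
    · intro g0 g1 g2 g3
      have hbe0 : be ≠ 0 := by
        intro h0
        rw [h0] at g0
        apply he'
        linear_combination -g0
      have hal0 : al = 0 := by
        have h3 : ((3 : ℚ) * A * be ^ 2) * al = 0 := by linarith
        exact (mul_eq_zero.mp h3).resolve_left
          (mul_ne_zero (mul_ne_zero (by norm_num) hA') (pow_ne_zero _ hbe0))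
      rw [hal0] at g3
      exact hB' (by linear_combination g3)
    · intro w hw
      obtain ⟨P, hP, rfl⟩ := Finset.mem_image.mp hw
      obtain ⟨g1, g2⟩ := hq P hP
      have hPz : (P.1 : ℚ) = al * P.2 + be := by
        rw [hal, hbe]
        field_simp
        linarith
      rw [hPz] at g2
      linear_combination g2

end Pool.Agent.Helper1.SR
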