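import Mathlib
import Pool.Agent.Helper94.Abc.Det2
import Pool.Agent.Helper92.ABC.Defs
import Pool.Agent.Helper1.SR.St.Mat
import Pool.Agent.Helper1.SR.St.Line4
import Pool.Agent.Helper1.SR.St.Few

/-!
## SR7 cluster_count'
few_lines gives u1,u2,T, L = T.card <= 1+6 sqrt(Y d/m). If there are i,j,k in C pairwise independent (z_i w_j != z_j w_i and x_i y_j != x_j y_i etc.): cluster_matrix' gives p,q,r,s,g; for every l: B (r z+s w) w^3 - A (p z + q w) z^3 = g a.
 g takes at most 2 d(ps-qr) <= 2 dmax values (divisors with sign), for each g and each line at most 4 points (quartic_line; (z,w) determines the point because g x = p z+q w, g y = r z+s w): |C| <= 8 dmax L.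
 Otherwise: two points are dependent iff (z,w) equal (primitive vectors, z_i w_j = z_j w_i) or (x,y) equal. If C nonempty pick i; either every point shares (z,w) or (x,y) with i, or some j is independent of i and then every l shares one of them with i or j. Points sharing (z,w) with i: <= mu. Points sharing (x,y) with i: the cubic (B y) w^3 - (A x) z^3 = a, at most 3 per line: <= 3 L. Total <= 2 mu + 6 L.

-/

set_option autoImplicit false

namespace Pool.Agent.Helper1.SR

open Finset Pool.Agent.Helper94.Abc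

open Pool.Agent.Helper92.ABC (radn full rc part rpart rootp prs Box wt num coord)

/-- dependent primitive positive vectors are equal -/
private lemma clu_prim {a b c d : ℤ} (ha : 0 < a) (hc : 0 < c)
    (h1 : IsCoprime a b) (h2 : IsCoprime c d) (h : a * d = c * b) : a = c ∧ b = d := by
  have h3 : a ∣ c := by
    have : a ∣ c * b := ⟨d, h.symm⟩
    exact h1.dvd_of_dvd_mul_right this
  have h4 : c ∣ a := by
    have : c ∣ a * d := ⟨b, h⟩
    exact h2.dvd_of_dvd_mul_right this
  have h5 : a = c := Int.dvd_antisymm ha.le hc.le h3 h4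
  subst h5
  exact ⟨rfl, (mul_left_cancel₀ ha.ne' h).symm⟩

/-- the values of `g` -/
private lemma clu_divs (G : Finset ℤ) (D : ℤ) (hD : D ≠ 0) (h : ∀ g ∈ G, g ∣ D) :
    G.card ≤ 2 * D.natAbs.divisors.card := by
  have hsub : G ⊆ (D.natAbs.divisors.image fun n : ℕ => (n : ℤ)) ∪
      (D.natAbs.divisors.image fun n : ℕ => -(n : ℤ)) := by
    intro g hg
    have h1 : g.natAbs ∈ D.natAbs.divisors := by
      rw [Nat.mem_divisors]
      exact ⟨Int.natAbs_dvd_natAbs.mpr (h g hg), Int.natAbs_ne_zero.mpr hD⟩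
    rw [Finset.mem_union, Finset.mem_image, Finset.mem_image]
    rcases Int.natAbs_eq g with h2 | h2
    · exact Or.inl ⟨g.natAbs, h1, h2.symm⟩
    · exact Or.inr ⟨g.natAbs, h1, h2.symm⟩
  calc G.card ≤ _ := Finset.card_le_card hsub
    _ ≤ _ := Finset.card_union_le _ _
    _ ≤ D.natAbs.divisors.card + D.natAbs.divisors.card :=
        Nat.add_le_add Finset.card_image_le Finset.card_image_le
    _ = 2 * D.natAbs.divisors.card := by ring

/-- SR7: the number of points of a cluster. -/
theorem cluster_count' {ι : Type*} (C : Finset ι) (x y z w : ι → ℤ) (A B a V : ℤ)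
    (m : ℕ) (t0 : ℤ) (R d Y W Z μ dmax : ℝ) (hA : A ≠ 0) (hB : B ≠ 0) (ha : a ≠ 0)
    (hx : ∀ i ∈ C, 0 < x i ∧ x i ≤ V) (hy : ∀ i ∈ C, 0 < y i ∧ y i ≤ V)
    (hz : ∀ i ∈ C, 0 < z i ∧ z i ≤ V) (hw : ∀ i ∈ C, 0 < w i ∧ w i ≤ V)
    (hxy : ∀ i ∈ C, IsCoprime (x i) (y i)) (hzw : ∀ i ∈ C, IsCoprime (z i) (w i))
    (heq : ∀ i ∈ C, B * y i * w i ^ 3 - A * x i * z i ^ 3 = a)
    (hinj : ∀ i ∈ C, ∀ j ∈ C, x i = x j → y i = y j → z i = z j → w i = w j → i = j)
    (hDD : ∀ i ∈ C, ∀ j ∈ C, ∀ k ∈ C, ∀ l ∈ C,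
      DD (x i) (y i) (z i) (w i) (x j) (y j) (z j) (w j) (x k) (y k) (z k) (w k)
        (x l) (y l) (z l) (w l) = 0)
    (hm : 1 ≤ m) (hd0 : 0 < d) (hd1 : d ≤ 1) (hR : 0 < R)
    (hzZ : ∀ i ∈ C, (z i : ℝ) ≤ Z) (hwW : ∀ i ∈ C, (w i : ℝ) ≤ W)
    (hcz : ∀ i ∈ C, IsCoprime (z i) (m : ℤ)) (hcw : ∀ i ∈ C, IsCoprime (w i) (m : ℤ))
    (ht : ∀ i ∈ C, (m : ℤ) ∣ z i - t0 * w i)
    (hR1 : ∀ i ∈ C, R ≤ (z i : ℝ) / w i) (hR2 : ∀ i ∈ C, (z i : ℝ) / w i ≤ R * (1 + d))
    (hY1 : R * W ^ 2 ≤ Y) (hY2 : Z ^ 2 / R ≤ Y)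
    (hμ : ∀ i ∈ C, ((C.filter (fun j => z j = z i ∧ w j = w i)).card : ℝ) ≤ μ)
    (hμ0 : 0 ≤ μ) (hdmax : 0 ≤ dmax)
    (hdiv : ∀ D : ℤ, D ≠ 0 → |D| ≤ 72 * V ^ 12 → (D.natAbs.divisors.card : ℝ) ≤ dmax) :
    (C.card : ℝ) ≤ 2 * μ + (6 + 8 * dmax) * (1 + 6 * Real.sqrt (Y * d / m)) := by
  classical
  obtain ⟨u1, u2, T, hu, hT, hline⟩ := few_lines C z w m t0 R d Y W Z hm hd0 hd1 hR
    (fun i hi => ⟨(hz i hi).1, hzZ i hi⟩) (fun i hi => ⟨(hw i hi).1, hwW i hi⟩)
    hcz hcw ht hR1 hR2 hY1 hY2
  obtain ⟨L, hL⟩ : ∃ L : ℝ, L = 1 + 6 * Real.sqrt (Y * d / m) := ⟨_, rfl⟩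
  rw [← hL] at hT ⊢
  have hL0 : 0 ≤ L := by rw [hL]; positivity
  by_cases htriple : ∃ i ∈ C, ∃ j ∈ C, ∃ k ∈ C,
      (z i * w j ≠ z j * w i ∧ z i * w k ≠ z k * w i ∧ z j * w k ≠ z k * w j) ∧
      (x i * y j ≠ x j * y i ∧ x i * y k ≠ x k * y i ∧ x j * y k ≠ x k * y j)
  · obtain ⟨i, hi, j, hj, k, hk, ⟨zij, zik, zjk⟩, xij, xik, xjk⟩ := htriple
    obtain ⟨p, q, r, s, g, hg, hD, hgD, hDV⟩ := cluster_matrix' C x y z w V hx hy hz hw hxy hzw
      hi hj hk zij zik zjk xij xik xjk hDD
    have hG : ((C.image g).card : ℝ) ≤ 2 * dmax := by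
      have h1 := clu_divs (C.image g) (p * s - q * r) hD (by
        intro v hv
        obtain ⟨l, hl, rfl⟩ := Finset.mem_image.mp hv
        exact (hgD l hl).2)
      have h2 := hdiv (p * s - q * r) hD hDV
      have h3 : ((C.image g).card : ℝ) ≤ 2 * ((p * s - q * r).natAbs.divisors.card : ℝ) := by
        exact_mod_cast h1
      linarith
    have hfib : C.card ≤ 4 * ((C.image g) ×ˢ T).card := by
      refine Finset.card_le_mul_card_image_of_maps_to
        (f := fun l => (g l, u1 * z l + u2 * w l)) ?_ 4 ?_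
      · intro l hl
        rw [Finset.mem_product]
        exact ⟨Finset.mem_image_of_mem g hl, hline l hl⟩
      · rintro ⟨g0, c⟩ hgc
        rw [Finset.mem_product] at hgc
        obtain ⟨l0, hl0, hgl0⟩ := Finset.mem_image.mp hgc.1
        have hg0 : g0 ≠ 0 := by
          have := (hgD l0 hl0).1
          rw [hgl0] at this
          exact this
        have hinj' : Set.InjOn (fun l => (z l, w l))
            (C.filter fun l => (g l, u1 * z l + u2 * w l) = (g0, c) : Finset ι) := by
          intro l hl l' hl' hll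
          rw [Finset.mem_coe, Finset.mem_filter, Prod.mk.injEq] at hl hl'
          obtain ⟨hlC, hlg, -⟩ := hl
          obtain ⟨hlC', hlg', -⟩ := hl'
          obtain ⟨hzz, hww⟩ : z l = z l' ∧ w l = w l' := Prod.mk.injEq _ _ _ _ ▸ hll
          have e1 := hg l hlC
          have e2 := hg l' hlC'
          rw [hzz, hww, hlg] at e1
          rw [hlg'] at e2
          refine hinj l hlC l' hlC' ?_ ?_ hzz hww
          · exact mul_left_cancel₀ hg0 (e1.1.symm.trans e2.1)
          · exact mul_left_cancel₀ hg0 (e1.2.symm.trans e2.2)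
        rw [← Finset.card_image_of_injOn hinj']
        refine quartic_line A B p q r s (g0 * a) u1 u2 c hA hB (mul_ne_zero hg0 ha) hD hu _ ?_
        intro P hP
        obtain ⟨l, hl, rfl⟩ := Finset.mem_image.mp hP
        rw [Finset.mem_filter, Prod.mk.injEq] at hl
        obtain ⟨hlC, hlg, hlc⟩ := hl
        refine ⟨hlc, ?_⟩
        have e1 := hg l hlC
        have e2 := heq l hlC
        rw [hlg] at e1
        show B * (r * z l + s * w l) * w l ^ 3 - A * (p * z l + q * w l) * z l ^ 3 = g0 * a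
        rw [e1.1, e1.2, ← e2]
        ring
    have h1 : (C.card : ℝ) ≤ 4 * (((C.image g).card : ℝ) * (T.card : ℝ)) := by
      rw [Finset.card_product] at hfib
      exact_mod_cast hfib
    have h2 : ((C.image g).card : ℝ) * (T.card : ℝ) ≤ 2 * dmax * L :=
      mul_le_mul hG hT (Nat.cast_nonneg _) (by positivity)
    nlinarith [mul_nonneg hdmax hL0]
  · -- points which share `(x, y)` or `(z, w)` with a given point
    have hdep : ∀ i ∈ C, ((C.filter fun l => (z l = z i ∧ w l = w i) ∨
        (x l = x i ∧ y l = y i)).card : ℝ) ≤ μ + 3 * L := by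
      intro i hi
      have hxyc : (C.filter fun l => x l = x i ∧ y l = y i).card ≤ 3 * T.card := by
        refine Finset.card_le_mul_card_image_of_maps_to
          (f := fun l => u1 * z l + u2 * w l) ?_ 3 ?_
        · intro l hl
          exact hline l (Finset.mem_filter.mp hl).1
        · intro c _
          have hinj' : Set.InjOn (fun l => (z l, w l))
              ((C.filter fun l => x l = x i ∧ y l = y i).filter
                fun l => u1 * z l + u2 * w l = c : Finset ι) := by
            intro l hl l' hl' hll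
            rw [Finset.mem_coe, Finset.mem_filter, Finset.mem_filter] at hl hl'
            obtain ⟨⟨hlC, hlx, hly⟩, -⟩ := hl
            obtain ⟨⟨hlC', hlx', hly'⟩, -⟩ := hl'
            obtain ⟨hzz, hww⟩ : z l = z l' ∧ w l = w l' := Prod.mk.injEq _ _ _ _ ▸ hll
            exact hinj l hlC l' hlC' (hlx.trans hlx'.symm) (hly.trans hly'.symm) hzz hww
          rw [← Finset.card_image_of_injOn hinj']
          refine cubic_line (A * x i) (B * y i) a u1 u2 c (mul_ne_zero hA (hx i hi).1.ne')
            (mul_ne_zero hB (hy i hi).1.ne') ha hu _ ?_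
          intro P hP
          obtain ⟨l, hl, rfl⟩ := Finset.mem_image.mp hP
          rw [Finset.mem_filter, Finset.mem_filter] at hl
          obtain ⟨⟨hlC, hlx, hly⟩, hlc⟩ := hl
          refine ⟨hlc, ?_⟩
          have e2 := heq l hlC
          rw [hlx, hly] at e2
          exact e2
      have hsub : (C.filter fun l => (z l = z i ∧ w l = w i) ∨ (x l = x i ∧ y l = y i)).card ≤
          (C.filter fun l => z l = z i ∧ w l = w i).card +
            (C.filter fun l => x l = x i ∧ y l = y i).card := by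
        rw [Finset.filter_or]
        exact Finset.card_union_le _ _
      have h1 : ((C.filter fun l => (z l = z i ∧ w l = w i) ∨
          (x l = x i ∧ y l = y i)).card : ℝ) ≤
          ((C.filter fun l => z l = z i ∧ w l = w i).card : ℝ) +
            ((C.filter fun l => x l = x i ∧ y l = y i).card : ℝ) := by
        exact_mod_cast hsub
      have h2 : ((C.filter fun l => x l = x i ∧ y l = y i).card : ℝ) ≤ 3 * (T.card : ℝ) := by
        exact_mod_cast hxyc
      have h3 := hμ i hi
      linarith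
    have hindep : ∀ i ∈ C, ∀ l ∈ C, ¬((z l = z i ∧ w l = w i) ∨ (x l = x i ∧ y l = y i)) →
        z i * w l ≠ z l * w i ∧ x i * y l ≠ x l * y i := by
      intro i hi l hl h
      rw [not_or] at h
      refine ⟨fun h1 => h.1 ?_, fun h1 => h.2 ?_⟩
      · obtain ⟨h2, h3⟩ := clu_prim (hz i hi).1 (hz l hl).1 (hzw i hi) (hzw l hl) h1
        exact ⟨h2.symm, h3.symm⟩
      · obtain ⟨h2, h3⟩ := clu_prim (hx i hi).1 (hx l hl).1 (hxy i hi) (hxy l hl) h1
        exact ⟨h2.symm, h3.symm⟩
    have hfin : (C.card : ℝ) ≤ 2 * (μ + 3 * L) := by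
      rcases C.eq_empty_or_nonempty with hC | ⟨i, hi⟩
      · rw [hC, Finset.card_empty, Nat.cast_zero]
        positivity
      by_cases hall : ∀ l ∈ C, (z l = z i ∧ w l = w i) ∨ (x l = x i ∧ y l = y i)
      · have h1 := hdep i hi
        rw [Finset.filter_true_of_mem hall] at h1
        have : 0 ≤ μ + 3 * L := by positivity
        linarith
      · push Not at hall
        obtain ⟨j, hj, hj1⟩ := hall
        have hij : ¬((z j = z i ∧ w j = w i) ∨ (x j = x i ∧ y j = y i)) := by
          rintro (h1 | h1)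
          · exact hj1.1 h1.1 h1.2
          · exact hj1.2 h1.1 h1.2
        have hij' := hindep i hi j hj hij
        have hsub : C ⊆ (C.filter fun l => (z l = z i ∧ w l = w i) ∨ (x l = x i ∧ y l = y i)) ∪
            (C.filter fun l => (z l = z j ∧ w l = w j) ∨ (x l = x j ∧ y l = y j)) := by
          intro l hl
          rw [Finset.mem_union, Finset.mem_filter, Finset.mem_filter]
          by_contra hcon
          rw [not_or, not_and, not_and] at hcon
          have h1 := hindep i hi l hl (hcon.1 hl)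
          have h2 := hindep j hj l hl (hcon.2 hl)
          exact htriple ⟨i, hi, j, hj, l, hl, ⟨hij'.1, h1.1, h2.1⟩, hij'.2, h1.2, h2.2⟩
        have h1 : C.card ≤ _ := (Finset.card_le_card hsub).trans (Finset.card_union_le _ _)
        have h2 : (C.card : ℝ) ≤
            ((C.filter fun l => (z l = z i ∧ w l = w i) ∨ (x l = x i ∧ y l = y i)).card : ℝ) +
            ((C.filter fun l => (z l = z j ∧ w l = w j) ∨ (x l = x j ∧ y l = y j)).card : ℝ) := by
          exact_mod_cast h1
        have h3 := hdep i hi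
        have h4 := hdep j hj
        linarith
    nlinarith [mul_nonneg hdmax hL0]

end Pool.Agent.Helper1.SR
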