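import Mathlib
import Pool.Agent.Helper94.Abc.Det2
import Pool.Agent.Helper94.Abc.Basic
import Pool.Agent.Helper92.ABC.Defs

/-!
SR8b. B w^3 (y_i - y_j) = A z^3 (x_i - x_j), so |B| w^3 divides x_i - x_j; x_i = x_j implies y_i = y_j, hence i = j. So the x_i are
distinct and pairwise at distance >= |B| w^3 >= N/Y1: use gap_card (Helper94/Abc/Basic.lean) with u = 0, v = X1, G = N/Y1 (if C is empty trivial; Y1 > 0 otherwise).
SR8c. The usual divisor bound d(n) <= C n^eps is in the tree (search divisors in Helper26/Abc2, Helper51/PowSave, Helper94/Abc/Asym: the hypothesis hdiv of crit_fixed is discharged there).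
-/

set_option autoImplicit false

namespace Pool.Agent.Helper1.SR

open Finset Pool.Agent.Helper94.Abc

open Pool.Agent.Helper92.ABC (radn full rc part rpart rootp prs Box wt num coord)

/-- SR8b: points with the same `(z, w)`. -/
theorem same_zw {ι : Type*} (C : Finset ι) (x y : ι → ℤ) (z w A B a : ℤ) (X1 Y1 N : ℝ)
    (hA : A ≠ 0) (hB : B ≠ 0) (hN : 0 < N) (hz : 0 < z) (hw : 0 < w)
    (hx : ∀ i ∈ C, 0 < x i ∧ (x i : ℝ) ≤ X1) (hy : ∀ i ∈ C, 0 < y i ∧ (y i : ℝ) ≤ Y1)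
    (heq : ∀ i ∈ C, B * y i * w ^ 3 - A * x i * z ^ 3 = a)
    (hNl : ∀ i ∈ C, N ≤ |(B : ℝ)| * y i * (w : ℝ) ^ 3)
    (hco : IsCoprime (A * z) (B * w)) (hinj : ∀ i ∈ C, ∀ j ∈ C, x i = x j → y i = y j → i = j)
    (hXY : 0 ≤ X1 * Y1) :
    (C.card : ℝ) ≤ 1 + X1 * Y1 / N := by
  rcases C.eq_empty_or_nonempty with hC | ⟨i0, hi0⟩
  · rw [hC, Finset.card_empty]
    have : 0 ≤ X1 * Y1 / N := div_nonneg hXY hN.le
    push_cast
    linarith
  have hx0 := hx i0 hi0
  have hy0 := hy i0 hi0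
  have hX1 : 0 < X1 := by
    have : (0 : ℝ) < x i0 := by exact_mod_cast hx0.1
    linarith [hx0.2]
  have hY1 : 0 < Y1 := by
    have : (0 : ℝ) < y i0 := by exact_mod_cast hy0.1
    linarith [hy0.2]
  have hw3 : (0 : ℝ) < (w : ℝ) ^ 3 := by
    have : (0 : ℝ) < w := by exact_mod_cast hw
    positivity
  have hB0 : (0 : ℝ) < |(B : ℝ)| := abs_pos.2 (by exact_mod_cast hB)
  have hG : 0 < N / Y1 := div_pos hN hY1
  -- lower bound for the step
  have hstep : N / Y1 ≤ |(B : ℝ)| * (w : ℝ) ^ 3 := by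
    rw [div_le_iff₀ hY1]
    calc N ≤ |(B : ℝ)| * y i0 * (w : ℝ) ^ 3 := hNl i0 hi0
      _ = |(B : ℝ)| * (w : ℝ) ^ 3 * y i0 := by ring
      _ ≤ |(B : ℝ)| * (w : ℝ) ^ 3 * Y1 := by
        apply mul_le_mul_of_nonneg_left hy0.2
        positivity
  have hgap : ∀ i ∈ C, ∀ j ∈ C, i ≠ j → N / Y1 ≤ |(x i : ℝ) - x j| := by
    intro i hi j hj hij
    have e1 : B * w ^ 3 * (y i - y j) = (A * z ^ 3) * (x i - x j) := by
      linear_combination (heq i hi) - (heq j hj)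
    have hcop : IsCoprime (B * w ^ 3) (A * z ^ 3) := by
      have h1 : IsCoprime A (B * w) := (IsCoprime.mul_left_iff.1 hco).1
      have h2 : IsCoprime z (B * w) := (IsCoprime.mul_left_iff.1 hco).2
      have a1 := (IsCoprime.mul_right_iff.1 h1)
      have a2 := (IsCoprime.mul_right_iff.1 h2)
      apply IsCoprime.symm
      apply IsCoprime.mul_left
      · exact IsCoprime.mul_right a1.1 (a1.2.pow_right)
      · exact IsCoprime.mul_right (a2.1.pow_left) (a2.2.pow)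
    have hdvd : B * w ^ 3 ∣ x i - x j :=
      hcop.dvd_of_dvd_mul_left ⟨y i - y j, e1.symm⟩
    have hne : x i - x j ≠ 0 := by
      intro h0
      rw [h0, mul_zero] at e1
      have hBw : B * w ^ 3 ≠ 0 := mul_ne_zero hB (pow_ne_zero _ hw.ne')
      have h2 := (mul_eq_zero.1 e1).resolve_left hBw
      exact hij (hinj i hi j hj (by linarith) (by linarith))
    obtain ⟨t, ht⟩ := hdvd
    have ht0 : t ≠ 0 := by
      rintro rfl
      rw [mul_zero] at ht
      exact hne ht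
    have h3 : (x i : ℝ) - x j = (B : ℝ) * (w : ℝ) ^ 3 * t := by exact_mod_cast ht
    have h4 : (1 : ℝ) ≤ |(t : ℝ)| := by exact_mod_cast Int.one_le_abs ht0
    rw [h3, abs_mul, abs_mul, abs_of_pos hw3]
    calc N / Y1 ≤ |(B : ℝ)| * (w : ℝ) ^ 3 := hstep
      _ = |(B : ℝ)| * (w : ℝ) ^ 3 * 1 := by ring
      _ ≤ |(B : ℝ)| * (w : ℝ) ^ 3 * |(t : ℝ)| := by
        apply mul_le_mul_of_nonneg_left h4
        positivity
  have := gap_card C (fun i => (x i : ℝ)) (u := 0) (v := X1) hG hX1.le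
    (fun i hi => ⟨by have := (hx i hi).1; exact_mod_cast this.le, (hx i hi).2⟩) hgap
  have e : (X1 - 0) / (N / Y1) = X1 * Y1 / N := by
    field_simp
    ring
  rw [e] at this
  exact this

/-- SR8c: divisor bound. -/
theorem divisors_72 (ε : ℝ) (hε : 0 < ε) : ∃ C : ℝ, 0 < C ∧ ∀ (V : ℕ), 1 ≤ V → ∀ D : ℤ, D ≠ 0 →
    |D| ≤ 72 * (V : ℤ) ^ 12 → (D.natAbs.divisors.card : ℝ) ≤ C * (V : ℝ) ^ ε := by
  obtain ⟨C0, hC0, hb⟩ := divisor_bound (ε := ε / 12) (by positivity)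
  refine ⟨C0 * (72 : ℝ) ^ (ε / 12), by positivity, ?_⟩
  intro V hV D hD hDV
  have h1 := hb D.natAbs (Int.natAbs_ne_zero.2 hD)
  have hV0 : (0 : ℝ) < V := by exact_mod_cast hV
  have h2 : (D.natAbs : ℝ) ≤ 72 * (V : ℝ) ^ 12 := by
    have h3 : D.natAbs ≤ 72 * V ^ 12 := by
      zify
      exact hDV
    exact_mod_cast h3
  calc (D.natAbs.divisors.card : ℝ) ≤ C0 * (D.natAbs : ℝ) ^ (ε / 12) := h1
    _ ≤ C0 * (72 * (V : ℝ) ^ 12) ^ (ε / 12) := by
      apply mul_le_mul_of_nonneg_left _ (by linarith)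
      exact Real.rpow_le_rpow (by positivity) h2 (by positivity)
    _ = C0 * (72 : ℝ) ^ (ε / 12) * (V : ℝ) ^ ε := by
      rw [Real.mul_rpow (by norm_num) (by positivity), ← Real.rpow_natCast (V : ℝ) 12,
        ← Real.rpow_mul hV0.le]
      have : ((12 : ℕ) : ℝ) * (ε / 12) = ε := by push_cast; ring
      rw [this]
      ring

end Pool.Agent.Helper1.SR
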