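import Mathlib
import Pool.Agent.Helper94.Abc.Det2
import Pool.Agent.Helper92.ABC.Defs

/-!
## SR6 select (m = radn s; all v = v_p(s))
d0 = prod p^floor(v/3), Ms = prod_{v>=2} p^ceil(v/3), Mx = prod p^floor(v/2), f = prod_{v=1} p. Ms | Mx, Ms/d0 <= m, Ms^3 <= m^2 (s/f), gcd: G* = s/f divides Ms^3 and s.
CASE 1 (Ms > K): there is M with M^3 | s, M <= K, M > K/m: if d0 <= K take M = d0 (d0 >= Ms/m); if d0 > K take the largest divisor M of d0 with M <= K (M != d0, so some prime p has M p | d0, M p > K, p <= m). G = M^3.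
 (i) K^6 >= H P^2 since K^3 >= H^2 h^2 P m^2. (ii) N M^3 K^3 >= N K^6/m^3 >= N H^4 h^4 P^2 m >= H P^2 s. (iii) N^2 M^4 K^2 >= N^2 K^6/m^4 >= N^2 H^4 h^4 P^2 >= H P^2 s^2.
CASE 2 (Ms <= K): G = G* = s/f. Ms satisfies (i): H P^2 Ms^3 <= H P^2 m^2 G <= G K^6. Take M = the largest M with Ms | M | Mx, M <= K, H P^2 M^3 <= G K^6.
 (ii) H P^2 s = H P^2 f G <= H P^2 m G <= N G K^3 by h2. (iii) is equivalent to H P^2 s f <= N^2 M K^2:
  M = Mx: Mx^2 = s/o, o = prod_{v odd} p, f | o, f^2 o <= m^3: square: H^2 P^4 s^2 f^2 <= N^4 (s/o) K^4 <=> H^2 P^4 s f^2 o <= N^4 K^4, true by h3 and s <= h N.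
  otherwise there is a prime p with Ms | M p | Mx (so v_p >= 2, p f <= m) and M p > K or H P^2 M^3 p^3 > G K^6:
   M p > K: need H P^2 s f p <= N^2 K^3: h2 and s <= hN, f p <= m.
   H P^2 M^3 p^3 > G K^6: cube: H^3 P^6 s^3 f^3 <= N^6 M^3 K^6 follows from H^4 P^8 s^2 f^4 p^3 <= N^6 K^12: 4th power of h2 (N K^3)^4 >= H^8 h^8 P^8 m^4, (fp)^4 <= m^4, s <= hN.

-/

set_option autoImplicit false

namespace Pool.Agent.Helper1.SR

open Finset Pool.Agent.Helper94.Abc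

open Pool.Agent.Helper92.ABC (radn full rc part rpart rootp prs Box wt num coord)

private theorem Sel_radn_mul {a b : ℕ} (h : Nat.Coprime a b) : radn (a * b) = radn a * radn b := by
  unfold radn
  rw [h.primeFactors_mul, Finset.prod_union h.disjoint_primeFactors]

private theorem Sel_radn_pos (n : ℕ) : 1 ≤ radn n :=
  Finset.prod_pos fun p hp => (Nat.prime_of_mem_primeFactors hp).pos

private theorem Sel_struct (s : ℕ) (hs : s ≠ 0) : ∃ d0 Ms Mx f o G : ℕ,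
    s = f * G ∧ Mx ^ 2 * o = s ∧ d0 ^ 3 ∣ s ∧ Ms ∣ Mx ∧ Ms ∣ d0 * radn s ∧ G ∣ Ms ^ 3 ∧
      Ms ^ 3 ∣ radn s ^ 2 * G ∧ f ∣ radn s ∧ o ∣ radn s ∧
        ∀ q, q.Prime → q ∣ Mx → q * f ∣ radn s := by
  induction s using Nat.recOnPosPrimePosCoprime with
  | prime_pow p n hp hn =>
    have hr : radn (p ^ n) = p := by
      unfold radn
      rw [Nat.primeFactors_prime_pow hn.ne' hp, Finset.prod_singleton]
    rw [hr]
    refine ⟨p ^ (n / 3), p ^ (if n = 1 then 0 else (n + 2) / 3), p ^ (n / 2),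
      p ^ (if n = 1 then 1 else 0), p ^ (n % 2), p ^ (if n = 1 then 0 else n),
      ?_, ?_, ?_, ?_, ?_, ?_, ?_, ?_, ?_, ?_⟩
    · rw [← pow_add]
      congr 1
      split_ifs <;> omega
    · rw [← pow_mul, ← pow_add]
      congr 1
      omega
    · rw [← pow_mul]
      exact pow_dvd_pow _ (by omega)
    · exact pow_dvd_pow _ (by split_ifs <;> omega)
    · rw [← pow_succ]
      exact pow_dvd_pow _ (by split_ifs <;> omega)
    · rw [← pow_mul]
      exact pow_dvd_pow _ (by split_ifs <;> omega)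
    · rw [← pow_mul, ← pow_add]
      exact pow_dvd_pow _ (by split_ifs <;> omega)
    · conv_rhs => rw [← pow_one p]
      exact pow_dvd_pow _ (by split_ifs <;> omega)
    · conv_rhs => rw [← pow_one p]
      exact pow_dvd_pow _ (by omega)
    · intro q hq hqd
      have hqp : q = p := (Nat.prime_dvd_prime_iff_eq hq hp).1 (hq.dvd_of_dvd_pow hqd)
      subst hqp
      by_cases h1 : n = 1
      · subst h1
        exact absurd (Nat.dvd_one.1 (by simpa using hqd)) hq.one_lt.ne'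
      · rw [if_neg h1, pow_zero, mul_one]
  | zero => exact absurd rfl hs
  | one =>
    refine ⟨1, 1, 1, 1, 1, 1, ?_, ?_, ?_, ?_, ?_, ?_, ?_, ?_, ?_, ?_⟩ <;>
      first
      | exact fun q hq hqd => absurd (Nat.dvd_one.1 hqd) hq.one_lt.ne'
      | simp
  | coprime a b ha hb hab iha ihb =>
    obtain ⟨d, Ms, Mx, f, o, G, e1, e2, e3, e4, e5, e6, e7, e8, e9, e10⟩ := iha (by omega)
    obtain ⟨d', Ms', Mx', f', o', G', i1, i2, i3, i4, i5, i6, i7, i8, i9, i10⟩ := ihb (by omega)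
    rw [Sel_radn_mul hab]
    refine ⟨d * d', Ms * Ms', Mx * Mx', f * f', o * o', G * G', ?_, ?_, ?_, ?_, ?_, ?_, ?_, ?_,
      ?_, ?_⟩
    · conv_lhs => rw [e1, i1]
      ring
    · conv_rhs => rw [← e2, ← i2]
      ring
    · rw [mul_pow]; exact mul_dvd_mul e3 i3
    · exact mul_dvd_mul e4 i4
    · have := mul_dvd_mul e5 i5
      rwa [mul_mul_mul_comm] at this
    · rw [mul_pow]; exact mul_dvd_mul e6 i6
    · have := mul_dvd_mul e7 i7
      rw [mul_mul_mul_comm, ← mul_pow, ← mul_pow] at this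
      exact this
    · exact mul_dvd_mul e8 i8
    · exact mul_dvd_mul e9 i9
    · intro q hq hqd
      rcases (Nat.Prime.dvd_mul hq).1 hqd with h | h
      · have := mul_dvd_mul (e10 q hq h) i8
        rwa [mul_assoc] at this
      · have := mul_dvd_mul e8 (i10 q hq h)
        rwa [← mul_assoc, mul_comm f q, mul_assoc] at this

/-- a prime between a proper divisor and its multiple -/
private theorem Sel_prime {M X : ℕ} (hX : X ≠ 0) (h : M ∣ X) (hne : M ≠ X) :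
    ∃ p, p.Prime ∧ M * p ∣ X := by
  obtain ⟨c, hc⟩ := h
  have hc1 : c ≠ 1 := by
    rintro rfl
    exact hne (by rw [hc, mul_one])
  obtain ⟨p, hp, hpc⟩ := Nat.exists_prime_and_dvd hc1
  exact ⟨p, hp, by rw [hc]; exact mul_dvd_mul_left _ hpc⟩

/-- a maximal divisor with a property -/
private theorem Sel_max {X : ℕ} (hX : X ≠ 0) (Q : ℕ → Prop) (M0 : ℕ) (h0 : M0 ∣ X) (hQ : Q M0) :
    ∃ M, M ∣ X ∧ Q M ∧ (M = X ∨ ∃ p, p.Prime ∧ M * p ∣ X ∧ ¬ Q (M * p)) := by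
  classical
  obtain ⟨M, hM, hmax⟩ := Finset.exists_max_image ((Nat.divisors X).filter Q) id
    ⟨M0, Finset.mem_filter.2 ⟨Nat.mem_divisors.2 ⟨h0, hX⟩, hQ⟩⟩
  rw [Finset.mem_filter, Nat.mem_divisors] at hM
  refine ⟨M, hM.1.1, hM.2, ?_⟩
  by_cases hne : M = X
  · exact Or.inl hne
  · obtain ⟨p, hp, hpd⟩ := Sel_prime hX hM.1.1 hne
    refine Or.inr ⟨p, hp, hpd, fun hQp => ?_⟩
    have h := hmax (M * p) (Finset.mem_filter.2 ⟨Nat.mem_divisors.2 ⟨hpd, hX⟩, hQp⟩)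
    have hMpos : 0 < M := Nat.pos_of_ne_zero (by
      rintro rfl
      exact hX (Nat.eq_zero_of_zero_dvd hM.1.1))
    have h2 := hp.two_le
    simp only [id] at h
    nlinarith

/-- SR6: choice of the modulus. -/
theorem select (s : ℕ) (hs : 1 ≤ s) (N P K H h : ℝ) (hN : 1 ≤ N) (hP : 1 ≤ P) (hK : 1 ≤ K)
    (hH : 1 ≤ H) (hh : 1 ≤ h) (hsN : (s : ℝ) ≤ h * N)
    (h1 : H ^ 2 * h ^ 2 * P * (radn s : ℝ) ^ 2 ≤ K ^ 3)
    (h2 : H ^ 2 * h ^ 2 * P ^ 2 * (radn s : ℝ) ≤ N * K ^ 3)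
    (h3 : H ^ 2 * h ^ 2 * P ^ 4 * (radn s : ℝ) ^ 3 ≤ N ^ 3 * K ^ 4) :
    ∃ M G : ℕ, 1 ≤ M ∧ M ^ 2 ∣ s ∧ G ∣ s ∧ G ∣ M ^ 3 ∧ (M : ℝ) ≤ K ∧
      H * P ^ 2 * (M : ℝ) ^ 3 ≤ G * K ^ 6 ∧ H * P ^ 2 * s ≤ N * G * K ^ 3 ∧
      H * P ^ 2 * (s : ℝ) ^ 2 ≤ N ^ 2 * M * G * K ^ 2 := by
  have hs0 : s ≠ 0 := by omega
  obtain ⟨d0, Ms, Mx, f, o, G, e1, e2, e3, e4, e5, e6, e7, e8, e9, e10⟩ := Sel_struct s hs0
  have hm1 : 1 ≤ radn s := Sel_radn_pos s
  have hpm : ∀ p : ℕ, p.Prime → p ∣ s → p ≤ radn s := fun p hp hps =>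
    Nat.le_of_dvd hm1 (Finset.dvd_prod_of_mem _ (Nat.mem_primeFactors.2 ⟨hp, hps, hs0⟩))
  have hMx0 : Mx ≠ 0 := by
    rintro rfl
    rw [zero_pow two_ne_zero, zero_mul] at e2
    omega
  have hd0 : d0 ≠ 0 := by
    rintro rfl
    rw [zero_pow three_ne_zero] at e3
    exact hs0 (Nat.eq_zero_of_zero_dvd e3)
  have hG0 : 0 < G := Nat.pos_of_ne_zero (by rintro rfl; rw [mul_zero] at e1; omega)
  have hf0 : 0 < f := Nat.pos_of_ne_zero (by rintro rfl; rw [zero_mul] at e1; omega)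
  have ho0 : 0 < o := Nat.pos_of_ne_zero (by rintro rfl; rw [mul_zero] at e2; omega)
  set m : ℝ := (radn s : ℝ) with hm
  have hm1R : 1 ≤ m := by rw [hm]; exact_mod_cast hm1
  have hsR : (1 : ℝ) ≤ s := by exact_mod_cast hs
  have hNK : 0 ≤ N := by linarith
  -- the sixth power of K
  have hK6 : H ^ 4 * h ^ 4 * P ^ 2 * m ^ 4 ≤ K ^ 6 := by
    calc H ^ 4 * h ^ 4 * P ^ 2 * m ^ 4 = (H ^ 2 * h ^ 2 * P * m ^ 2) ^ 2 := by ring
      _ ≤ (K ^ 3) ^ 2 := pow_le_pow_left₀ (by positivity) h1 2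
      _ = K ^ 6 := by ring
  have hH4 : H ≤ H ^ 4 := le_self_pow₀ hH (by norm_num)
  have hH2 : H ≤ H ^ 2 := le_self_pow₀ hH (by norm_num)
  have hh4 : h ≤ h ^ 4 := le_self_pow₀ hh (by norm_num)
  have hh2 : h ≤ h ^ 2 := le_self_pow₀ hh (by norm_num)
  have hh41 : 1 ≤ h ^ 4 := one_le_pow₀ hh
  have hh24 : h ^ 2 ≤ h ^ 4 := pow_le_pow_right₀ hh (by norm_num)
  have hm41 : 1 ≤ m ^ 4 := one_le_pow₀ hm1R
  have hHP : H * P ^ 2 * m ^ 2 ≤ K ^ 6 := by
    calc H * P ^ 2 * m ^ 2 ≤ H ^ 4 * P ^ 2 * m ^ 4 :=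
          mul_le_mul (mul_le_mul_of_nonneg_right hH4 (by positivity))
            (pow_le_pow_right₀ hm1R (by norm_num)) (by positivity) (by positivity)
      _ = H ^ 4 * 1 * P ^ 2 * m ^ 4 := by ring
      _ ≤ H ^ 4 * h ^ 4 * P ^ 2 * m ^ 4 := by gcongr
      _ ≤ K ^ 6 := hK6
  by_cases hcase : (Ms : ℝ) ≤ K
  · -- case 2
    have hgR : (1 : ℝ) ≤ G := by exact_mod_cast hG0
    have hfR : (1 : ℝ) ≤ f := by exact_mod_cast hf0
    have hoR : (1 : ℝ) ≤ o := by exact_mod_cast ho0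
    have hfm : (f : ℝ) ≤ m := by rw [hm]; exact_mod_cast Nat.le_of_dvd hm1 e8
    have hom : (o : ℝ) ≤ m := by rw [hm]; exact_mod_cast Nat.le_of_dvd hm1 e9
    have hsfg : (s : ℝ) = f * G := by exact_mod_cast e1
    have hMs : (Ms : ℝ) ^ 3 ≤ m ^ 2 * G := by
      rw [hm]
      exact_mod_cast Nat.le_of_dvd (by positivity) e7
    obtain ⟨M, hM, ⟨hMsM, hMK, hMi⟩, hmax⟩ := Sel_max hMx0
      (fun M : ℕ => Ms ∣ M ∧ (M : ℝ) ≤ K ∧ H * P ^ 2 * (M : ℝ) ^ 3 ≤ G * K ^ 6) Ms e4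
      ⟨dvd_rfl, hcase, by
        calc H * P ^ 2 * (Ms : ℝ) ^ 3 ≤ H * P ^ 2 * (m ^ 2 * G) := by gcongr
          _ = G * (H * P ^ 2 * m ^ 2) := by ring
          _ ≤ G * K ^ 6 := by gcongr⟩
    have hM0 : 0 < M := Nat.pos_of_ne_zero (by
      rintro rfl
      exact hMx0 (Nat.eq_zero_of_zero_dvd hM))
    have hMR : (1 : ℝ) ≤ M := by exact_mod_cast hM0
    have hii : H * P ^ 2 * s ≤ N * G * K ^ 3 := by
      calc H * P ^ 2 * s = H * P ^ 2 * f * G := by rw [hsfg]; ring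
        _ ≤ H ^ 2 * P ^ 2 * m * G := by gcongr
        _ = (H ^ 2 * 1 * P ^ 2 * m) * G := by ring
        _ ≤ (H ^ 2 * h ^ 2 * P ^ 2 * m) * G := by
          gcongr
          exact one_le_pow₀ hh
        _ ≤ (N * K ^ 3) * G := by gcongr
        _ = N * G * K ^ 3 := by ring
    have hE : H * P ^ 2 * s * f ≤ N ^ 2 * M * K ^ 2 := by
      rcases hmax with hmax | ⟨p, hp, hpd, hnot⟩
      · have hs2 : (M : ℝ) ^ 2 * o = s := by rw [hmax]; exact_mod_cast e2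
        rw [← pow_le_pow_iff_left₀ (by positivity) (by positivity) two_ne_zero]
        have hfo : (f : ℝ) ^ 2 * o ≤ m ^ 3 := by
          calc (f : ℝ) ^ 2 * o ≤ m ^ 2 * m := by gcongr
            _ = m ^ 3 := by ring
        have h4 : H ^ 2 * P ^ 4 * s * (f ^ 2 * o) ≤ N ^ 4 * K ^ 4 := by
          calc H ^ 2 * P ^ 4 * s * (f ^ 2 * o) ≤ H ^ 2 * P ^ 4 * (h * N) * m ^ 3 := by gcongr
            _ ≤ H ^ 2 * P ^ 4 * (h ^ 2 * N) * m ^ 3 := by gcongr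
            _ = N * (H ^ 2 * h ^ 2 * P ^ 4 * m ^ 3) := by ring
            _ ≤ N * (N ^ 3 * K ^ 4) := by gcongr
            _ = N ^ 4 * K ^ 4 := by ring
        refine le_of_mul_le_mul_right (a := (o : ℝ)) ?_ (by linarith)
        calc (H * P ^ 2 * s * f) ^ 2 * o = s * (H ^ 2 * P ^ 4 * s * (f ^ 2 * o)) := by ring
          _ ≤ s * (N ^ 4 * K ^ 4) := by gcongr
          _ = (M ^ 2 * o) * (N ^ 4 * K ^ 4) := by rw [hs2]
          _ = (N ^ 2 * M * K ^ 2) ^ 2 * o := by ring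
      · have hpMx : p ∣ Mx := (Dvd.intro_left _ rfl).trans hpd
        have hpf : (p : ℝ) * f ≤ m := by
          rw [hm]
          exact_mod_cast Nat.le_of_dvd hm1 (e10 p hp hpMx)
        have hpR : (1 : ℝ) ≤ p := by exact_mod_cast hp.one_lt.le
        by_cases hMp : ((M * p : ℕ) : ℝ) ≤ K
        · have hbig : (G : ℝ) * K ^ 6 < H * P ^ 2 * ((M * p : ℕ) : ℝ) ^ 3 := by
            by_contra hcon
            exact hnot ⟨hMsM.trans (Dvd.intro _ rfl), hMp, not_lt.1 hcon⟩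
          rw [Nat.cast_mul] at hbig
          rw [← pow_le_pow_iff_left₀ (by positivity) (by positivity) three_ne_zero]
          have h4 : H ^ 4 * P ^ 8 * s ^ 2 * (f ^ 4 * p ^ 3) ≤ N ^ 6 * K ^ 12 := by
            calc H ^ 4 * P ^ 8 * s ^ 2 * ((f : ℝ) ^ 4 * p ^ 3)
                ≤ H ^ 4 * P ^ 8 * (h * N) ^ 2 * ((f : ℝ) ^ 4 * p ^ 4) := by
                  gcongr
                  · norm_num
              _ = H ^ 4 * P ^ 8 * (h * N) ^ 2 * ((p : ℝ) * f) ^ 4 := by ring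
              _ ≤ H ^ 4 * P ^ 8 * (h * N) ^ 2 * m ^ 4 := by gcongr
              _ = N ^ 2 * (H ^ 4 * h ^ 2 * P ^ 8 * m ^ 4) := by ring
              _ ≤ N ^ 2 * (H ^ 8 * h ^ 8 * P ^ 8 * m ^ 4) := by
                  gcongr <;> first | assumption | norm_num
              _ = N ^ 2 * (H ^ 2 * h ^ 2 * P ^ 2 * m) ^ 4 := by ring
              _ ≤ N ^ 2 * (N * K ^ 3) ^ 4 := by gcongr
              _ = N ^ 6 * K ^ 12 := by ring
          have hc : 0 < H * P ^ 2 * (p : ℝ) ^ 3 := by positivity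
          refine le_of_mul_le_mul_right (a := H * P ^ 2 * (p : ℝ) ^ 3) ?_ hc
          calc (H * P ^ 2 * s * f) ^ 3 * (H * P ^ 2 * (p : ℝ) ^ 3)
              = (H ^ 4 * P ^ 8 * s ^ 2 * (f ^ 3 * p ^ 3)) * s := by ring
            _ = (H ^ 4 * P ^ 8 * s ^ 2 * (f ^ 4 * p ^ 3)) * G := by
                conv_lhs => rw [hsfg]
                rw [hsfg]
                ring
            _ ≤ (N ^ 6 * K ^ 12) * G := by gcongr
            _ = N ^ 6 * K ^ 6 * (G * K ^ 6) := by ring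
            _ ≤ N ^ 6 * K ^ 6 * (H * P ^ 2 * ((M : ℝ) * p) ^ 3) := by gcongr
            _ = (N ^ 2 * M * K ^ 2) ^ 3 * (H * P ^ 2 * (p : ℝ) ^ 3) := by ring
        · rw [Nat.cast_mul, not_le] at hMp
          refine le_of_mul_le_mul_right (a := (p : ℝ)) ?_ (by linarith)
          calc H * P ^ 2 * s * f * p = H * P ^ 2 * s * (p * f) := by ring
            _ ≤ H ^ 2 * P ^ 2 * (h * N) * m := by gcongr
            _ ≤ H ^ 2 * P ^ 2 * (h ^ 2 * N) * m := by gcongr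
            _ = N * (H ^ 2 * h ^ 2 * P ^ 2 * m) := by ring
            _ ≤ N * (N * K ^ 3) := by gcongr
            _ = N ^ 2 * K ^ 2 * K := by ring
            _ ≤ N ^ 2 * K ^ 2 * (M * p) := by gcongr
            _ = N ^ 2 * M * K ^ 2 * p := by ring
    refine ⟨M, G, hM0, ?_, ?_, ?_, hMK, hMi, hii, ?_⟩
    · exact (pow_dvd_pow_of_dvd hM 2).trans (Dvd.intro _ e2)
    · exact Dvd.intro_left _ e1.symm
    · exact e6.trans (pow_dvd_pow_of_dvd hMsM 3)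
    · calc H * P ^ 2 * (s : ℝ) ^ 2 = H * P ^ 2 * s * s := by ring
        _ = H * P ^ 2 * s * (f * G) := by rw [← hsfg]
        _ = (H * P ^ 2 * s * f) * G := by ring
        _ ≤ (N ^ 2 * M * K ^ 2) * G := by gcongr
        _ = N ^ 2 * M * G * K ^ 2 := by ring
  · -- case 1
    rw [not_le] at hcase
    have hex : ∃ M : ℕ, 0 < M ∧ M ∣ d0 ∧ (M : ℝ) ≤ K ∧ K ≤ M * m := by
      obtain ⟨M, hM, hMK, hmax⟩ := Sel_max hd0 (fun M : ℕ => (M : ℝ) ≤ K) 1 (one_dvd _)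
        (by simpa using hK)
      have hM0 : 0 < M := Nat.pos_of_ne_zero (by
        rintro rfl
        exact hd0 (Nat.eq_zero_of_zero_dvd hM))
      refine ⟨M, hM0, hM, hMK, ?_⟩
      rcases hmax with hmax | ⟨p, hp, hpd, hnot⟩
      · have : (Ms : ℝ) ≤ M * m := by
          rw [hmax, hm]
          exact_mod_cast Nat.le_of_dvd (Nat.mul_pos (Nat.pos_of_ne_zero hd0) hm1) e5
        linarith
      · rw [Nat.cast_mul, not_le] at hnot
        have hps : p ∣ s := ((Dvd.intro_left _ rfl).trans hpd).trans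
          ((dvd_pow_self _ three_ne_zero).trans e3)
        have : (p : ℝ) ≤ m := by rw [hm]; exact_mod_cast hpm p hp hps
        calc K ≤ M * p := hnot.le
          _ ≤ M * m := by gcongr
    obtain ⟨M, hM0, hMd, hMK, hKM⟩ := hex
    have hM3 : M ^ 3 ∣ s := (pow_dvd_pow_of_dvd hMd 3).trans e3
    have hMR : (1 : ℝ) ≤ M := by exact_mod_cast hM0
    have hm0 : 0 < m := by linarith
    refine ⟨M, M ^ 3, hM0, (pow_dvd_pow _ (by norm_num)).trans hM3, hM3, dvd_rfl, hMK, ?_, ?_, ?_⟩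
    · rw [Nat.cast_pow]
      calc H * P ^ 2 * (M : ℝ) ^ 3 = (M : ℝ) ^ 3 * (H * P ^ 2 * 1) := by ring
        _ ≤ (M : ℝ) ^ 3 * (H * P ^ 2 * m ^ 2) := by
            gcongr
            exact one_le_pow₀ hm1R
        _ ≤ (M : ℝ) ^ 3 * K ^ 6 := by gcongr
    · rw [Nat.cast_pow]
      refine le_of_mul_le_mul_right (a := m ^ 3) ?_ (by positivity)
      calc H * P ^ 2 * s * m ^ 3 ≤ H ^ 4 * P ^ 2 * (h ^ 4 * N) * m ^ 4 := by
            gcongr
            · calc (s : ℝ) ≤ h * N := hsN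
                _ ≤ h ^ 4 * N := by gcongr
            · norm_num
        _ = N * (H ^ 4 * h ^ 4 * P ^ 2 * m ^ 4) := by ring
        _ ≤ N * K ^ 6 := by gcongr
        _ = N * K ^ 3 * K ^ 3 := by ring
        _ ≤ N * K ^ 3 * (M * m) ^ 3 := by gcongr
        _ = N * (M : ℝ) ^ 3 * K ^ 3 * m ^ 3 := by ring
    · rw [Nat.cast_pow]
      refine le_of_mul_le_mul_right (a := m ^ 4) ?_ (by positivity)
      calc H * P ^ 2 * (s : ℝ) ^ 2 * m ^ 4 ≤ H ^ 4 * P ^ 2 * (h ^ 4 * N ^ 2) * m ^ 4 := by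
            gcongr
            calc (s : ℝ) ^ 2 ≤ (h * N) ^ 2 := pow_le_pow_left₀ (by linarith) hsN 2
              _ = h ^ 2 * N ^ 2 := by ring
              _ ≤ h ^ 4 * N ^ 2 := by gcongr
        _ = N ^ 2 * (H ^ 4 * h ^ 4 * P ^ 2 * m ^ 4) := by ring
        _ ≤ N ^ 2 * K ^ 6 := by gcongr
        _ = N ^ 2 * K ^ 2 * K ^ 4 := by ring
        _ ≤ N ^ 2 * K ^ 2 * (M * m) ^ 4 := by gcongr
        _ = N ^ 2 * M * (M : ℝ) ^ 3 * K ^ 2 * m ^ 4 := by ring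

end Pool.Agent.Helper1.SR
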