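import Mathlib
import Pool.Agent.Helper94.Abc.Det2
import Pool.Agent.Helper92.ABC.Defs

/-!
## SR2 DD_abs_le: same normalisation as helper94's pt_norm / DD_scaled / EE_bound (Det2.lean), but A/B of any sign.
W_i = w_i x_i, c = A/B, r_i = z_i/(w_i R) in [1,1+d], f_i = a/(A x_i w_i^3 R^3). Then W (R r) = z x, W c R^3 (r^3+f) = w y, W R r c R^3 (r^3+f) = z y.
DD = -(W1W2W3W4 c^2 R^8) EE(r,f) (DD_scaled), |EE| <= 24 d^6 + 144 F d^3 + 6 F^2 d^2 (EE_bound) with F := h^4 |a|/(|A| X1 W1^3 R^3) >= |f_i| (x_i >= X1/h, w_i >= W1/h).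
|W1..W4| c^2 R^8 <= (X1 W1)^4 c^2 R^8 = U0^2, U0 = X1^2 W1^2 |c| R^4 <= U and U0 F = h^4 |a| X1 R/(|B| W1) <= V.

-/

set_option autoImplicit false

namespace Pool.Agent.Helper1.SR

open Finset Pool.Agent.Helper94.Abc

open Pool.Agent.Helper92.ABC (radn full rc part rpart rootp prs Box wt num coord)

/-- normalisation of one point, the coefficients may have any sign -/
private lemma pt_norm' {x y z w A B a X1 W1 h R d : ℝ} (hx : 0 < x) (hz : 0 < z)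
    (hw : 0 < w) (hA : A ≠ 0) (hB : B ≠ 0) (hX : 0 < X1) (hW : 0 < W1) (hh : 1 ≤ h) (hR : 0 < R)
    (hx1 : X1 / h ≤ x) (hx2 : x ≤ X1) (hw1 : W1 / h ≤ w) (hw2 : w ≤ W1)
    (heq : B * y * w ^ 3 - A * x * z ^ 3 = a) (hR1 : R ≤ z / w) (hR2 : z / w ≤ R * (1 + d)) :
    ∃ W r f : ℝ, 0 ≤ W ∧ W = w * x ∧ W * (R * r) = z * x ∧
      W * ((A / B) * R ^ 3 * (r ^ 3 + f)) = w * y ∧
      W * (R * r) * ((A / B) * R ^ 3 * (r ^ 3 + f)) = z * y ∧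
      |f| ≤ h ^ 4 * |a| / (|A| * X1 * W1 ^ 3 * R ^ 3) ∧ (1 ≤ r ∧ r ≤ 1 + d) ∧ W ≤ X1 * W1 := by
  have hh0 : 0 < h := by linarith
  have hr : w * x * (R * (z / (w * R))) = z * x := by field_simp
  have hk : (A / B) * R ^ 3 * ((z / (w * R)) ^ 3 + a / (A * x * w ^ 3 * R ^ 3)) = y / x := by
    field_simp
    linarith
  refine ⟨w * x, z / (w * R), a / (A * x * w ^ 3 * R ^ 3), by positivity, rfl, hr, ?_, ?_, ?_,
    ⟨?_, ?_⟩, ?_⟩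
  · rw [hk]; field_simp
  · rw [hr, hk]; field_simp
  · have hA' : 0 < |A| := abs_pos.2 hA
    rw [abs_div, abs_mul, abs_mul, abs_mul, abs_of_pos hx, abs_of_pos (pow_pos hw 3),
      abs_of_pos (pow_pos hR 3)]
    rw [div_le_div_iff₀ (by positivity) (by positivity)]
    have e1 : X1 ≤ h * x := by
      rw [div_le_iff₀ hh0] at hx1; linarith
    have e2 : W1 ≤ h * w := by
      rw [div_le_iff₀ hh0] at hw1; linarith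
    have e3 : X1 * W1 ^ 3 ≤ (h * x) * (h * w) ^ 3 := by gcongr
    have e4 : |a| * (|A| * X1 * W1 ^ 3 * R ^ 3) = (|a| * |A| * R ^ 3) * (X1 * W1 ^ 3) := by ring
    have e5 : h ^ 4 * |a| * (|A| * x * w ^ 3 * R ^ 3) =
        (|a| * |A| * R ^ 3) * ((h * x) * (h * w) ^ 3) := by ring
    rw [e4, e5]
    exact mul_le_mul_of_nonneg_left e3 (by positivity)
  · rw [le_div_iff₀ (by positivity)]
    rw [le_div_iff₀ hw] at hR1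
    linarith
  · rw [div_le_iff₀ (by positivity)]
    rw [div_le_iff₀ hw] at hR2
    linarith
  · calc w * x ≤ W1 * X1 := by gcongr
      _ = X1 * W1 := by ring

/-- SR2: size of the determinant. -/
theorem DD_abs_le (A B a : ℤ) (x y z w : Fin 4 → ℤ) (X1 W1 h R d U V : ℝ)
    (hA : A ≠ 0) (hB : B ≠ 0) (hh : 1 ≤ h) (hR : 0 < R) (hd : 0 ≤ d) (hd1 : d ≤ 1)
    (hpos : ∀ i, 0 < x i ∧ 0 < y i ∧ 0 < z i ∧ 0 < w i)
    (hx : ∀ i, X1 / h ≤ x i ∧ (x i : ℝ) ≤ X1) (hw : ∀ i, W1 / h ≤ w i ∧ (w i : ℝ) ≤ W1)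
    (hR1 : ∀ i, R ≤ (z i : ℝ) / w i) (hR2 : ∀ i, (z i : ℝ) / w i ≤ R * (1 + d))
    (heq : ∀ i, B * y i * w i ^ 3 - A * x i * z i ^ 3 = a)
    (hU : W1 ^ 2 * X1 ^ 2 * (|(A : ℝ)| / |(B : ℝ)|) * R ^ 4 ≤ U)
    (hV : h ^ 4 * |(a : ℝ)| * X1 * R / (|(B : ℝ)| * W1) ≤ V) :
    |((DD (x 0) (y 0) (z 0) (w 0) (x 1) (y 1) (z 1) (w 1)
      (x 2) (y 2) (z 2) (w 2) (x 3) (y 3) (z 3) (w 3) : ℤ) : ℝ)| ≤
      24 * U ^ 2 * d ^ 6 + 144 * U * V * d ^ 3 + 6 * V ^ 2 * d ^ 2 := by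
  have cx : ∀ i, (0 : ℝ) < x i := fun i => by exact_mod_cast (hpos i).1
  have cz : ∀ i, (0 : ℝ) < z i := fun i => by exact_mod_cast (hpos i).2.2.1
  have cw : ∀ i, (0 : ℝ) < w i := fun i => by exact_mod_cast (hpos i).2.2.2
  have hX : 0 < X1 := lt_of_lt_of_le (cx 0) (hx 0).2
  have hW : 0 < W1 := lt_of_lt_of_le (cw 0) (hw 0).2
  have cA : (A : ℝ) ≠ 0 := by exact_mod_cast hA
  have cB : (B : ℝ) ≠ 0 := by exact_mod_cast hB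
  have hA' : 0 < |(A : ℝ)| := abs_pos.2 cA
  have hB' : 0 < |(B : ℝ)| := abs_pos.2 cB
  have cheq : ∀ i, (B : ℝ) * y i * (w i : ℝ) ^ 3 - A * x i * (z i : ℝ) ^ 3 = a := fun i => by
    exact_mod_cast heq i
  have key : ∀ i, ∃ W r f : ℝ, 0 ≤ W ∧ W = w i * x i ∧ W * (R * r) = z i * x i ∧
      W * (((A : ℝ) / B) * R ^ 3 * (r ^ 3 + f)) = w i * y i ∧
      W * (R * r) * (((A : ℝ) / B) * R ^ 3 * (r ^ 3 + f)) = z i * y i ∧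
      |f| ≤ h ^ 4 * |(a : ℝ)| / (|(A : ℝ)| * X1 * W1 ^ 3 * R ^ 3) ∧ (1 ≤ r ∧ r ≤ 1 + d) ∧
      W ≤ X1 * W1 := fun i =>
    pt_norm' (cx i) (cz i) (cw i) cA cB hX hW hh hR (hx i).1 (hx i).2 (hw i).1 (hw i).2
      (cheq i) (hR1 i) (hR2 i)
  obtain ⟨P1, r1, f1, p1, i1, j1, k1, l1, m1, n1, o1⟩ := key 0
  obtain ⟨P2, r2, f2, p2, i2, j2, k2, l2, m2, n2, o2⟩ := key 1
  obtain ⟨P3, r3, f3, p3, i3, j3, k3, l3, m3, n3, o3⟩ := key 2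
  obtain ⟨P4, r4, f4, p4, i4, j4, k4, l4, m4, n4, o4⟩ := key 3
  set c : ℝ := (A : ℝ) / B with hc
  set F : ℝ := h ^ 4 * |(a : ℝ)| / (|(A : ℝ)| * X1 * W1 ^ 3 * R ^ 3) with hF
  have hF0 : 0 ≤ F := by positivity
  have hscale := DD_scaled P1 P2 P3 P4 R c r1 r2 r3 r4 f1 f2 f3 f4
  rw [j1, j2, j3, j4, k1, k2, k3, k4] at hscale
  have l1' : (z 0 : ℝ) * (x 0 : ℝ) * (c * R ^ 3 * (r1 ^ 3 + f1)) = z 0 * y 0 := by
    rw [← j1]; exact l1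
  have l2' : (z 1 : ℝ) * (x 1 : ℝ) * (c * R ^ 3 * (r2 ^ 3 + f2)) = z 1 * y 1 := by
    rw [← j2]; exact l2
  have l3' : (z 2 : ℝ) * (x 2 : ℝ) * (c * R ^ 3 * (r3 ^ 3 + f3)) = z 2 * y 2 := by
    rw [← j3]; exact l3
  have l4' : (z 3 : ℝ) * (x 3 : ℝ) * (c * R ^ 3 * (r4 ^ 3 + f4)) = z 3 * y 3 := by
    rw [← j4]; exact l4
  rw [l1', l2', l3', l4'] at hscale
  have hE := EE_bound hd1 n1 n2 n3 n4 m1 m2 m3 m4
  set P : ℝ := P1 * P2 * P3 * P4 * (c ^ 2 * R ^ 8) with hP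
  have hP0 : 0 ≤ P := by positivity
  set U0 : ℝ := W1 ^ 2 * X1 ^ 2 * (|(A : ℝ)| / |(B : ℝ)|) * R ^ 4 with hU0
  have hU00 : 0 ≤ U0 := by positivity
  have habs : |c| = |(A : ℝ)| / |(B : ℝ)| := by rw [hc, abs_div]
  have hPU : P ≤ U0 ^ 2 := by
    have e0 : c ^ 2 = (|(A : ℝ)| / |(B : ℝ)|) ^ 2 := by rw [← habs, sq_abs]
    have hXW : 0 ≤ X1 * W1 := by positivity
    calc P ≤ (X1 * W1) * (X1 * W1) * (X1 * W1) * (X1 * W1) * (c ^ 2 * R ^ 8) := by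
          rw [hP]; gcongr
      _ = U0 ^ 2 := by rw [hU0, e0]; ring
  have hUF : U0 * F = h ^ 4 * |(a : ℝ)| * X1 * R / (|(B : ℝ)| * W1) := by
    rw [hU0, hF]
    field_simp
  have hV0 : U0 * F ≤ V := by rw [hUF]; exact hV
  have hUF0 : 0 ≤ U0 * F := by positivity
  have e1 : ((DD (x 0) (y 0) (z 0) (w 0) (x 1) (y 1) (z 1) (w 1)
      (x 2) (y 2) (z 2) (w 2) (x 3) (y 3) (z 3) (w 3) : ℤ) : ℝ) =
      -P * EE r1 r2 r3 r4 f1 f2 f3 f4 := by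
    rw [← hscale, i1, i2, i3, i4]
    unfold DD mm1 mm2 mm3 mm4 det3
    push_cast
    ring
  rw [e1, abs_mul, abs_neg, abs_of_nonneg hP0]
  have hUnn : 0 ≤ U := le_trans hU00 hU
  have hUnn' : 0 ≤ 144 * U := by linarith
  calc P * |EE r1 r2 r3 r4 f1 f2 f3 f4|
      ≤ U0 ^ 2 * (24 * d ^ 6 + 144 * F * d ^ 3 + 6 * F ^ 2 * d ^ 2) :=
        mul_le_mul hPU hE (abs_nonneg _) (sq_nonneg _)
    _ = 24 * U0 ^ 2 * d ^ 6 + 144 * U0 * (U0 * F) * d ^ 3 + 6 * (U0 * F) ^ 2 * d ^ 2 := by ring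
    _ ≤ 24 * U ^ 2 * d ^ 6 + 144 * U * V * d ^ 3 + 6 * V ^ 2 * d ^ 2 := by gcongr

end Pool.Agent.Helper1.SR
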