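import Mathlib
import Pool.Agent.Helper94.Abc.Det2
import Pool.Agent.Helper92.ABC.Defs

/-!
## SR1 DD_dvd: M^2 | s, G | s, G | M^3, z_i = t0 w_i mod M  =>  M^3 G | DD
k0 := integer with s | B k0 - A t0^3 (B prime to s); e_i := a - x_i w_i^3 (B k0 - A t0^3), s | e_i.
c1 = w x, c2 = x (z - t0 w), c3 = B w (y - k0 x) - 3 A t0^2 x (z - t0 w), c4 = B (z - t0 w)(y - k0 x) - t0 c3.
Identities (use the equation): w^2 c3 = A x (z-t0 w)^2 (z+2 t0 w) + e ; w^3 c4 = A x (z-t0 w)^3 (z+t0 w) + e (z - 2 t0 w).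
Hence M | c2, M^2 | c3 (M^2|s|e, w prime to s), G | c4 (G|M^3, G|s). The rows (c1,c2,c3,c4) are the rows (wx,zx,wy,zy) times a matrix of determinant +-B^2,
so B^2 DD = +-det(c1,c2,c3,c4), divisible by M * M^2 * G (each term of the expansion); B prime to s, every prime of M^3 G divides s, so M^3 G | DD
(IsCoprime (B^2) (M^3 G): M^2 | s gives IsCoprime B M; G | s). Tip: prove the identity with the 4x4 det written by cofactors of det3, or Matrix.det_mul; or first write c2 = M h, c3 = M^2 u, c4 = G v and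
prove by ring-type argument B^2 * DD = M^3*G*(det of (c1,h,u,v)) using multilinearity.

-/

set_option autoImplicit false

namespace Pool.Agent.Helper1.SR

open Finset Pool.Agent.Helper94.Abc

open Pool.Agent.Helper92.ABC (radn full rc part rpart rootp prs Box wt num coord)

/-- the determinant with the given columns (up to the sign convention of `DD`) -/
private def dF (p q r s : Fin 4 → ℤ) : ℤ :=
  det3 (q 0) (r 0) (s 0) (q 1) (r 1) (s 1) (q 2) (r 2) (s 2) * p 3 +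
  -det3 (p 0) (r 0) (s 0) (p 1) (r 1) (s 1) (p 2) (r 2) (s 2) * q 3 +
  det3 (p 0) (q 0) (s 0) (p 1) (q 1) (s 1) (p 2) (q 2) (s 2) * r 3 +
  -det3 (p 0) (q 0) (r 0) (p 1) (q 1) (r 1) (p 2) (q 2) (r 2) * s 3

private lemma dF_mul (p q r s : Fin 4 → ℤ) (b l al be ga de ep : ℤ) :
    dF p (fun i => q i + l * p i) (fun i => b * r i + al * p i + be * q i)
      (fun i => b * s i + ga * p i + de * q i + ep * r i) = b ^ 2 * dF p q r s := by
  simp only [dF, det3]
  ring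

private lemma dF_smul (p q r s : Fin 4 → ℤ) (k l m : ℤ) :
    dF p (fun i => k * q i) (fun i => l * r i) (fun i => m * s i) = k * l * m * dF p q r s := by
  simp only [dF, det3]
  ring

/-- SR1: divisibility of the determinant. -/
theorem DD_dvd (A B a s M G t0 : ℤ) (x y z w : Fin 4 → ℤ)
    (hs : s ∣ a) (hM : M ^ 2 ∣ s) (hG1 : G ∣ s) (hG3 : G ∣ M ^ 3)
    (hB : IsCoprime B s) (hw : ∀ i, IsCoprime (w i) s) (hz : ∀ i, M ∣ z i - t0 * w i)
    (heq : ∀ i, B * y i * w i ^ 3 - A * x i * z i ^ 3 = a) :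
    M ^ 3 * G ∣ DD (x 0) (y 0) (z 0) (w 0) (x 1) (y 1) (z 1) (w 1)
      (x 2) (y 2) (z 2) (w 2) (x 3) (y 3) (z 3) (w 3) := by
  obtain ⟨u₀, v₀, huv⟩ := hB
  obtain ⟨k0, hk0⟩ : ∃ k0 : ℤ, s ∣ B * k0 - A * t0 ^ 3 :=
    ⟨u₀ * (A * t0 ^ 3), -(A * t0 ^ 3) * v₀, by linear_combination (A * t0 ^ 3) * huv⟩
  -- the new columns
  set c3 : Fin 4 → ℤ := fun i => B * w i * (y i - k0 * x i) - 3 * A * t0 ^ 2 * x i * (z i - t0 * w i)
    with hc3
  set c4 : Fin 4 → ℤ := fun i => B * (z i - t0 * w i) * (y i - k0 * x i) - t0 * c3 i with hc4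
  have hse : ∀ i, s ∣ a - x i * w i ^ 3 * (B * k0 - A * t0 ^ 3) := fun i =>
    dvd_sub hs (Dvd.dvd.mul_left hk0 _)
  have hM2 : ∀ i, M ^ 2 ∣ (z i - t0 * w i) ^ 2 := fun i => pow_dvd_pow_of_dvd (hz i) 2
  have hM3 : ∀ i, M ^ 3 ∣ (z i - t0 * w i) ^ 3 := fun i => pow_dvd_pow_of_dvd (hz i) 3
  have h2 : ∀ i, M ∣ x i * (z i - t0 * w i) := fun i => Dvd.dvd.mul_left (hz i) _
  have h3 : ∀ i, M ^ 2 ∣ c3 i := by
    intro i
    have e1 : w i ^ 2 * c3 i = A * x i * (z i - t0 * w i) ^ 2 * (z i + 2 * t0 * w i) +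
        (a - x i * w i ^ 3 * (B * k0 - A * t0 ^ 3)) := by
      rw [hc3]
      linear_combination heq i
    have e2 : M ^ 2 ∣ w i ^ 2 * c3 i := by
      rw [e1]
      refine dvd_add ?_ (hM.trans (hse i))
      rw [mul_assoc, mul_left_comm]
      exact Dvd.dvd.mul_right (hM2 i) _
    exact IsCoprime.dvd_of_dvd_mul_left
      (IsCoprime.pow_right (IsCoprime.of_isCoprime_of_dvd_right (hw i) hM).symm) e2
  have h4 : ∀ i, G ∣ c4 i := by
    intro i
    have e1 : w i ^ 3 * c4 i = A * x i * (z i + t0 * w i) * (z i - t0 * w i) ^ 3 +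
        (a - x i * w i ^ 3 * (B * k0 - A * t0 ^ 3)) * (z i - 2 * t0 * w i) := by
      rw [hc4, hc3]
      linear_combination (z i - 2 * t0 * w i) * heq i
    have e2 : G ∣ w i ^ 3 * c4 i := by
      rw [e1]
      refine dvd_add (Dvd.dvd.mul_left (hG3.trans (hM3 i)) _) (Dvd.dvd.mul_right (hG1.trans (hse i)) _)
    exact IsCoprime.dvd_of_dvd_mul_left
      (IsCoprime.pow_right (IsCoprime.of_isCoprime_of_dvd_right (hw i) hG1).symm) e2
  choose q2 hq2 using h2
  choose q3 hq3 using h3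
  choose q4 hq4 using h4
  -- the determinant identities
  have e1 : dF (fun i => w i * x i) (fun i => z i * x i) (fun i => w i * y i) (fun i => z i * y i) =
      DD (x 0) (y 0) (z 0) (w 0) (x 1) (y 1) (z 1) (w 1)
      (x 2) (y 2) (z 2) (w 2) (x 3) (y 3) (z 3) (w 3) := by
    unfold DD mm1 mm2 mm3 mm4 dF
    ring
  have e2 := dF_mul (fun i => w i * x i) (fun i => z i * x i) (fun i => w i * y i)
    (fun i => z i * y i) B (-t0) (-B * k0 + 3 * A * t0 ^ 3) (-3 * A * t0 ^ 2)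
    (B * k0 * t0 - t0 * (-B * k0 + 3 * A * t0 ^ 3)) (-B * k0 - t0 * (-3 * A * t0 ^ 2))
    (-B * t0 - t0 * B)
  rw [e1] at e2
  have f2 : (fun i => z i * x i + -t0 * (w i * x i)) = fun i => M * q2 i := by
    funext i
    rw [← hq2 i]; ring
  have f3 : (fun i => B * (w i * y i) + (-B * k0 + 3 * A * t0 ^ 3) * (w i * x i) +
      (-3 * A * t0 ^ 2) * (z i * x i)) = fun i => M ^ 2 * q3 i := by
    funext i
    rw [← hq3 i, hc3]; ring
  have f4 : (fun i => B * (z i * y i) + (B * k0 * t0 - t0 * (-B * k0 + 3 * A * t0 ^ 3)) * (w i * x i) +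
      (-B * k0 - t0 * (-3 * A * t0 ^ 2)) * (z i * x i) + (-B * t0 - t0 * B) * (w i * y i)) =
      fun i => G * q4 i := by
    funext i
    rw [← hq4 i, hc4, hc3]; ring
  rw [f2, f3, f4, dF_smul] at e2
  have e3 : M ^ 3 * G ∣ B ^ 2 * DD (x 0) (y 0) (z 0) (w 0) (x 1) (y 1) (z 1) (w 1)
      (x 2) (y 2) (z 2) (w 2) (x 3) (y 3) (z 3) (w 3) := by
    rw [← e2]
    exact ⟨dF (fun i => w i * x i) q2 q3 q4, by ring⟩
  -- `B` is prime to `M ^ 3 G`
  have hBs : IsCoprime B s := ⟨u₀, v₀, huv⟩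
  have hBM : IsCoprime B M :=
    IsCoprime.of_isCoprime_of_dvd_right hBs ((dvd_pow_self M (by norm_num)).trans hM)
  have hBG : IsCoprime B G := IsCoprime.of_isCoprime_of_dvd_right hBs hG1
  have hcop : IsCoprime (M ^ 3 * G) (B ^ 2) :=
    (IsCoprime.mul_right (hBM.pow_right) hBG).symm.pow_right
  exact hcop.dvd_of_dvd_mul_left e3

end Pool.Agent.Helper1.SR
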