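import Mathlib
import Pool.Agent.Helper94.Abc.Det2
import Pool.Agent.Helper92.ABC.Defs
import Pool.Agent.Helper1.SR.St.Dvd
import Pool.Agent.Helper1.SR.St.Abs

/-!
SR8a. Apply DD_dvd with s := |a| (as an integer, (a.natAbs : Z)) : M^3 G | DD.  Apply DD_abs_le with d := M/K,
U := h^5 P, V := h^5 |a| P / N, P := X1 Y1 Z1 W1:
U: W1^2 X1^2 (|A|/|B|) R^4 <= h^4 w^2 x^2 (|A|/|B|) z^4/w^4 = h^4 (|A| x z^3) x z/(|B| w^2) <= h^5 |B| y w^3 x z/(|B| w^2) = h^5 x y z w <= h^5 P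
 (W1 <= h w, X1 <= h x, R <= z/w for the point number 0).
V: h^4 |a| X1 R/(|B| W1) <= h^5 |a| x z/(|B| w^2) = h^5 |a| x y z w/(|B| y w^3) <= h^5 |a| P/N (w <= W1).
Then |DD| <= 24 h^10 P^2 M^6/K^6 + 144 h^10 P^2 (|a|/N) M^3/K^3 + 6 h^10 P^2 (|a|/N)^2 M^2/K^2
 <= (1/24 + 1/4 + 1/96) M^3 G < M^3 G by (hi), (hii), (hiii) (multiply (hi) by M^3, (hii) by M^3, (hiii) by M^2, and divide by K^6, N K^3, N^2 K^2);
G > 0 since G | |a| and a is not 0.  An integer divisible by M^3 G and smaller in absolute value is 0.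
-/

set_option autoImplicit false

namespace Pool.Agent.Helper1.SR

open Finset Pool.Agent.Helper94.Abc

open Pool.Agent.Helper92.ABC (radn full rc part rpart rootp prs Box wt num coord)

private theorem zero_U (aA aB x y z w X1 W1 R h P : ℝ) (haA : 0 ≤ aA) (haB : 0 < aB)
    (hx : 0 < x) (hy : 0 < y) (hz : 0 < z) (hw : 0 < w) (hh : 0 < h) (hR : 0 < R)
    (hX0 : 0 ≤ X1) (hW0 : 0 ≤ W1)
    (hX : X1 ≤ h * x) (hW : W1 ≤ h * w) (hRz : R ≤ z / w)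
    (hab : aA * x * z ^ 3 ≤ h * (aB * y * w ^ 3)) (hP : x * y * z * w ≤ P) :
    W1 ^ 2 * X1 ^ 2 * (aA / aB) * R ^ 4 ≤ h ^ 5 * P := by
  have hq : aA / aB ≤ h * y * w ^ 3 / (x * z ^ 3) := by
    rw [div_le_div_iff₀ haB (by positivity)]
    calc aA * (x * z ^ 3) = aA * x * z ^ 3 := by ring
      _ ≤ h * (aB * y * w ^ 3) := hab
      _ = h * y * w ^ 3 * aB := by ring
  have hq0 : 0 ≤ aA / aB := div_nonneg haA haB.le
  have h1 : W1 ^ 2 ≤ (h * w) ^ 2 := pow_le_pow_left₀ hW0 hW 2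
  have h2 : X1 ^ 2 ≤ (h * x) ^ 2 := pow_le_pow_left₀ hX0 hX 2
  have h3 : R ^ 4 ≤ (z / w) ^ 4 := pow_le_pow_left₀ hR.le hRz 4
  calc W1 ^ 2 * X1 ^ 2 * (aA / aB) * R ^ 4
      ≤ (h * w) ^ 2 * (h * x) ^ 2 * (h * y * w ^ 3 / (x * z ^ 3)) * (z / w) ^ 4 := by
        apply mul_le_mul _ h3 (by positivity) (by positivity)
        apply mul_le_mul _ hq hq0 (by positivity)
        exact mul_le_mul h1 h2 (by positivity) (by positivity)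
    _ = h ^ 5 * (x * y * z * w) := by
        field_simp
    _ ≤ h ^ 5 * P := mul_le_mul_of_nonneg_left hP (by positivity)

private theorem zero_V (aB aa x y z w X1 W1 R h P N : ℝ) (haB : 0 < aB) (haa : 0 ≤ aa)
    (hx : 0 < x) (hy : 0 < y) (hz : 0 < z) (hw : 0 < w) (hh : 0 < h) (hR : 0 < R)
    (hX0 : 0 ≤ X1) (hN : 0 < N)
    (hX : X1 ≤ h * x) (hW : w ≤ W1) (hRz : R ≤ z / w)
    (hNl : N ≤ aB * y * w ^ 3) (hP : x * y * z * w ≤ P) :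
    h ^ 4 * aa * X1 * R / (aB * W1) ≤ h ^ 5 * aa * P / N := by
  have hW0 : 0 < W1 := lt_of_lt_of_le hw hW
  have hPn : 0 < P := lt_of_lt_of_le (by positivity) hP
  calc h ^ 4 * aa * X1 * R / (aB * W1)
      ≤ h ^ 4 * aa * (h * x) * (z / w) / (aB * w) := by
        apply div_le_div₀ (by positivity) _ (by positivity)
          (mul_le_mul_of_nonneg_left hW haB.le)
        apply mul_le_mul _ hRz hR.le (by positivity)
        exact mul_le_mul_of_nonneg_left hX (by positivity)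
    _ = h ^ 5 * aa * (x * y * z * w) / (aB * y * w ^ 3) := by
        field_simp
    _ ≤ h ^ 5 * aa * P / N := by
        apply div_le_div₀ (by positivity) _ hN hNl
        exact mul_le_mul_of_nonneg_left hP (by positivity)

private theorem zero_fin (H P M G K N aa d U V : ℝ) (hM : 0 < M) (hG : 0 < G) (hK : 0 < K)
    (hN : 0 < N) (hd : d = M / K) (hUU : U ^ 2 = H * P ^ 2) (hUV : U * V = H * P ^ 2 * aa / N)
    (hVV : V ^ 2 = H * P ^ 2 * aa ^ 2 / N ^ 2)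
    (hi : 576 * H * P ^ 2 * M ^ 3 ≤ G * K ^ 6)
    (hii : 576 * H * P ^ 2 * aa ≤ N * G * K ^ 3)
    (hiii : 576 * H * P ^ 2 * aa ^ 2 ≤ N ^ 2 * M * G * K ^ 2) :
    24 * U ^ 2 * d ^ 6 + 144 * U * V * d ^ 3 + 6 * V ^ 2 * d ^ 2 < M ^ 3 * G := by
  have e1 : 24 * U ^ 2 * d ^ 6 ≤ M ^ 3 * G / 24 := by
    rw [hUU, hd, div_pow]
    have h : 24 * (H * P ^ 2) * (M ^ 6 / K ^ 6) = (576 * H * P ^ 2 * M ^ 3) * (M ^ 3 / (24 * K ^ 6)) := by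
      field_simp
      ring
    rw [h]
    calc (576 * H * P ^ 2 * M ^ 3) * (M ^ 3 / (24 * K ^ 6))
        ≤ (G * K ^ 6) * (M ^ 3 / (24 * K ^ 6)) := mul_le_mul_of_nonneg_right hi (by positivity)
      _ = M ^ 3 * G / 24 := by field_simp
  have e2 : 144 * U * V * d ^ 3 ≤ M ^ 3 * G / 4 := by
    have : 144 * U * V * d ^ 3 = 144 * (U * V) * d ^ 3 := by ring
    rw [this, hUV, hd, div_pow]
    have h : 144 * (H * P ^ 2 * aa / N) * (M ^ 3 / K ^ 3) =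
        (576 * H * P ^ 2 * aa) * (M ^ 3 / (4 * N * K ^ 3)) := by
      field_simp
      ring
    rw [h]
    calc (576 * H * P ^ 2 * aa) * (M ^ 3 / (4 * N * K ^ 3))
        ≤ (N * G * K ^ 3) * (M ^ 3 / (4 * N * K ^ 3)) :=
          mul_le_mul_of_nonneg_right hii (by positivity)
      _ = M ^ 3 * G / 4 := by field_simp
  have e3 : 6 * V ^ 2 * d ^ 2 ≤ M ^ 3 * G / 96 := by
    rw [hVV, hd, div_pow]
    have h : 6 * (H * P ^ 2 * aa ^ 2 / N ^ 2) * (M ^ 2 / K ^ 2) =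
        (576 * H * P ^ 2 * aa ^ 2) * (M ^ 2 / (96 * N ^ 2 * K ^ 2)) := by
      field_simp
      ring
    rw [h]
    calc (576 * H * P ^ 2 * aa ^ 2) * (M ^ 2 / (96 * N ^ 2 * K ^ 2))
        ≤ (N ^ 2 * M * G * K ^ 2) * (M ^ 2 / (96 * N ^ 2 * K ^ 2)) :=
          mul_le_mul_of_nonneg_right hiii (by positivity)
      _ = M ^ 3 * G / 96 := by field_simp
  have hpos : 0 < M ^ 3 * G := by positivity
  linarith

/-- SR8a: the determinant of four points of a cluster vanishes. -/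
theorem DD_zero (A B a : ℤ) (x y z w : Fin 4 → ℤ) (X1 Y1 Z1 W1 h R N K : ℝ) (M G : ℕ) (t0 : ℤ)
    (hA : A ≠ 0) (hB : B ≠ 0) (ha : a ≠ 0) (hh : 1 ≤ h) (hR : 0 < R) (hN : 1 ≤ N) (hK : 1 ≤ K)
    (hM1 : 1 ≤ M) (hMK : (M : ℝ) ≤ K) (hM2 : M ^ 2 ∣ a.natAbs) (hG : G ∣ a.natAbs)
    (hG3 : G ∣ M ^ 3)
    (hi : 576 * h ^ 10 * (X1 * Y1 * Z1 * W1) ^ 2 * (M : ℝ) ^ 3 ≤ G * K ^ 6)
    (hii : 576 * h ^ 10 * (X1 * Y1 * Z1 * W1) ^ 2 * (a.natAbs : ℝ) ≤ N * G * K ^ 3)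
    (hiii : 576 * h ^ 10 * (X1 * Y1 * Z1 * W1) ^ 2 * (a.natAbs : ℝ) ^ 2 ≤ N ^ 2 * M * G * K ^ 2)
    (hpos : ∀ i, 0 < x i ∧ 0 < y i ∧ 0 < z i ∧ 0 < w i)
    (hx : ∀ i, X1 / h ≤ x i ∧ (x i : ℝ) ≤ X1) (hy : ∀ i, (y i : ℝ) ≤ Y1)
    (hz : ∀ i, (z i : ℝ) ≤ Z1) (hw : ∀ i, W1 / h ≤ w i ∧ (w i : ℝ) ≤ W1)
    (hR1 : ∀ i, R ≤ (z i : ℝ) / w i) (hR2 : ∀ i, (z i : ℝ) / w i ≤ R * (1 + M / K))
    (heq : ∀ i, B * y i * w i ^ 3 - A * x i * z i ^ 3 = a)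
    (hNl : ∀ i, N ≤ |(B : ℝ)| * y i * (w i : ℝ) ^ 3)
    (hNu : ∀ i, |(A : ℝ)| * x i * (z i : ℝ) ^ 3 ≤ h * (|(B : ℝ)| * y i * (w i : ℝ) ^ 3))
    (hcB : IsCoprime B a) (hcw : ∀ i, IsCoprime (w i) a) (hcl : ∀ i, (M : ℤ) ∣ z i - t0 * w i) :
    DD (x 0) (y 0) (z 0) (w 0) (x 1) (y 1) (z 1) (w 1)
      (x 2) (y 2) (z 2) (w 2) (x 3) (y 3) (z 3) (w 3) = 0 := by
  have hM0 : (0 : ℝ) < M := by exact_mod_cast hM1
  have hK0 : (0 : ℝ) < K := lt_of_lt_of_le zero_lt_one hK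
  have hN0 : (0 : ℝ) < N := lt_of_lt_of_le zero_lt_one hN
  have hh0 : (0 : ℝ) < h := lt_of_lt_of_le zero_lt_one hh
  have hG0 : 0 < G := by
    rcases Nat.eq_zero_or_pos G with h0 | h0
    · exfalso
      rw [h0, Nat.zero_dvd] at hG
      exact ha (Int.natAbs_eq_zero.mp hG)
    · exact h0
  have hG0r : (0 : ℝ) < G := by exact_mod_cast hG0
  have hsa : (a.natAbs : ℤ) ∣ a := Int.natAbs_dvd.mpr dvd_rfl
  have hdvd := DD_dvd A B a (a.natAbs : ℤ) (M : ℤ) (G : ℤ) t0 x y z w hsa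
    (by exact_mod_cast hM2) (by exact_mod_cast hG) (by exact_mod_cast hG3)
    (IsCoprime.of_isCoprime_of_dvd_right hcB hsa)
    (fun i => IsCoprime.of_isCoprime_of_dvd_right (hcw i) hsa) hcl heq
  have haa : |(a : ℝ)| = (a.natAbs : ℝ) := by
    rw [← Int.cast_abs, Int.abs_eq_natAbs, Int.cast_natCast]
  have hB0 : (0 : ℝ) < |(B : ℝ)| := abs_pos.mpr (by exact_mod_cast hB)
  have hA0 : (0 : ℝ) ≤ |(A : ℝ)| := abs_nonneg _
  have hx0 : (0 : ℝ) < x 0 := by exact_mod_cast (hpos 0).1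
  have hy0 : (0 : ℝ) < y 0 := by exact_mod_cast (hpos 0).2.1
  have hz0 : (0 : ℝ) < z 0 := by exact_mod_cast (hpos 0).2.2.1
  have hw0 : (0 : ℝ) < w 0 := by exact_mod_cast (hpos 0).2.2.2
  have hX0 : (0 : ℝ) ≤ X1 := hx0.le.trans (hx 0).2
  have hY0 : (0 : ℝ) ≤ Y1 := hy0.le.trans (hy 0)
  have hZ0 : (0 : ℝ) ≤ Z1 := hz0.le.trans (hz 0)
  have hW0 : (0 : ℝ) ≤ W1 := hw0.le.trans (hw 0).2
  have hXx : X1 ≤ h * x 0 := by
    have := (hx 0).1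
    rwa [div_le_iff₀ hh0, mul_comm] at this
  have hWw : W1 ≤ h * w 0 := by
    have := (hw 0).1
    rwa [div_le_iff₀ hh0, mul_comm] at this
  have hP : (x 0 : ℝ) * y 0 * z 0 * w 0 ≤ X1 * Y1 * Z1 * W1 := by
    apply mul_le_mul _ (hw 0).2 hw0.le (by positivity)
    apply mul_le_mul _ (hz 0) hz0.le (by positivity)
    exact mul_le_mul (hx 0).2 (hy 0) hy0.le hX0
  have hU := zero_U |(A : ℝ)| |(B : ℝ)| (x 0) (y 0) (z 0) (w 0) X1 W1 R h (X1 * Y1 * Z1 * W1)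
    hA0 hB0 hx0 hy0 hz0 hw0 hh0 hR hX0 hW0 hXx hWw (hR1 0) (hNu 0) hP
  have hV := zero_V |(B : ℝ)| |(a : ℝ)| (x 0) (y 0) (z 0) (w 0) X1 W1 R h (X1 * Y1 * Z1 * W1) N
    hB0 (abs_nonneg _) hx0 hy0 hz0 hw0 hh0 hR hX0 hN0 hXx (hw 0).2 (hR1 0) (hNl 0) hP
  have hd1 : (M : ℝ) / K ≤ 1 := by
    rw [div_le_one hK0]
    exact hMK
  have habs := DD_abs_le A B a x y z w X1 W1 h R ((M : ℝ) / K) (h ^ 5 * (X1 * Y1 * Z1 * W1))
    (h ^ 5 * |(a : ℝ)| * (X1 * Y1 * Z1 * W1) / N) hA hB hh hR (by positivity) hd1 hpos hx hw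
    hR1 hR2 heq hU hV
  have hlt := zero_fin (h ^ 10) (X1 * Y1 * Z1 * W1) (M : ℝ) (G : ℝ) K N (a.natAbs : ℝ)
    ((M : ℝ) / K) (h ^ 5 * (X1 * Y1 * Z1 * W1)) (h ^ 5 * |(a : ℝ)| * (X1 * Y1 * Z1 * W1) / N)
    hM0 hG0r hK0 hN0 rfl (by ring) (by rw [haa]; field_simp) (by rw [haa]; field_simp)
    hi hii hiii
  have hfin := lt_of_le_of_lt habs hlt
  apply Int.eq_zero_of_abs_lt_dvd hdvd
  have : ((|DD (x 0) (y 0) (z 0) (w 0) (x 1) (y 1) (z 1) (w 1)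
      (x 2) (y 2) (z 2) (w 2) (x 3) (y 3) (z 3) (w 3)| : ℤ) : ℝ) < (((M : ℤ) ^ 3 * (G : ℤ) : ℤ) : ℝ) := by
    push_cast
    exact hfin
  exact_mod_cast this

end Pool.Agent.Helper1.SR
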