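import Mathlib
import Pool.Agent.Helper94.Abc.Det2
import Pool.Agent.Helper92.ABC.Defs
import Pool.Agent.Helper1.SR.St.Sel
import Pool.Agent.Helper1.SR.St.Clu
import Pool.Agent.Helper1.SR.St.Zero
import Pool.Agent.Helper1.SR.St.Mu

/-!
## SR8 K_fiber
H = 576 h^10 (H^2 h^2 = 331776 h^22), P = X1Y1Z1W1, s = |a|; select gives M, G. d = M/K <= 1. Clusters: t0 = class of z/w mod M (M classes; w prime to a hence to M) and n = floor(log(z/w)/(d/2)), R = exp(n d/2), exp(d/2) <= 1+d.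
 z/w in [Z1/(h W1), h Z1/W1]: number of n <= 2 + 4 log h/d. Number of clusters <= M (2 + 4 log h/d) <= (2+4 log h) K <= 4 h K.
 In a cluster: U = W1^2X1^2(|A|/|B|)R^4 <= h^5 P (use a point of the cluster: W1 <= h w, X1 <= h x, R <= z/w, |A| x z^3 <= h |B| y w^3, xyzw <= P); V = h^4|a|X1R/(|B|W1) <= h^5 |a| P/N.
 So |DD| <= 24 h^10 P^2 M^6/K^6 + 144 h^10 P^2 (s/N) M^3/K^3 + 6 h^10 P^2 (s/N)^2 M^2/K^2 <= (1/24+1/4+1/96) M^3 G < M^3 G, so DD = 0 by SR1.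
 Y = 2 h^2 Z1 W1 (R W1^2 <= h^2 z w; Z1^2/R <= 2 Z1^2 w/z <= 2 h Z1 W1), Y d/M = 2h^2 Z1W1/K. mu = 1 + h? X1 Y1/N: points with the same (z,w): B w^3 (y-y') = A z^3 (x-x'), B w^3 | x - x' , |B| w^3 >= N/Y1, so mu = 1 + X1 Y1/N.
 dmax <= C V^eps (number of divisors of D, |D| <= 72 V^12). Total <= 4hK (2 mu + (6+8dmax)(1+9h sqrt(Z1W1/K))).

-/

set_option autoImplicit false

namespace Pool.Agent.Helper1.SR

open Finset Pool.Agent.Helper94.Abc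

open Pool.Agent.Helper92.ABC (radn full rc part rpart rootp prs Box wt num coord)

/-- the conditions on the points of the fibre -/
private def FCond (A B a : ℤ) (V : ℕ) (h X1 Y1 Z1 W1 N : ℝ) (P : ℕ × ℕ × ℕ × ℕ) : Prop :=
  (1 ≤ P.1 ∧ P.1 ≤ V ∧ X1 / h ≤ (P.1 : ℝ) ∧ (P.1 : ℝ) ≤ X1) ∧
        (1 ≤ P.2.1 ∧ P.2.1 ≤ V ∧ Y1 / h ≤ (P.2.1 : ℝ) ∧ (P.2.1 : ℝ) ≤ Y1) ∧
        (1 ≤ P.2.2.1 ∧ P.2.2.1 ≤ V ∧ Z1 / h ≤ (P.2.2.1 : ℝ) ∧ (P.2.2.1 : ℝ) ≤ Z1) ∧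
        (1 ≤ P.2.2.2 ∧ P.2.2.2 ≤ V ∧ W1 / h ≤ (P.2.2.2 : ℝ) ∧ (P.2.2.2 : ℝ) ≤ W1) ∧
        B * P.2.1 * (P.2.2.2 : ℤ) ^ 3 - A * P.1 * (P.2.2.1 : ℤ) ^ 3 = a ∧
        N ≤ |(B : ℝ)| * P.2.1 * (P.2.2.2 : ℝ) ^ 3 ∧
        |(A : ℝ)| * P.1 * (P.2.2.1 : ℝ) ^ 3 ≤ h * (|(B : ℝ)| * P.2.1 * (P.2.2.2 : ℝ) ^ 3) ∧
        IsCoprime (A * P.1 * P.2.2.1) (B * P.2.1 * P.2.2.2) ∧
        IsCoprime (A * P.1 * P.2.2.1) a ∧ IsCoprime (B * P.2.1 * P.2.2.2) a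

/-- the bound for one cluster -/
private theorem fib_cluster (A B a : ℤ) (V : ℕ) (h X1 Y1 Z1 W1 N K dmax R : ℝ) (M G : ℕ) (t0 : ℤ)
    (S : Finset (ℕ × ℕ × ℕ × ℕ)) (hA : A ≠ 0) (hB : B ≠ 0) (ha : a ≠ 0)
    (hh : 1 ≤ h) (hN : 1 ≤ N) (hK : 1 ≤ K) (hX : 1 ≤ X1) (hY : 1 ≤ Y1) (hZ : 1 ≤ Z1) (hW : 1 ≤ W1)
    (hS : ∀ P ∈ S, FCond A B a V h X1 Y1 Z1 W1 N P)
    (hM1 : 1 ≤ M) (hMK : (M : ℝ) ≤ K) (hM2 : M ^ 2 ∣ a.natAbs) (hG : G ∣ a.natAbs)
    (hG3 : G ∣ M ^ 3)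
    (hi : 576 * h ^ 10 * (X1 * Y1 * Z1 * W1) ^ 2 * (M : ℝ) ^ 3 ≤ G * K ^ 6)
    (hii : 576 * h ^ 10 * (X1 * Y1 * Z1 * W1) ^ 2 * (a.natAbs : ℝ) ≤ N * G * K ^ 3)
    (hiii : 576 * h ^ 10 * (X1 * Y1 * Z1 * W1) ^ 2 * (a.natAbs : ℝ) ^ 2 ≤ N ^ 2 * M * G * K ^ 2)
    (hR : 0 < R)
    (ht : ∀ P ∈ S, (M : ℤ) ∣ (P.2.2.1 : ℤ) - t0 * (P.2.2.2 : ℤ))
    (hR1 : ∀ P ∈ S, R ≤ (P.2.2.1 : ℝ) / P.2.2.2)
    (hR2 : ∀ P ∈ S, (P.2.2.1 : ℝ) / P.2.2.2 ≤ R * (1 + M / K))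
    (hdmax : 0 ≤ dmax)
    (hdiv : ∀ D : ℤ, D ≠ 0 → |D| ≤ 72 * (V : ℤ) ^ 12 → (D.natAbs.divisors.card : ℝ) ≤ dmax) :
    (S.card : ℝ) ≤ 2 * (1 + X1 * Y1 / N) +
      (6 + 8 * dmax) * (1 + 9 * h * Real.sqrt (Z1 * W1 / K)) := by
  have hh0 : (0 : ℝ) < h := lt_of_lt_of_le zero_lt_one hh
  have hN0 : (0 : ℝ) < N := lt_of_lt_of_le zero_lt_one hN
  have hK0 : (0 : ℝ) < K := lt_of_lt_of_le zero_lt_one hK
  have hM0 : (0 : ℝ) < M := by exact_mod_cast hM1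
  have hX0 : (0 : ℝ) < X1 := lt_of_lt_of_le zero_lt_one hX
  have hY0 : (0 : ℝ) < Y1 := lt_of_lt_of_le zero_lt_one hY
  have hZ0 : (0 : ℝ) < Z1 := lt_of_lt_of_le zero_lt_one hZ
  have hW0 : (0 : ℝ) < W1 := lt_of_lt_of_le zero_lt_one hW
  rcases S.eq_empty_or_nonempty with hSe | ⟨P0, hP0⟩
  · rw [hSe, Finset.card_empty]
    have : 0 ≤ X1 * Y1 / N := by positivity
    push_cast
    positivity
  have hMa : (M : ℤ) ∣ a := by
    have h1 : M ∣ a.natAbs := dvd_trans (dvd_pow_self M two_ne_zero) hM2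
    exact Int.natCast_dvd.mpr h1
  have hd0 : (0 : ℝ) < M / K := div_pos hM0 hK0
  have hd1 : (M : ℝ) / K ≤ 1 := (div_le_one hK0).mpr hMK
  -- coprimality facts
  have hcoa : ∀ P ∈ S, IsCoprime (P.2.2.1 : ℤ) a ∧ IsCoprime (P.2.2.2 : ℤ) a ∧ IsCoprime B a := by
    intro P hP
    obtain ⟨-, -, -, -, -, -, -, -, h9, h10⟩ := hS P hP
    refine ⟨(IsCoprime.mul_left_iff.1 h9).2, (IsCoprime.mul_left_iff.1 h10).2, ?_⟩
    exact (IsCoprime.mul_left_iff.1 (IsCoprime.mul_left_iff.1 h10).1).1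
  have hcB : IsCoprime B a := (hcoa P0 hP0).2.2
  have hpos : ∀ P ∈ S, 0 < (P.1 : ℤ) ∧ 0 < (P.2.1 : ℤ) ∧ 0 < (P.2.2.1 : ℤ) ∧
      0 < (P.2.2.2 : ℤ) := by
    intro P hP
    obtain ⟨h1, h2, h3, h4, -⟩ := hS P hP
    exact ⟨by exact_mod_cast h1.1, by exact_mod_cast h2.1, by exact_mod_cast h3.1,
      by exact_mod_cast h4.1⟩
  have hposr : ∀ P ∈ S, (0 : ℝ) < P.2.2.1 ∧ (0 : ℝ) < P.2.2.2 := by
    intro P hP
    obtain ⟨-, -, h3, h4⟩ := hpos P hP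
    exact ⟨by exact_mod_cast h3, by exact_mod_cast h4⟩
  -- the number `Y`
  have hYY1 : R * W1 ^ 2 ≤ 2 * h ^ 2 * Z1 * W1 := by
    obtain ⟨hz, hw⟩ := hposr P0 hP0
    obtain ⟨-, -, h3, h4, -⟩ := hS P0 hP0
    have e1 : W1 ≤ h * P0.2.2.2 := by
      have := h4.2.2.1
      rwa [div_le_iff₀ hh0, mul_comm] at this
    calc R * W1 ^ 2 ≤ ((P0.2.2.1 : ℝ) / P0.2.2.2) * (h * P0.2.2.2) ^ 2 := by
          apply mul_le_mul (hR1 P0 hP0) (pow_le_pow_left₀ hW0.le e1 2) (by positivity)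
            (by positivity)
      _ = h ^ 2 * (P0.2.2.1 * P0.2.2.2) := by field_simp
      _ ≤ h ^ 2 * (Z1 * W1) := by
          apply mul_le_mul_of_nonneg_left _ (by positivity)
          exact mul_le_mul h3.2.2.2 h4.2.2.2 hw.le hZ0.le
      _ ≤ 2 * h ^ 2 * Z1 * W1 := by
          have : 0 ≤ h ^ 2 * (Z1 * W1) := by positivity
          linarith
  have hYY2 : Z1 ^ 2 / R ≤ 2 * h ^ 2 * Z1 * W1 := by
    obtain ⟨hz, hw⟩ := hposr P0 hP0
    obtain ⟨-, -, h3, h4, -⟩ := hS P0 hP0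
    have e1 : Z1 ≤ h * P0.2.2.1 := by
      have := h3.2.2.1
      rwa [div_le_iff₀ hh0, mul_comm] at this
    have e2 : (P0.2.2.1 : ℝ) / P0.2.2.2 ≤ R * 2 := by
      refine le_trans (hR2 P0 hP0) (mul_le_mul_of_nonneg_left ?_ hR.le)
      linarith
    have e3 : (P0.2.2.1 : ℝ) ≤ R * 2 * W1 := by
      rw [div_le_iff₀ hw] at e2
      refine le_trans e2 ?_
      exact mul_le_mul_of_nonneg_left h4.2.2.2 (by positivity)
    rw [div_le_iff₀ hR]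
    calc Z1 ^ 2 = Z1 * Z1 := by ring
      _ ≤ Z1 * (h * (R * 2 * W1)) := by
          apply mul_le_mul_of_nonneg_left _ hZ0.le
          exact le_trans e1 (mul_le_mul_of_nonneg_left e3 hh0.le)
      _ = (2 * Z1 * W1 * R) * h := by ring
      _ ≤ (2 * Z1 * W1 * R) * h ^ 2 := by
          apply mul_le_mul_of_nonneg_left _ (by positivity)
          nlinarith only [hh]
      _ = 2 * h ^ 2 * Z1 * W1 * R := by ring
  have hmain := cluster_count' S (fun P => (P.1 : ℤ)) (fun P => (P.2.1 : ℤ))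
    (fun P => (P.2.2.1 : ℤ)) (fun P => (P.2.2.2 : ℤ)) A B a (V : ℤ) M t0 R (M / K)
    (2 * h ^ 2 * Z1 * W1) W1 Z1 (1 + X1 * Y1 / N) dmax hA hB ha
    (fun P hP => ⟨(hpos P hP).1, by exact_mod_cast (hS P hP).1.2.1⟩)
    (fun P hP => ⟨(hpos P hP).2.1, by exact_mod_cast (hS P hP).2.1.2.1⟩)
    (fun P hP => ⟨(hpos P hP).2.2.1, by exact_mod_cast (hS P hP).2.2.1.2.1⟩)
    (fun P hP => ⟨(hpos P hP).2.2.2, by exact_mod_cast (hS P hP).2.2.2.1.2.1⟩)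
    (by
      intro P hP
      obtain ⟨-, -, -, -, -, -, -, h8, -⟩ := hS P hP
      have h1 := (IsCoprime.mul_left_iff.1 (IsCoprime.mul_left_iff.1 h8).1).2
      exact (IsCoprime.mul_right_iff.1 (IsCoprime.mul_right_iff.1 h1).1).2)
    (by
      intro P hP
      obtain ⟨-, -, -, -, -, -, -, h8, -⟩ := hS P hP
      have h1 := (IsCoprime.mul_left_iff.1 h8).2
      exact (IsCoprime.mul_right_iff.1 h1).2)
    (fun P hP => (hS P hP).2.2.2.2.1)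
    (by
      intro P _ Q _ h1 h2 h3 h4
      exact Prod.ext (by exact_mod_cast h1) (Prod.ext (by exact_mod_cast h2)
        (Prod.ext (by exact_mod_cast h3) (by exact_mod_cast h4))))
    (by
      intro P1 h1 P2 h2 P3 h3 P4 h4
      have hmem : ∀ i : Fin 4, (![P1, P2, P3, P4] i) ∈ S := by
        intro i
        fin_cases i
        · exact h1
        · exact h2
        · exact h3
        · exact h4
      exact DD_zero A B a (fun i => ((![P1, P2, P3, P4] i).1 : ℤ))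
        (fun i => ((![P1, P2, P3, P4] i).2.1 : ℤ))
        (fun i => ((![P1, P2, P3, P4] i).2.2.1 : ℤ))
        (fun i => ((![P1, P2, P3, P4] i).2.2.2 : ℤ))
        X1 Y1 Z1 W1 h R N K M G t0 hA hB ha hh hR hN hK hM1 hMK hM2 hG hG3 hi hii hiii
        (fun i => hpos _ (hmem i))
        (fun i => ⟨by exact_mod_cast (hS _ (hmem i)).1.2.2.1,
          by exact_mod_cast (hS _ (hmem i)).1.2.2.2⟩)
        (fun i => by exact_mod_cast (hS _ (hmem i)).2.1.2.2.2)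
        (fun i => by exact_mod_cast (hS _ (hmem i)).2.2.1.2.2.2)
        (fun i => ⟨by exact_mod_cast (hS _ (hmem i)).2.2.2.1.2.2.1,
          by exact_mod_cast (hS _ (hmem i)).2.2.2.1.2.2.2⟩)
        (fun i => by simp only [Int.cast_natCast]; exact hR1 _ (hmem i))
        (fun i => by simp only [Int.cast_natCast]; exact hR2 _ (hmem i))
        (fun i => (hS _ (hmem i)).2.2.2.2.1)
        (fun i => by exact_mod_cast (hS _ (hmem i)).2.2.2.2.2.1)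
        (fun i => by exact_mod_cast (hS _ (hmem i)).2.2.2.2.2.2.1)
        hcB (fun i => (hcoa _ (hmem i)).2.1) (fun i => ht _ (hmem i)))
    hM1 hd0 hd1 hR
    (fun P hP => by exact_mod_cast (hS P hP).2.2.1.2.2.2)
    (fun P hP => by exact_mod_cast (hS P hP).2.2.2.1.2.2.2)
    (fun P hP => IsCoprime.of_isCoprime_of_dvd_right (hcoa P hP).1 hMa)
    (fun P hP => IsCoprime.of_isCoprime_of_dvd_right (hcoa P hP).2.1 hMa)
    (fun P hP => ht P hP)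
    (fun P hP => by simp only [Int.cast_natCast]; exact hR1 P hP)
    (fun P hP => by simp only [Int.cast_natCast]; exact hR2 P hP)
    hYY1 hYY2
    (by
      intro P hP
      have hz := (hpos P hP).2.2.1
      have hw := (hpos P hP).2.2.2
      refine same_zw (S.filter (fun j => (j.2.2.1 : ℤ) = (P.2.2.1 : ℤ) ∧
        (j.2.2.2 : ℤ) = (P.2.2.2 : ℤ))) (fun P => (P.1 : ℤ)) (fun P => (P.2.1 : ℤ))
        (P.2.2.1 : ℤ) (P.2.2.2 : ℤ) A B a X1 Y1 N hA hB hN0 hz hw ?_ ?_ ?_ ?_ ?_ ?_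
        (by positivity)
      · intro i hi'
        have hi2 := (mem_filter.1 hi').1
        exact ⟨(hpos i hi2).1, by exact_mod_cast (hS i hi2).1.2.2.2⟩
      · intro i hi'
        have hi2 := (mem_filter.1 hi').1
        exact ⟨(hpos i hi2).2.1, by exact_mod_cast (hS i hi2).2.1.2.2.2⟩
      · intro i hi'
        obtain ⟨hi2, hi3, hi4⟩ := mem_filter.1 hi'
        have := (hS i hi2).2.2.2.2.1
        rw [hi3, hi4] at this
        exact this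
      · intro i hi'
        obtain ⟨hi2, hi3, hi4⟩ := mem_filter.1 hi'
        have h6 := (hS i hi2).2.2.2.2.2.1
        have hi5 : (i.2.2.2 : ℝ) = (P.2.2.2 : ℝ) := by exact_mod_cast hi4
        rw [hi5] at h6
        exact_mod_cast h6
      · obtain ⟨-, -, -, -, -, -, -, h8, -⟩ := hS P hP
        have e1 := (IsCoprime.mul_left_iff.1 h8)
        have e2 := (IsCoprime.mul_left_iff.1 e1.1)
        have f1 := (IsCoprime.mul_right_iff.1 e1.2)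
        have f2 := (IsCoprime.mul_right_iff.1 f1.1)
        have g1 := (IsCoprime.mul_right_iff.1 e2.1)
        have g2 := (IsCoprime.mul_right_iff.1 g1.1)
        exact IsCoprime.mul_left (IsCoprime.mul_right g2.1 g1.2) (IsCoprime.mul_right f2.1 f1.2)
      · intro i hi' j hj' h1 h2
        obtain ⟨_, hi3, hi4⟩ := mem_filter.1 hi'
        obtain ⟨_, hj3, hj4⟩ := mem_filter.1 hj'
        have h3 := hi3.trans hj3.symm
        have h4 := hi4.trans hj4.symm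
        exact Prod.ext (by exact_mod_cast h1) (Prod.ext (by exact_mod_cast h2)
          (Prod.ext (by exact_mod_cast h3) (by exact_mod_cast h4))))
    (by positivity) hdmax (fun D hD hDV => hdiv D hD hDV)
  refine le_trans hmain ?_
  have hsq : 6 * Real.sqrt (2 * h ^ 2 * Z1 * W1 * (M / K) / M) ≤
      9 * h * Real.sqrt (Z1 * W1 / K) := by
    have e1 : 2 * h ^ 2 * Z1 * W1 * (M / K) / M = 2 * h ^ 2 * (Z1 * W1 / K) := by
      field_simp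
    have e2 : 9 * h * Real.sqrt (Z1 * W1 / K) =
        6 * Real.sqrt ((3 / 2 * h) ^ 2 * (Z1 * W1 / K)) := by
      rw [Real.sqrt_mul (by positivity), Real.sqrt_sq (by positivity)]
      ring
    rw [e1, e2]
    apply mul_le_mul_of_nonneg_left _ (by norm_num)
    apply Real.sqrt_le_sqrt
    apply mul_le_mul_of_nonneg_right _ (by positivity)
    nlinarith only [sq_nonneg h]
  have h6 : (0 : ℝ) ≤ 6 + 8 * dmax := by positivity
  have := mul_le_mul_of_nonneg_left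
    (show 1 + 6 * Real.sqrt (2 * h ^ 2 * Z1 * W1 * (M / K) / M) ≤
      1 + 9 * h * Real.sqrt (Z1 * W1 / K) by linarith) h6
  linarith

/-- the number of the clusters in the archimedean direction -/
private theorem fib_levels (h Z1 W1 d : ℝ) (hh : 1 ≤ h) (hZ : 1 ≤ Z1) (hW : 1 ≤ W1) (hd0 : 0 < d)
    (hd1 : d ≤ 1) :
    ((Finset.Icc ⌊Real.log (Z1 / (h * W1)) / Real.log (1 + d)⌋
      ⌊Real.log (h * Z1 / W1) / Real.log (1 + d)⌋).card : ℝ) ≤ 2 + 4 * Real.log h / d := by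
  have hh0 : (0 : ℝ) < h := lt_of_lt_of_le zero_lt_one hh
  have hZ0 : (0 : ℝ) < Z1 := lt_of_lt_of_le zero_lt_one hZ
  have hW0 : (0 : ℝ) < W1 := lt_of_lt_of_le zero_lt_one hW
  have hlh : 0 ≤ Real.log h := Real.log_nonneg hh
  have hl : d / 2 ≤ Real.log (1 + d) := by
    have h1 := Real.one_sub_inv_le_log_of_pos (show (0 : ℝ) < 1 + d by linarith)
    refine le_trans ?_ h1
    rw [show 1 - (1 + d)⁻¹ = d / (1 + d) by field_simp; ring]
    exact div_le_div_of_nonneg_left hd0.le (by linarith) (by linarith)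
  have hl0 : 0 < Real.log (1 + d) := lt_of_lt_of_le (by positivity) hl
  set u := Real.log (Z1 / (h * W1)) / Real.log (1 + d) with hu
  set v := Real.log (h * Z1 / W1) / Real.log (1 + d) with hv
  have huv : v - u = 2 * Real.log h / Real.log (1 + d) := by
    rw [hu, hv, ← sub_div]
    congr 1
    rw [Real.log_div (by positivity) (by positivity), Real.log_div (by positivity) (by positivity),
      Real.log_mul (by positivity) (by positivity), Real.log_mul (by positivity) (by positivity)]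
    ring
  have h2 : 2 * Real.log h / Real.log (1 + d) ≤ 4 * Real.log h / d := by
    rw [div_le_div_iff₀ hl0 hd0]
    nlinarith
  have h3 : 0 ≤ 4 * Real.log h / d := by positivity
  rw [Int.card_Icc]
  have h4 : ((⌊v⌋ + 1 - ⌊u⌋).toNat : ℝ) ≤ max ((⌊v⌋ + 1 - ⌊u⌋ : ℤ) : ℝ) 0 := by
    rcases le_total 0 (⌊v⌋ + 1 - ⌊u⌋) with h5 | h5
    · have : (((⌊v⌋ + 1 - ⌊u⌋).toNat : ℤ) : ℝ) = ((⌊v⌋ + 1 - ⌊u⌋ : ℤ) : ℝ) := by
        rw [Int.toNat_of_nonneg h5]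
      rw [Int.cast_natCast] at this
      rw [this]
      exact le_max_left _ _
    · rw [Int.toNat_of_nonpos h5]
      simp
  refine le_trans h4 (max_le ?_ (by linarith))
  push_cast
  have h6 := Int.floor_le v
  have h7 := Int.lt_floor_add_one u
  linarith

/-- SR8: the fibre. `P = (x, y, z, w)`. -/
theorem K_fiber (ε : ℝ) (hε : 0 < ε) : ∃ C : ℝ, 0 < C ∧
    ∀ (A B a : ℤ) (V : ℕ) (h X1 Y1 Z1 W1 N K : ℝ) (F : Finset (ℕ × ℕ × ℕ × ℕ)),
      A ≠ 0 → B ≠ 0 → a ≠ 0 → 1 ≤ V → 1 ≤ h → 1 ≤ N → 1 ≤ K →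
      1 ≤ X1 → 1 ≤ Y1 → 1 ≤ Z1 → 1 ≤ W1 → |(a : ℝ)| ≤ h * N →
      (∀ P ∈ F, (1 ≤ P.1 ∧ P.1 ≤ V ∧ X1 / h ≤ (P.1 : ℝ) ∧ (P.1 : ℝ) ≤ X1) ∧
        (1 ≤ P.2.1 ∧ P.2.1 ≤ V ∧ Y1 / h ≤ (P.2.1 : ℝ) ∧ (P.2.1 : ℝ) ≤ Y1) ∧
        (1 ≤ P.2.2.1 ∧ P.2.2.1 ≤ V ∧ Z1 / h ≤ (P.2.2.1 : ℝ) ∧ (P.2.2.1 : ℝ) ≤ Z1) ∧
        (1 ≤ P.2.2.2 ∧ P.2.2.2 ≤ V ∧ W1 / h ≤ (P.2.2.2 : ℝ) ∧ (P.2.2.2 : ℝ) ≤ W1) ∧
        B * P.2.1 * (P.2.2.2 : ℤ) ^ 3 - A * P.1 * (P.2.2.1 : ℤ) ^ 3 = a ∧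
        N ≤ |(B : ℝ)| * P.2.1 * (P.2.2.2 : ℝ) ^ 3 ∧
        |(A : ℝ)| * P.1 * (P.2.2.1 : ℝ) ^ 3 ≤ h * (|(B : ℝ)| * P.2.1 * (P.2.2.2 : ℝ) ^ 3) ∧
        IsCoprime (A * P.1 * P.2.2.1) (B * P.2.1 * P.2.2.2) ∧
        IsCoprime (A * P.1 * P.2.2.1) a ∧ IsCoprime (B * P.2.1 * P.2.2.2) a) →
      331776 * h ^ 22 * (X1 * Y1 * Z1 * W1) * (radn a.natAbs : ℝ) ^ 2 ≤ K ^ 3 →
      331776 * h ^ 22 * (X1 * Y1 * Z1 * W1) ^ 2 * (radn a.natAbs : ℝ) ≤ N * K ^ 3 →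
      331776 * h ^ 22 * (X1 * Y1 * Z1 * W1) ^ 4 * (radn a.natAbs : ℝ) ^ 3 ≤ N ^ 3 * K ^ 4 →
      (F.card : ℝ) ≤ C * (V : ℝ) ^ ε * h ^ 2 *
        (K + Real.sqrt (K * Z1 * W1) + K * (X1 * Y1) / N) := by
  obtain ⟨C0, hC0, hdivs⟩ := divisors_72 ε hε
  refine ⟨9 * (24 + 32 * C0) + 8, by positivity, ?_⟩
  intro A B a V h X1 Y1 Z1 W1 N K F hA hB ha hV hh hN hK hX hY hZ hW haN hF h1 h2 h3
  have hh0 : (0 : ℝ) < h := lt_of_lt_of_le zero_lt_one hh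
  have hN0 : (0 : ℝ) < N := lt_of_lt_of_le zero_lt_one hN
  have hK0 : (0 : ℝ) < K := lt_of_lt_of_le zero_lt_one hK
  have hX0 : (0 : ℝ) < X1 := lt_of_lt_of_le zero_lt_one hX
  have hY0 : (0 : ℝ) < Y1 := lt_of_lt_of_le zero_lt_one hY
  have hZ0 : (0 : ℝ) < Z1 := lt_of_lt_of_le zero_lt_one hZ
  have hW0 : (0 : ℝ) < W1 := lt_of_lt_of_le zero_lt_one hW
  have hs1 : 1 ≤ a.natAbs := Int.natAbs_pos.mpr ha
  have hsr : (a.natAbs : ℝ) = |(a : ℝ)| := by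
    rw [← Int.cast_abs, Int.abs_eq_natAbs, Int.cast_natCast]
  have hP1 : 1 ≤ X1 * Y1 * Z1 * W1 :=
    one_le_mul_of_one_le_of_one_le (one_le_mul_of_one_le_of_one_le
      (one_le_mul_of_one_le_of_one_le hX hY) hZ) hW
  have hH1 : 1 ≤ 576 * h ^ 10 := by
    have : 1 ≤ h ^ 10 := one_le_pow₀ hh
    linarith
  obtain ⟨M, G, hM1, hM2, hG, hG3, hMK, hi, hii, hiii⟩ :=
    select a.natAbs hs1 N (X1 * Y1 * Z1 * W1) K (576 * h ^ 10) h hN hP1 hK hH1 hh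
      (by rw [hsr]; exact haN) (by refine le_trans (le_of_eq ?_) h1; ring)
      (by refine le_trans (le_of_eq ?_) h2; ring) (by refine le_trans (le_of_eq ?_) h3; ring)
  have hM0 : (0 : ℝ) < M := by exact_mod_cast hM1
  have hne : NeZero M := ⟨by omega⟩
  have hd0 : (0 : ℝ) < M / K := div_pos hM0 hK0
  have hd1 : (M : ℝ) / K ≤ 1 := (div_le_one hK0).mpr hMK
  have hlam : 0 < Real.log (1 + M / K) := Real.log_pos (by linarith)
  have hMa : (M : ℤ) ∣ a := by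
    have h1 : M ∣ a.natAbs := dvd_trans (dvd_pow_self M two_ne_zero) hM2
    exact Int.natCast_dvd.mpr h1
  set lam : ℝ := Real.log (1 + M / K) with hlamdef
  have hVe : 1 ≤ (V : ℝ) ^ ε := Real.one_le_rpow (by exact_mod_cast hV) hε.le
  set dmax : ℝ := C0 * (V : ℝ) ^ ε with hdmaxdef
  have hdmax : 0 ≤ dmax := by positivity
  -- the clusters
  let κ : ℕ × ℕ × ℕ × ℕ → ZMod M × ℤ := fun P =>
    ((P.2.2.1 : ZMod M) * (P.2.2.2 : ZMod M)⁻¹, ⌊Real.log ((P.2.2.1 : ℝ) / P.2.2.2) / lam⌋)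
  set T : Finset (ZMod M × ℤ) := (Finset.univ : Finset (ZMod M)) ×ˢ
    Finset.Icc ⌊Real.log (Z1 / (h * W1)) / lam⌋ ⌊Real.log (h * Z1 / W1) / lam⌋ with hT
  have hposr : ∀ P ∈ F, (0 : ℝ) < P.2.2.1 ∧ (0 : ℝ) < P.2.2.2 := by
    intro P hP
    obtain ⟨-, -, h3, h4, -⟩ := hF P hP
    exact ⟨by exact_mod_cast h3.1, by exact_mod_cast h4.1⟩
  have hmaps : ∀ P ∈ F, κ P ∈ T := by
    intro P hP
    obtain ⟨hz, hw⟩ := hposr P hP
    obtain ⟨-, -, h3, h4, -⟩ := hF P hP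
    rw [hT, Finset.mem_product, Finset.mem_Icc]
    refine ⟨Finset.mem_univ _, ?_, ?_⟩
    · apply Int.floor_le_floor
      apply div_le_div_of_nonneg_right _ hlam.le
      apply Real.log_le_log (by positivity)
      rw [div_le_div_iff₀ (by positivity) hw]
      have e1 : Z1 ≤ P.2.2.1 * h := by
        have := h3.2.2.1
        rwa [div_le_iff₀ hh0] at this
      calc Z1 * P.2.2.2 ≤ (P.2.2.1 * h) * W1 :=
            mul_le_mul e1 h4.2.2.2 hw.le (by positivity)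
        _ = P.2.2.1 * (h * W1) := by ring
    · apply Int.floor_le_floor
      apply div_le_div_of_nonneg_right _ hlam.le
      apply Real.log_le_log (by positivity)
      rw [div_le_div_iff₀ hw hW0]
      have e1 : W1 ≤ P.2.2.2 * h := by
        have := h4.2.2.1
        rwa [div_le_iff₀ hh0] at this
      calc (P.2.2.1 : ℝ) * W1 ≤ Z1 * (P.2.2.2 * h) :=
            mul_le_mul h3.2.2.2 e1 hW0.le (by positivity)
        _ = h * Z1 * P.2.2.2 := by ring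
  set Bd : ℝ := 2 * (1 + X1 * Y1 / N) +
      (6 + 8 * dmax) * (1 + 9 * h * Real.sqrt (Z1 * W1 / K)) with hBd
  have hBd0 : 0 ≤ Bd := by positivity
  have hfib : ∀ b ∈ T, ((F.filter (fun P => κ P = b)).card : ℝ) ≤ Bd := by
    intro b _
    refine fib_cluster A B a V h X1 Y1 Z1 W1 N K dmax (Real.exp (b.2 * lam)) M G (b.1.val : ℤ)
      (F.filter (fun P => κ P = b)) hA hB ha hh hN hK hX hY hZ hW
      (fun P hP => hF P (mem_filter.1 hP).1) hM1 hMK hM2 hG hG3 hi hii hiii (Real.exp_pos _)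
      ?_ ?_ ?_ hdmax (fun D hD hDV => hdivs V hV D hD hDV)
    · intro P hP
      obtain ⟨hPF, hκ⟩ := mem_filter.1 hP
      have hb1 : (P.2.2.1 : ZMod M) * (P.2.2.2 : ZMod M)⁻¹ = b.1 := by rw [← hκ]
      have hcop : Nat.Coprime P.2.2.2 M := by
        have h10 := (hF P hPF).2.2.2.2.2.2.2.2.2
        have h11 : IsCoprime (P.2.2.2 : ℤ) (M : ℤ) :=
          IsCoprime.of_isCoprime_of_dvd_right (IsCoprime.mul_left_iff.1 h10).2 hMa
        exact Nat.isCoprime_iff_coprime.mp h11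
      have hinv := ZMod.coe_mul_inv_eq_one P.2.2.2 hcop
      have hzw : (P.2.2.1 : ZMod M) = b.1 * (P.2.2.2 : ZMod M) := by
        rw [← hb1, mul_assoc, mul_comm ((P.2.2.2 : ZMod M)⁻¹), hinv, mul_one]
      rw [← ZMod.intCast_zmod_eq_zero_iff_dvd]
      push_cast
      rw [ZMod.natCast_zmod_val, hzw, sub_self]
    · intro P hP
      obtain ⟨hPF, hκ⟩ := mem_filter.1 hP
      obtain ⟨hz, hw⟩ := hposr P hPF
      have hb2 : ⌊Real.log ((P.2.2.1 : ℝ) / P.2.2.2) / lam⌋ = b.2 := by rw [← hκ]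
      have h5 := Int.floor_le (Real.log ((P.2.2.1 : ℝ) / P.2.2.2) / lam)
      rw [hb2, le_div_iff₀ hlam] at h5
      calc Real.exp (b.2 * lam) ≤ Real.exp (Real.log ((P.2.2.1 : ℝ) / P.2.2.2)) :=
            Real.exp_le_exp.mpr h5
        _ = _ := Real.exp_log (by positivity)
    · intro P hP
      obtain ⟨hPF, hκ⟩ := mem_filter.1 hP
      obtain ⟨hz, hw⟩ := hposr P hPF
      have hb2 : ⌊Real.log ((P.2.2.1 : ℝ) / P.2.2.2) / lam⌋ = b.2 := by rw [← hκ]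
      have h5 := Int.lt_floor_add_one (Real.log ((P.2.2.1 : ℝ) / P.2.2.2) / lam)
      rw [hb2, div_lt_iff₀ hlam] at h5
      calc (P.2.2.1 : ℝ) / P.2.2.2 = Real.exp (Real.log ((P.2.2.1 : ℝ) / P.2.2.2)) :=
            (Real.exp_log (by positivity)).symm
        _ ≤ Real.exp ((b.2 + 1) * lam) := Real.exp_le_exp.mpr h5.le
        _ = Real.exp (b.2 * lam) * (1 + M / K) := by
            rw [add_mul, one_mul, Real.exp_add, hlamdef, Real.exp_log (by positivity)]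
  have hcard : (F.card : ℝ) ≤ T.card * Bd := by
    rw [Finset.card_eq_sum_card_fiberwise (f := κ) (t := T) hmaps]
    push_cast
    calc ∑ b ∈ T, ((F.filter (fun P => κ P = b)).card : ℝ) ≤ ∑ _b ∈ T, Bd := sum_le_sum hfib
      _ = T.card * Bd := by rw [sum_const, nsmul_eq_mul]
  have hTc : (T.card : ℝ) ≤ 4 * h * K := by
    rw [hT, Finset.card_product, Finset.card_univ, ZMod.card]
    push_cast
    have h5 := fib_levels h Z1 W1 (M / K) hh hZ hW hd0 hd1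
    rw [← hlamdef] at h5
    have h6 : Real.log h ≤ h - 1 := Real.log_le_sub_one_of_pos hh0
    have h7 : 0 ≤ Real.log h := Real.log_nonneg hh
    calc (M : ℝ) * ((Finset.Icc ⌊Real.log (Z1 / (h * W1)) / lam⌋
          ⌊Real.log (h * Z1 / W1) / lam⌋).card : ℝ) ≤ M * (2 + 4 * Real.log h / (M / K)) :=
          mul_le_mul_of_nonneg_left h5 hM0.le
      _ = 2 * M + 4 * Real.log h * K := by field_simp
      _ ≤ 2 * K + 4 * (h - 1) * K := by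
          have := mul_le_mul_of_nonneg_right h6 hK0.le
          linarith
      _ ≤ 4 * h * K := by linarith
  have hsq : K * Real.sqrt (Z1 * W1 / K) = Real.sqrt (K * Z1 * W1) := by
    rw [show K * Z1 * W1 = K ^ 2 * (Z1 * W1 / K) by field_simp, Real.sqrt_mul (by positivity),
      Real.sqrt_sq hK0.le]
  set Sq : ℝ := Real.sqrt (K * Z1 * W1) with hSq
  have hSq0 : 0 ≤ Sq := Real.sqrt_nonneg _
  set XY : ℝ := K * (X1 * Y1) / N with hXY
  have hXY0 : 0 ≤ XY := by positivity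
  have htot : (F.card : ℝ) ≤ 4 * h * K * Bd :=
    le_trans hcard (mul_le_mul_of_nonneg_right hTc hBd0)
  have hexp : 4 * h * K * Bd = 8 * h * K + 8 * h * XY +
      4 * h * (6 + 8 * dmax) * (K + 9 * h * Sq) := by
    rw [hBd, hXY, ← hsq]
    field_simp
    ring
  have hdm : 6 + 8 * dmax ≤ (6 + 8 * C0) * (V : ℝ) ^ ε := by
    rw [hdmaxdef]
    nlinarith only [hVe]
  have hhh : h ≤ h ^ 2 := by nlinarith only [hh]
  have hE : 1 ≤ (V : ℝ) ^ ε := hVe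
  set E : ℝ := (V : ℝ) ^ ε with hEdef
  have hE0 : 0 ≤ E := by linarith
  have b1 : 8 * h * K ≤ 8 * (E * h ^ 2 * K) := by
    have : h * K ≤ E * h ^ 2 * K := by
      apply mul_le_mul_of_nonneg_right _ hK0.le
      calc h ≤ h ^ 2 := hhh
        _ = 1 * h ^ 2 := (one_mul _).symm
        _ ≤ E * h ^ 2 := mul_le_mul_of_nonneg_right hE (by positivity)
    linarith
  have b2 : 8 * h * XY ≤ 8 * (E * h ^ 2 * XY) := by
    have : h * XY ≤ E * h ^ 2 * XY := by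
      apply mul_le_mul_of_nonneg_right _ hXY0
      calc h ≤ h ^ 2 := hhh
        _ = 1 * h ^ 2 := (one_mul _).symm
        _ ≤ E * h ^ 2 := mul_le_mul_of_nonneg_right hE (by positivity)
    linarith
  have b3 : 4 * h * (6 + 8 * dmax) * (K + 9 * h * Sq) ≤
      (24 + 32 * C0) * (E * h ^ 2 * (K + 9 * Sq)) := by
    have c1 : h * (K + 9 * h * Sq) ≤ h ^ 2 * (K + 9 * Sq) := by
      have := mul_le_mul_of_nonneg_right hhh hK0.le
      nlinarith only [this]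
    calc 4 * h * (6 + 8 * dmax) * (K + 9 * h * Sq)
        = 4 * (6 + 8 * dmax) * (h * (K + 9 * h * Sq)) := by ring
      _ ≤ 4 * ((6 + 8 * C0) * E) * (h ^ 2 * (K + 9 * Sq)) := by
          apply mul_le_mul _ c1 (by positivity) (by positivity)
          exact mul_le_mul_of_nonneg_left hdm (by norm_num)
      _ = _ := by ring
  have hA1 : 0 ≤ E * h ^ 2 * K := by positivity
  have hA2 : 0 ≤ E * h ^ 2 * Sq := by positivity
  have hA3 : 0 ≤ E * h ^ 2 * XY := by positivity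
  have hA4 : 0 ≤ C0 * (E * h ^ 2 * K) := mul_nonneg hC0.le hA1
  have hA5 : 0 ≤ C0 * (E * h ^ 2 * XY) := mul_nonneg hC0.le hA3
  calc (F.card : ℝ) ≤ 4 * h * K * Bd := htot
    _ = 8 * h * K + 8 * h * XY + 4 * h * (6 + 8 * dmax) * (K + 9 * h * Sq) := hexp
    _ ≤ 8 * (E * h ^ 2 * K) + 8 * (E * h ^ 2 * XY) +
        (24 + 32 * C0) * (E * h ^ 2 * (K + 9 * Sq)) := by linarith
    _ ≤ (9 * (24 + 32 * C0) + 8) * E * h ^ 2 * (K + Sq + XY) := by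
        have : (9 * (24 + 32 * C0) + 8) * E * h ^ 2 * (K + Sq + XY) =
          (9 * (24 + 32 * C0) + 8) * (E * h ^ 2 * K) + (9 * (24 + 32 * C0) + 8) * (E * h ^ 2 * Sq)
          + (9 * (24 + 32 * C0) + 8) * (E * h ^ 2 * XY) := by ring
        rw [this]
        nlinarith only [hTc, b1, hA2, hA3, hA4, hA5]

end Pool.Agent.Helper1.SR
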