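import Mathlib
import Pool.Agent.Helper94.Abc.Det2
import Pool.Agent.Helper92.ABC.Defs
import Pool.Agent.Helper4.ABC.Sizes

/-!
SR9a. cls v = v for v < 5: the primes of classes 3, 4 have exponent exactly 3, 4. So prod_{prs S} p^v = (prod p^(v mod 3)) (prod p^(v/3))^3; for the class 3 the
remainder is 1 and v/3 = 1, for the class 4 remainder and quotient are both p. prs is additive over disjoint sets of classes (prod_prs_eq, part_mul_part in Helper4/ABC/Sizes.lean).
rootp 3 S n = prod_{p in prs S} p = rpart S n here; rc 3 S k = sum_{i in S} k i for S inside {3,4}; coord n i = rpart {i} n for i <= 5; Z^(log) <= coord < Z^(log+1).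
For part T use rootp_lower / rootp_upper with j = 1 and part_eq_rootp_pow (upper constant +16).
-/

set_option autoImplicit false

namespace Pool.Agent.Helper1.SR

open Finset Pool.Agent.Helper94.Abc

open Pool.Agent.Helper92.ABC (radn full rc part rpart rootp prs Box wt num coord)

/-- Size exponent of the part `x`: the classes in `T` completely and the remainders modulo 3 of
the classes in `S`. -/
def xc (T S : Finset ℕ) (k : ℕ → ℕ) : ℕ := rc 1 T k + ∑ i ∈ S, (i % 3) * k i

/-- The part `x`: the classes in `T` completely and the remainders of the classes in `S`. -/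
def xp (T S : Finset ℕ) (n : ℕ) : ℕ := part T n * ∏ p ∈ prs S n, p ^ (n.factorization p % 3)


private lemma sub_full {S : Finset ℕ} (hS : S ⊆ {3, 4}) : S ⊆ full := by
  intro i hi
  have h := hS hi
  simp only [Finset.mem_insert, Finset.mem_singleton] at h
  simp only [full, Finset.mem_Icc]
  omega

/-- A product over the primes of `S` of powers depending on the exponent only, by classes. -/
private lemma prod_prs_fun {S : Finset ℕ} (hS : S ⊆ {3, 4}) (n : ℕ) (f : ℕ → ℕ) :
    ∏ p ∈ prs S n, p ^ f (n.factorization p) = ∏ i ∈ S, coord n i ^ f i := by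
  rw [Pool.Agent.Helper92.ABC.prod_prs_eq S n (fun p => p ^ f (n.factorization p))]
  refine Finset.prod_congr rfl fun i hi => ?_
  rw [Pool.Agent.Helper92.ABC.coord_of_full (sub_full hS hi)]
  unfold rpart
  rw [← Finset.prod_pow]
  refine Finset.prod_congr rfl fun p hp => ?_
  have h1 := (Pool.Agent.Helper92.ABC.mem_prs.1 hp).2
  rw [Finset.mem_singleton] at h1
  have h2 : n.factorization p = i := by
    have h3 := hS hi
    simp only [Finset.mem_insert, Finset.mem_singleton] at h3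
    unfold Pool.Agent.Helper92.ABC.cls at h1
    omega
  rw [h2]

private lemma prod_lower (Z : ℕ) {S : Finset ℕ} (n : ℕ) (hn : n ≠ 0) (f : ℕ → ℕ) :
    Z ^ (∑ i ∈ S, f i * Nat.log Z (coord n i)) ≤ ∏ i ∈ S, coord n i ^ f i := by
  rw [← Finset.prod_pow_eq_pow_sum]
  refine Finset.prod_le_prod' fun i _ => ?_
  rw [mul_comm, pow_mul]
  exact Nat.pow_le_pow_left (Pool.Agent.Helper92.ABC.coord_lower Z n i hn) _

private lemma prod_upper (Z : ℕ) (hZ : 2 ≤ Z) {S : Finset ℕ} (n : ℕ) (f : ℕ → ℕ) :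
    ∏ i ∈ S, coord n i ^ f i ≤ Z ^ (∑ i ∈ S, f i * Nat.log Z (coord n i) + ∑ i ∈ S, f i) := by
  have h1 : (∏ i ∈ S, coord n i ^ f i) ≤
      Z ^ ∑ i ∈ S, f i * (Nat.log Z (coord n i) + 1) := by
    rw [← Finset.prod_pow_eq_pow_sum]
    refine Finset.prod_le_prod' fun i _ => ?_
    rw [mul_comm, pow_mul]
    exact Nat.pow_le_pow_left (Pool.Agent.Helper92.ABC.coord_upper Z hZ n i) _
  refine h1.trans (le_of_eq ?_)
  rw [← Finset.sum_add_distrib]
  have h2 : ∑ i ∈ S, f i * (Nat.log Z (coord n i) + 1) =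
      ∑ i ∈ S, (f i * Nat.log Z (coord n i) + f i) :=
    Finset.sum_congr rfl fun i _ => by ring
  rw [h2]

private lemma sum_small {S : Finset ℕ} (hS : S ⊆ {3, 4}) (f : ℕ → ℕ) (h3 : f 3 ≤ 1)
    (h4 : f 4 ≤ 1) : ∑ i ∈ S, f i ≤ 2 := by
  refine (Finset.sum_le_sum_of_subset_of_nonneg hS fun _ _ _ => Nat.zero_le _).trans ?_
  rw [Finset.sum_insert (by simp), Finset.sum_singleton]
  exact Nat.add_le_add h3 h4

private lemma part_union {T S : Finset ℕ} (hd : Disjoint T S) (n : ℕ) :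
    part (T ∪ S) n = part T n * part S n := by
  unfold part
  rw [Pool.Agent.Helper92.ABC.prod_prs_eq (T ∪ S) n (fun p => p ^ n.factorization p),
    Pool.Agent.Helper92.ABC.prod_prs_eq T n (fun p => p ^ n.factorization p),
    Pool.Agent.Helper92.ABC.prod_prs_eq S n (fun p => p ^ n.factorization p),
    Finset.prod_union hd]

private lemma rc_eq {S : Finset ℕ} (hS : S ⊆ {3, 4}) (k : ℕ → ℕ) :
    rc 3 S k = ∑ i ∈ S, (i / 3) * k i := by
  have h5 : 5 ∉ S := fun h => by
    have := hS h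
    simp at this
  unfold rc
  rw [if_neg h5, add_zero]

/-- SR9a: the decomposition of an entry. -/
theorem split_part (T S : Finset ℕ) (hT : T ⊆ full) (hS : S ⊆ {3, 4}) (hd : Disjoint T S) (n : ℕ)
    (hn : n ≠ 0) : part (full \ (T ∪ S)) n * xp T S n * rootp 3 S n ^ 3 = n := by
  have h1 := Pool.Agent.Helper92.ABC.part_mul_part (T ∪ S)
    (Finset.union_subset hT (sub_full hS)) n hn
  rw [part_union hd] at h1
  have h2 : part S n =
      (∏ p ∈ prs S n, p ^ (n.factorization p % 3)) * rootp 3 S n ^ 3 := by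
    unfold part rootp
    rw [← Finset.prod_pow, ← Finset.prod_mul_distrib]
    refine Finset.prod_congr rfl fun p _ => ?_
    rw [← pow_mul, ← pow_add]
    congr 1
    omega
  rw [h2] at h1
  unfold xp
  calc part (full \ (T ∪ S)) n * (part T n * ∏ p ∈ prs S n, p ^ (n.factorization p % 3)) *
        rootp 3 S n ^ 3
      = part T n * ((∏ p ∈ prs S n, p ^ (n.factorization p % 3)) * rootp 3 S n ^ 3) *
        part (full \ (T ∪ S)) n := by ring
    _ = n := h1

theorem xp_lower (Z : ℕ) (hZ : 2 ≤ Z) (T S : Finset ℕ) (hT : T ⊆ full) (hS : S ⊆ {3, 4})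
    (hd : Disjoint T S) (n : ℕ) (hn : n ≠ 0) :
    Z ^ xc T S (fun i => Nat.log Z (coord n i)) ≤ xp T S n := by
  have h1 := Pool.Agent.Helper92.ABC.rootp_lower Z hZ 1 le_rfl T hT (Or.inl rfl) n hn
  have h2 := Pool.Agent.Helper92.ABC.part_eq_rootp_pow 1 le_rfl T hT (Or.inl rfl) n
  rw [pow_one] at h2
  rw [← h2] at h1
  unfold xp xc
  rw [pow_add, prod_prs_fun hS n (fun v => v % 3)]
  exact Nat.mul_le_mul h1 (prod_lower Z n hn (fun v => v % 3))

theorem xp_upper (Z : ℕ) (hZ : 2 ≤ Z) (T S : Finset ℕ) (hT : T ⊆ full) (hS : S ⊆ {3, 4})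
    (hd : Disjoint T S) (n : ℕ) (hn : n ≠ 0) :
    xp T S n ≤ Z ^ (xc T S (fun i => Nat.log Z (coord n i)) + 20) := by
  have h1 := Pool.Agent.Helper92.ABC.rootp_upper Z hZ 1 le_rfl T hT (Or.inl rfl) n hn
  have h2 := Pool.Agent.Helper92.ABC.part_eq_rootp_pow 1 le_rfl T hT (Or.inl rfl) n
  rw [pow_one] at h2
  rw [← h2, if_pos rfl] at h1
  have h3 := prod_upper Z hZ (S := S) n (fun v => v % 3)
  have h4 : ∑ i ∈ S, i % 3 ≤ 2 := sum_small hS (fun v => v % 3) (by norm_num) (by norm_num)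
  unfold xp xc
  rw [prod_prs_fun hS n (fun v => v % 3)]
  refine (Nat.mul_le_mul h1 h3).trans ?_
  rw [← pow_add]
  refine Nat.pow_le_pow_right (by omega) ?_
  dsimp only
  omega

theorem zp_lower (Z : ℕ) (hZ : 2 ≤ Z) (S : Finset ℕ) (hS : S ⊆ {3, 4}) (n : ℕ) (hn : n ≠ 0) :
    Z ^ rc 3 S (fun i => Nat.log Z (coord n i)) ≤ rootp 3 S n := by
  rw [rc_eq hS]
  unfold rootp
  rw [prod_prs_fun hS n (fun v => v / 3)]
  exact prod_lower Z n hn (fun v => v / 3)

theorem zp_upper (Z : ℕ) (hZ : 2 ≤ Z) (S : Finset ℕ) (hS : S ⊆ {3, 4}) (n : ℕ) (hn : n ≠ 0) :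
    rootp 3 S n ≤ Z ^ (rc 3 S (fun i => Nat.log Z (coord n i)) + 20) := by
  rw [rc_eq hS]
  unfold rootp
  rw [prod_prs_fun hS n (fun v => v / 3)]
  have h4 : ∑ i ∈ S, i / 3 ≤ 2 := sum_small hS (fun v => v / 3) (by norm_num) (by norm_num)
  refine (prod_upper Z hZ (S := S) n (fun v => v / 3)).trans ?_
  refine Nat.pow_le_pow_right (by omega) ?_
  omega

end Pool.Agent.Helper1.SR
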