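import Mathlib
import Pool.Agent.Helper94.Abc.Det2
import Pool.Agent.Helper94.ABC.TV
import Pool.Agent.Helper26.ABC.PairTool
import Pool.Agent.Helper1.SR.St.Fib
import Pool.Agent.Helper1.SR.St.Split

/-!
## SR9 tool_K: like helper26's tool_pair (Helper26/ABC/PairTool.lean): fix part (full \ (T n u S n)) of num q, num r and the whole num p (U p = full); x = part (T n) * prod_{p in prs (S n)} p^(v mod 3), z = rootp 3 (S n);
 num = part(U) * x * z^3. Signs sgn3: B = sgn3 r * part, A = -sgn3 q * part, a = -sgn3 p * num p (or similar). h = Z^20, X1 = Z^(xc+20) etc., N = Z^(rc 1 full (k r)), radn (num p) <= Z^(sum k p i + 5),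
 K = 331776 * Z^400 * Z^E is enough (K^3, K^4 conditions: exponents 440 + 2*80.. ), V = Z^Q. Everything else is bookkeeping with powers of Z; constant 1000 is generous (if it is not enough tell helper1).

-/

set_option autoImplicit false

namespace Pool.Agent.Helper1.SR

open Finset Pool.Agent.Helper94.Abc

open Pool.Agent.Helper92.ABC (radn full rc part rpart rootp prs Box wt num coord)

private lemma xc_congr (T S : Finset ℕ) (k k' : ℕ → ℕ) (hT : ∀ i ∈ T, k i = k' i)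
    (hS : ∀ i ∈ S, k i = k' i) (h6 : k 6 = k' 6) : xc T S k = xc T S k' := by
  unfold xc
  rw [Pool.Agent.Helper92.ABC.rc_congr' 1 T k k' hT h6,
    Finset.sum_congr rfl (fun i hi => by rw [hS i hi])]

private lemma pow_E (z : ℝ) (hz : 2 ≤ z) (E : ℝ) (m : ℕ) (u v : ℕ)
    (h : (u : ℝ) ≤ v + m * E) : z ^ u ≤ z ^ v * (z ^ E) ^ m := by
  have hz0 : (0 : ℝ) < z := by linarith
  have h1 : z ^ v * (z ^ E) ^ m = z ^ ((v : ℝ) + m * E) := by
    rw [Real.rpow_add hz0, Real.rpow_natCast, ← Real.rpow_natCast (z ^ E) m,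
      ← Real.rpow_mul hz0.le, mul_comm E]
  rw [h1, ← Real.rpow_natCast]
  exact Real.rpow_le_rpow_of_exponent_le (by linarith) h

private lemma cond1 (z : ℝ) (hz : 2 ≤ z) (E : ℝ) (s R : ℕ) (ρ : ℝ) (h0 : 0 ≤ ρ)
    (hρ : ρ ≤ z ^ (R + 5)) (hE : ((s : ℝ) + 2 * R) / 3 ≤ E) :
    331776 * (z ^ 20) ^ 22 * z ^ (s + 80) * ρ ^ 2 ≤ (331776 * z ^ 400 * z ^ E) ^ 3 := by
  have hz0 : (0 : ℝ) < z := by linarith
  have hz1 : (1 : ℝ) ≤ z := by linarith
  have h1 := pow_E z hz E 3 (s + 2 * R) 0 (by push_cast; linarith)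
  rw [pow_zero, one_mul] at h1
  have h2 : z ^ 530 ≤ z ^ 1200 := pow_le_pow_right₀ hz1 (by norm_num)
  calc 331776 * (z ^ 20) ^ 22 * z ^ (s + 80) * ρ ^ 2
      ≤ 331776 * (z ^ 20) ^ 22 * z ^ (s + 80) * (z ^ (R + 5)) ^ 2 := by gcongr
    _ = 331776 * (z ^ 530 * z ^ (s + 2 * R)) := by ring
    _ ≤ 331776 ^ 3 * (z ^ 1200 * (z ^ E) ^ 3) := by
        have h3 : z ^ 530 * z ^ (s + 2 * R) ≤ z ^ 1200 * (z ^ E) ^ 3 := by gcongr
        have h4 : 0 ≤ z ^ 530 * z ^ (s + 2 * R) := by positivity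
        nlinarith
    _ = (331776 * z ^ 400 * z ^ E) ^ 3 := by ring

private lemma cond2 (z : ℝ) (hz : 2 ≤ z) (E : ℝ) (s R n : ℕ) (ρ : ℝ)
    (hρ : ρ ≤ z ^ (R + 5)) (hE : (2 * (s : ℝ) + R - n) / 3 ≤ E) :
    331776 * (z ^ 20) ^ 22 * (z ^ (s + 80)) ^ 2 * ρ ≤
      z ^ n * (331776 * z ^ 400 * z ^ E) ^ 3 := by
  have hz0 : (0 : ℝ) < z := by linarith
  have hz1 : (1 : ℝ) ≤ z := by linarith
  have h1 := pow_E z hz E 3 (2 * s + R) n (by push_cast; linarith)
  have h2 : z ^ 605 ≤ z ^ 1200 := pow_le_pow_right₀ hz1 (by norm_num)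
  calc 331776 * (z ^ 20) ^ 22 * (z ^ (s + 80)) ^ 2 * ρ
      ≤ 331776 * (z ^ 20) ^ 22 * (z ^ (s + 80)) ^ 2 * z ^ (R + 5) := by gcongr
    _ = 331776 * (z ^ 605 * z ^ (2 * s + R)) := by ring
    _ ≤ 331776 ^ 3 * (z ^ 1200 * (z ^ n * (z ^ E) ^ 3)) := by
        have h3 : z ^ 605 * z ^ (2 * s + R) ≤ z ^ 1200 * (z ^ n * (z ^ E) ^ 3) := by gcongr
        have h4 : 0 ≤ z ^ 605 * z ^ (2 * s + R) := by positivity
        nlinarith
    _ = z ^ n * (331776 * z ^ 400 * z ^ E) ^ 3 := by ring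

private lemma cond3 (z : ℝ) (hz : 2 ≤ z) (E : ℝ) (s R n : ℕ) (ρ : ℝ) (h0 : 0 ≤ ρ)
    (hρ : ρ ≤ z ^ (R + 5)) (hE : (s : ℝ) + 3 / 4 * R - 3 / 4 * n ≤ E) :
    331776 * (z ^ 20) ^ 22 * (z ^ (s + 80)) ^ 4 * ρ ^ 3 ≤
      (z ^ n) ^ 3 * (331776 * z ^ 400 * z ^ E) ^ 4 := by
  have hz0 : (0 : ℝ) < z := by linarith
  have hz1 : (1 : ℝ) ≤ z := by linarith
  have h1 := pow_E z hz E 4 (4 * s + 3 * R) (3 * n) (by push_cast; linarith)
  have h2 : z ^ 775 ≤ z ^ 1600 := pow_le_pow_right₀ hz1 (by norm_num)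
  calc 331776 * (z ^ 20) ^ 22 * (z ^ (s + 80)) ^ 4 * ρ ^ 3
      ≤ 331776 * (z ^ 20) ^ 22 * (z ^ (s + 80)) ^ 4 * (z ^ (R + 5)) ^ 3 := by gcongr
    _ = 331776 * (z ^ 775 * z ^ (4 * s + 3 * R)) := by ring
    _ ≤ 331776 ^ 4 * (z ^ 1600 * (z ^ (3 * n) * (z ^ E) ^ 4)) := by
        have h3 : z ^ 775 * z ^ (4 * s + 3 * R) ≤ z ^ 1600 * (z ^ (3 * n) * (z ^ E) ^ 4) := by
          gcongr
        have h4 : 0 ≤ z ^ 775 * z ^ (4 * s + 3 * R) := by positivity
        nlinarith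
    _ = (z ^ n) ^ 3 * (331776 * z ^ 400 * z ^ E) ^ 4 := by ring

/-- the final exponents -/
private lemma finalE (z : ℝ) (hz : 2 ≤ z) (E : ℝ) (xq xr zq zr n : ℕ) :
    (z ^ 20) ^ 2 * ((331776 * z ^ 400 * z ^ E) +
      Real.sqrt ((331776 * z ^ 400 * z ^ E) * z ^ (zq + 20) * z ^ (zr + 20)) +
      (331776 * z ^ 400 * z ^ E) * (z ^ (xq + 20) * z ^ (xr + 20)) / z ^ n) ≤
    331776 * z ^ 480 * (z ^ E + z ^ ((E + zq + zr) / 2) + z ^ (E + xq + xr - n)) := by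
  have hz0 : (0 : ℝ) < z := by linarith
  have hz1 : (1 : ℝ) ≤ z := by linarith
  have e1 : Real.sqrt ((331776 * z ^ 400 * z ^ E) * z ^ (zq + 20) * z ^ (zr + 20)) =
      576 * z ^ 220 * z ^ ((E + zq + zr) / 2) := by
    refine (Real.sqrt_eq_iff_mul_self_eq (by positivity) (by positivity)).2 (Eq.symm ?_)
    have h1 : z ^ ((E + zq + zr) / 2) * z ^ ((E + zq + zr) / 2) = z ^ E * (z ^ zq * z ^ zr) := by
      rw [← Real.rpow_add hz0, ← Real.rpow_natCast z zq, ← Real.rpow_natCast z zr,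
        ← Real.rpow_add hz0, ← Real.rpow_add hz0]
      congr 1
      ring
    calc 576 * z ^ 220 * z ^ ((E + zq + zr) / 2) * (576 * z ^ 220 * z ^ ((E + zq + zr) / 2))
        = 331776 * z ^ 440 * (z ^ ((E + zq + zr) / 2) * z ^ ((E + zq + zr) / 2)) := by ring
      _ = 331776 * z ^ 440 * (z ^ E * (z ^ zq * z ^ zr)) := by rw [h1]
      _ = _ := by ring
  have e2 : (331776 * z ^ 400 * z ^ E) * (z ^ (xq + 20) * z ^ (xr + 20)) / z ^ n =
      331776 * z ^ 440 * z ^ (E + xq + xr - n) := by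
    have h1 : z ^ (E + xq + xr - n) = z ^ E * (z ^ xq * z ^ xr) / z ^ n := by
      rw [Real.rpow_sub hz0, Real.rpow_add hz0, Real.rpow_add hz0, Real.rpow_natCast,
        Real.rpow_natCast, Real.rpow_natCast, mul_assoc]
    rw [h1]
    ring
  rw [e1, e2]
  have g1 : (0 : ℝ) < z ^ E := Real.rpow_pos_of_pos hz0 _
  have g2 : (0 : ℝ) < z ^ ((E + zq + zr) / 2) := Real.rpow_pos_of_pos hz0 _
  have g3 : (0 : ℝ) < z ^ (E + xq + xr - n) := Real.rpow_pos_of_pos hz0 _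
  have k1 : z ^ 440 ≤ z ^ 480 := pow_le_pow_right₀ hz1 (by norm_num)
  have k2 : z ^ 260 ≤ z ^ 480 := pow_le_pow_right₀ hz1 (by norm_num)
  have k3 : (0 : ℝ) < z ^ 480 := by positivity
  have t1 : (z ^ 20) ^ 2 * (331776 * z ^ 400 * z ^ E) ≤ 331776 * z ^ 480 * z ^ E := by
    have : (z ^ 20) ^ 2 * (331776 * z ^ 400 * z ^ E) = 331776 * z ^ 440 * z ^ E := by ring
    rw [this]
    gcongr
  have t2 : (z ^ 20) ^ 2 * (576 * z ^ 220 * z ^ ((E + zq + zr) / 2)) ≤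
      331776 * z ^ 480 * z ^ ((E + zq + zr) / 2) := by
    have : (z ^ 20) ^ 2 * (576 * z ^ 220 * z ^ ((E + zq + zr) / 2)) =
        576 * z ^ 260 * z ^ ((E + zq + zr) / 2) := by ring
    rw [this]
    gcongr
    norm_num
  have t3 : (z ^ 20) ^ 2 * (331776 * z ^ 440 * z ^ (E + xq + xr - n)) =
      331776 * z ^ 480 * z ^ (E + xq + xr - n) := by ring
  calc _ = (z ^ 20) ^ 2 * (331776 * z ^ 400 * z ^ E) +
        (z ^ 20) ^ 2 * (576 * z ^ 220 * z ^ ((E + zq + zr) / 2)) +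
        (z ^ 20) ^ 2 * (331776 * z ^ 440 * z ^ (E + xq + xr - n)) := by ring
    _ ≤ 331776 * z ^ 480 * z ^ E + 331776 * z ^ 480 * z ^ ((E + zq + zr) / 2) +
        331776 * z ^ 480 * z ^ (E + xq + xr - n) := by
        rw [t3]
        gcongr
    _ = _ := by ring

/-- SR9: the tool. The classes `full \ (T n ∪ S n)` are fixed; `z = rootp 3 (S n)`. -/
theorem tool_K (ε : ℝ) (hε : 0 < ε) : ∃ C : ℝ, 0 < C ∧ ∀ (Z Q : ℕ) (k : Fin 3 → ℕ → ℕ)
    (p q r : Fin 3) (T S : Fin 3 → Finset ℕ) (E : ℝ), 2 ≤ Z → p ≠ q → p ≠ r → q ≠ r →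
    (∀ n, T n ⊆ full) → (∀ n, S n ⊆ {3, 4}) → (∀ n, Disjoint (T n) (S n)) →
    Q ≤ rc 1 full (k r) + 20 →
    ((xc (T q) (S q) (k q) + xc (T r) (S r) (k r) + rc 3 (S q) (k q) + rc 3 (S r) (k r) : ℝ) +
      2 * ∑ i ∈ full, (k p i : ℝ)) / 3 ≤ E →
    (2 * (xc (T q) (S q) (k q) + xc (T r) (S r) (k r) + rc 3 (S q) (k q) + rc 3 (S r) (k r) : ℝ) +
      ∑ i ∈ full, (k p i : ℝ) - rc 1 full (k r)) / 3 ≤ E →
    (xc (T q) (S q) (k q) + xc (T r) (S r) (k r) + rc 3 (S q) (k q) + rc 3 (S r) (k r) : ℝ) +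
      3 / 4 * ∑ i ∈ full, (k p i : ℝ) - 3 / 4 * rc 1 full (k r) ≤ E →
    ((Box Z Q k).card : ℝ) ≤ C * ((Z : ℝ) ^ Q) ^ ε *
      (Z : ℝ) ^ (∑ i ∈ full \ (T q ∪ S q), k q i + ∑ i ∈ full \ (T r ∪ S r), k r i +
        ∑ i ∈ full, k p i) * (Z : ℝ) ^ 1000 *
      ((Z : ℝ) ^ E + (Z : ℝ) ^ ((E + rc 3 (S q) (k q) + rc 3 (S r) (k r)) / 2) +
        (Z : ℝ) ^ (E + xc (T q) (S q) (k q) + xc (T r) (S r) (k r) - rc 1 full (k r))) := by
  classical
  obtain ⟨C1, hC1, hcu⟩ := Pool.Agent.Helper92.ABC.card_radn_le (ε / 4) (by positivity)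
  obtain ⟨C2, hC2, hfibre⟩ := K_fiber (ε / 4) (by positivity)
  refine ⟨C1 ^ 3 * C2 * 331776, by positivity, ?_⟩
  intro Z Q k p q r T S E hZ hpq hpr hqr hT hS hd hQ hE1 hE2 hE3
  have hz : (2 : ℝ) ≤ (Z : ℝ) := by exact_mod_cast hZ
  have hz0 : (0 : ℝ) < (Z : ℝ) := by linarith
  have hz1 : (1 : ℝ) ≤ (Z : ℝ) := by linarith
  have hZ0 : 0 < Z := by omega
  have hS34 : ∀ n, S n ⊆ full := by
    intro n i hi
    have h := hS n hi
    simp only [Finset.mem_insert, Finset.mem_singleton] at h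
    simp only [full, Finset.mem_Icc]
    omega
  -- the facts for members of the box
  have hbox : ∀ t ∈ Box Z Q k, t.1.Coprime t.2 ∧ (∀ n, num t n ≠ 0) ∧
      (∀ n, num t n ≤ Z ^ Q) ∧ (∀ n : Fin 3, ∀ i ∈ Finset.Icc 1 6,
        Nat.log Z (coord (num t n) i) = k n i) := by
    intro t ht
    simp only [Box, Finset.mem_filter, Finset.mem_product, Finset.mem_Icc] at ht
    obtain ⟨⟨⟨ha1, ha2⟩, ⟨hb1, hb2⟩⟩, hco, hs, hk⟩ := ht
    refine ⟨hco, ?_, ?_, ?_⟩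
    · intro n
      have := Pool.Agent.Helper92.ABC.num_pos ha1 hb1 n
      omega
    · intro n
      exact Pool.Agent.Helper92.ABC.num_le hs n
    · intro n i hi
      exact hk n i (Finset.mem_Icc.1 hi)
  have hfull6 : ∀ U : Finset ℕ, U ⊆ full → ∀ i ∈ U, i ∈ Finset.Icc 1 6 := fun U hU i hi =>
    Finset.Icc_subset_Icc_right (by norm_num) (hU hi)
  have h66 : 6 ∈ Finset.Icc 1 6 := Finset.mem_Icc.2 ⟨by norm_num, le_rfl⟩
  have hkU : ∀ t ∈ Box Z Q k, ∀ n : Fin 3, ∀ U : Finset ℕ, U ⊆ full →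
      wt U (fun i => Nat.log Z (coord (num t n) i)) = wt U (k n) := by
    intro t ht n U hU
    apply Pool.Agent.Helper92.ABC.wt_congr'
    intro i hi
    exact (hbox t ht).2.2.2 n i (hfull6 U hU i hi)
  have hkR : ∀ t ∈ Box Z Q k, ∀ n : Fin 3, ∀ (j : ℕ) (U : Finset ℕ), U ⊆ full →
      rc j U (fun i => Nat.log Z (coord (num t n) i)) = rc j U (k n) := by
    intro t ht n j U hU
    apply Pool.Agent.Helper92.ABC.rc_congr'
    · intro i hi
      exact (hbox t ht).2.2.2 n i (hfull6 U hU i hi)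
    · exact (hbox t ht).2.2.2 n 6 h66
  have hkX : ∀ t ∈ Box Z Q k, ∀ n : Fin 3,
      xc (T n) (S n) (fun i => Nat.log Z (coord (num t n) i)) = xc (T n) (S n) (k n) := by
    intro t ht n
    apply xc_congr
    · intro i hi
      exact (hbox t ht).2.2.2 n i (hfull6 _ (hT n) i hi)
    · intro i hi
      exact (hbox t ht).2.2.2 n i (hfull6 _ (hS34 n) i hi)
    · exact (hbox t ht).2.2.2 n 6 h66
  set W : Fin 3 → Finset ℕ := fun n => full \ (T n ∪ S n) with hW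
  have hWf : ∀ n, W n ⊆ full := fun n => Finset.sdiff_subset
  -- the decomposition
  have hdec : ∀ t ∈ Box Z Q k, ∀ n : Fin 3,
      part (W n) (num t n) * xp (T n) (S n) (num t n) * rootp 3 (S n) (num t n) ^ 3 =
        num t n := fun t ht n =>
    split_part (T n) (S n) (hT n) (hS n) (hd n) (num t n) ((hbox t ht).2.1 n)
  -- sizes
  have hxl : ∀ t ∈ Box Z Q k, ∀ n : Fin 3,
      Z ^ xc (T n) (S n) (k n) ≤ xp (T n) (S n) (num t n) := by
    intro t ht n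
    have := xp_lower Z hZ (T n) (S n) (hT n) (hS n) (hd n) (num t n) ((hbox t ht).2.1 n)
    rwa [hkX t ht n] at this
  have hxu : ∀ t ∈ Box Z Q k, ∀ n : Fin 3,
      xp (T n) (S n) (num t n) ≤ Z ^ (xc (T n) (S n) (k n) + 20) := by
    intro t ht n
    have := xp_upper Z hZ (T n) (S n) (hT n) (hS n) (hd n) (num t n) ((hbox t ht).2.1 n)
    rwa [hkX t ht n] at this
  have hzl : ∀ t ∈ Box Z Q k, ∀ n : Fin 3,
      Z ^ rc 3 (S n) (k n) ≤ rootp 3 (S n) (num t n) := by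
    intro t ht n
    have := zp_lower Z hZ (S n) (hS n) (num t n) ((hbox t ht).2.1 n)
    rwa [hkR t ht n 3 (S n) (hS34 n)] at this
  have hzu : ∀ t ∈ Box Z Q k, ∀ n : Fin 3,
      rootp 3 (S n) (num t n) ≤ Z ^ (rc 3 (S n) (k n) + 20) := by
    intro t ht n
    have := zp_upper Z hZ (S n) (hS n) (num t n) ((hbox t ht).2.1 n)
    rwa [hkR t ht n 3 (S n) (hS34 n)] at this
  have hsl : ∀ t ∈ Box Z Q k, ∀ n : Fin 3, Z ^ rc 1 full (k n) ≤ num t n := by
    intro t ht n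
    have := Pool.Agent.Helper92.ABC.size_lower Z hZ (num t n) ((hbox t ht).2.1 n)
    rwa [hkR t ht n 1 full (Finset.Subset.refl _)] at this
  have hpos : ∀ a b : ℕ, Z ^ a ≤ b → 1 ≤ b := fun a b h =>
    (Nat.one_le_pow _ _ hZ0).trans h
  have hradp : ∀ t ∈ Box Z Q k, ((radn (num t p) : ℕ) : ℝ) ≤
      (Z : ℝ) ^ (∑ i ∈ full, k p i + 5) := by
    intro t ht
    have h1 := Pool.Agent.Helper92.ABC.rpart_upper Z hZ full (Finset.Subset.refl _) (num t p)
      ((hbox t ht).2.1 p)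
    rw [hkU t ht p full (Finset.Subset.refl _)] at h1
    have h2 : radn (num t p) = rpart full (num t p) := by
      unfold radn rpart
      rw [Pool.Agent.Helper92.ABC.prs_full]
    have h3 : wt full (k p) = ∑ i ∈ full, k p i + 5 := by
      unfold wt
      rw [Finset.sum_add_distrib]
      simp [full]
    rw [h2]
    rw [h3] at h1
    exact_mod_cast h1
  -- divisibilities
  have hdp : ∀ t ∈ Box Z Q k, ∀ n : Fin 3, part (W n) (num t n) ∣ num t n := fun t ht n =>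
    ⟨xp (T n) (S n) (num t n) * rootp 3 (S n) (num t n) ^ 3, by rw [← mul_assoc]; exact (hdec t ht n).symm⟩
  have hdx : ∀ t ∈ Box Z Q k, ∀ n : Fin 3, xp (T n) (S n) (num t n) ∣ num t n := fun t ht n =>
    ⟨part (W n) (num t n) * rootp 3 (S n) (num t n) ^ 3, by
      rw [← mul_assoc, mul_comm (xp (T n) (S n) (num t n))]; exact (hdec t ht n).symm⟩
  have hdz : ∀ t ∈ Box Z Q k, ∀ n : Fin 3, rootp 3 (S n) (num t n) ∣ num t n := fun t ht n =>
    (dvd_pow_self _ (by norm_num : (3 : ℕ) ≠ 0)).trans (Dvd.intro_left _ (hdec t ht n))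
  have hd3 : ∀ t ∈ Box Z Q k, ∀ n : Fin 3,
      part (W n) (num t n) * xp (T n) (S n) (num t n) * rootp 3 (S n) (num t n) ∣ num t n := by
    intro t ht n
    refine ⟨rootp 3 (S n) (num t n) ^ 2, ?_⟩
    rw [mul_assoc, ← pow_succ']
    exact (hdec t ht n).symm
  set f : ℕ × ℕ → ℕ × ℕ × ℕ := fun t =>
    (part (W q) (num t q), part (W r) (num t r), num t p) with hf
  set g : ℕ × ℕ → ℕ × ℕ × ℕ × ℕ := fun t =>
    (xp (T q) (S q) (num t q), xp (T r) (S r) (num t r), rootp 3 (S q) (num t q),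
      rootp 3 (S r) (num t r)) with hg
  set D : ℕ → Finset ℕ := fun w => (Finset.Icc 1 (Z ^ Q)).filter (fun d => radn d ≤ Z ^ w)
    with hD
  have hDc : ∀ w : ℕ, ((D w).card : ℝ) ≤ C1 * ((Z : ℝ) ^ Q) ^ (ε / 4) * (Z : ℝ) ^ w := by
    intro w
    have := hcu (Z ^ Q) (Z ^ w)
    push_cast at this
    exact this
  have hDm : ∀ t ∈ Box Z Q k, ∀ n : Fin 3, part (W n) (num t n) ∈ D (wt (W n) (k n)) := by
    intro t ht n
    simp only [hD, Finset.mem_filter, Finset.mem_Icc]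
    refine ⟨⟨Nat.pos_of_ne_zero (Pool.Agent.Helper92.ABC.part_ne_zero _ _), ?_⟩, ?_⟩
    · exact (Nat.le_of_dvd (Nat.pos_of_ne_zero ((hbox t ht).2.1 n)) (hdp t ht n)).trans
        ((hbox t ht).2.2.1 n)
    · rw [Pool.Agent.Helper92.ABC.radn_part, ← hkU t ht n (W n) (hWf n)]
      exact Pool.Agent.Helper92.ABC.rpart_upper Z hZ (W n) (hWf n) (num t n) ((hbox t ht).2.1 n)
  have hDp : ∀ t ∈ Box Z Q k, num t p ∈ D (∑ i ∈ full, k p i + 5) := by
    intro t ht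
    simp only [hD, Finset.mem_filter, Finset.mem_Icc]
    refine ⟨⟨Nat.pos_of_ne_zero ((hbox t ht).2.1 p), (hbox t ht).2.2.1 p⟩, ?_⟩
    exact_mod_cast hradp t ht
  set R : ℕ := ∑ i ∈ full, k p i with hR
  set xq := xc (T q) (S q) (k q) with hxq
  set xr := xc (T r) (S r) (k r) with hxr
  set zq := rc 3 (S q) (k q) with hzq
  set zr := rc 3 (S r) (k r) with hzr
  set n0 := rc 1 full (k r) with hn0
  have hRc : (∑ i ∈ full, (k p i : ℝ)) = (R : ℝ) := by rw [hR]; push_cast; rfl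
  rw [hRc] at hE1 hE2 hE3
  set Y : ℝ := (Z : ℝ) ^ E + (Z : ℝ) ^ ((E + zq + zr) / 2) + (Z : ℝ) ^ (E + xq + xr - n0)
    with hY
  have hY0 : 0 < Y := by positivity
  -- the fibres
  have hfib : ∀ b ∈ (Box Z Q k).image f,
      (((Box Z Q k).filter (fun t => f t = b)).card : ℝ) ≤
        C2 * ((Z : ℝ) ^ Q) ^ (ε / 4) * (331776 * (Z : ℝ) ^ 480 * Y) := by
    intro b hb
    rw [Finset.mem_image] at hb
    obtain ⟨t0, ht0, rfl⟩ := hb
    have hcard : (((Box Z Q k).filter (fun t => f t = f t0)).image g).card =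
        ((Box Z Q k).filter (fun t => f t = f t0)).card := by
      apply Finset.card_image_of_injOn
      intro t ht t' ht' htt
      rw [Finset.mem_coe, Finset.mem_filter] at ht ht'
      have hff : f t = f t' := ht.2.trans ht'.2.symm
      simp only [hf, Prod.mk.injEq] at hff
      simp only [hg, Prod.mk.injEq] at htt
      have h0 : num t q = num t' q := by
        rw [← hdec t ht.1 q, ← hdec t' ht'.1 q, hff.1, htt.1, htt.2.2.1]
      have h1 : num t r = num t' r := by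
        rw [← hdec t ht.1 r, ← hdec t' ht'.1 r, hff.2.1, htt.2.1, htt.2.2.2]
      exact Pool.Agent.Helper92.ABC.num_inj hqr h0 h1
    rw [← hcard]
    set K : ℝ := 331776 * (Z : ℝ) ^ 400 * (Z : ℝ) ^ E with hK
    have hE0 : 0 ≤ E := by
      refine le_trans ?_ hE1
      positivity
    have hK1 : 1 ≤ K := by
      have h1 : (1 : ℝ) ≤ (Z : ℝ) ^ 400 := one_le_pow₀ hz1
      have h2 : (1 : ℝ) ≤ (Z : ℝ) ^ E := Real.one_le_rpow hz1 hE0
      have h3 : (1 : ℝ) ≤ (Z : ℝ) ^ 400 * (Z : ℝ) ^ E := one_le_mul_of_one_le_of_one_le h1 h2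
      rw [hK, mul_assoc]
      linarith
    have hone : ∀ a : ℕ, (1 : ℝ) ≤ (Z : ℝ) ^ a := fun a => one_le_pow₀ hz1
    have hprod : (Z : ℝ) ^ (xq + 20) * (Z : ℝ) ^ (xr + 20) * (Z : ℝ) ^ (zq + 20) *
        (Z : ℝ) ^ (zr + 20) = (Z : ℝ) ^ ((xq + xr + zq + zr) + 80) := by ring
    have hap : ((-Pool.Agent.Helper92.ABC.sgn3 p) * (num t0 p : ℤ)).natAbs = num t0 p := by
      rw [Int.natAbs_mul, Int.natAbs_neg, Int.isUnit_iff_natAbs_eq.1
        (Pool.Agent.Helper92.ABC.sgn3_unit p), one_mul, Int.natAbs_natCast]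
    have hrad := hradp t0 ht0
    have key := hfibre
      (-Pool.Agent.Helper92.ABC.sgn3 q * (part (W q) (num t0 q) : ℤ))
      (Pool.Agent.Helper92.ABC.sgn3 r * (part (W r) (num t0 r) : ℤ))
      ((-Pool.Agent.Helper92.ABC.sgn3 p) * (num t0 p : ℤ)) (Z ^ Q)
      ((Z : ℝ) ^ 20) ((Z : ℝ) ^ (xq + 20)) ((Z : ℝ) ^ (xr + 20)) ((Z : ℝ) ^ (zq + 20))
      ((Z : ℝ) ^ (zr + 20)) ((Z : ℝ) ^ n0) K
      (((Box Z Q k).filter (fun t => f t = f t0)).image g)
      (mul_ne_zero (neg_ne_zero.2 (Pool.Agent.Helper92.ABC.sgn3_unit q).ne_zero)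
        (Int.natCast_ne_zero.2 (Pool.Agent.Helper92.ABC.part_ne_zero _ _)))
      (mul_ne_zero (Pool.Agent.Helper92.ABC.sgn3_unit r).ne_zero
        (Int.natCast_ne_zero.2 (Pool.Agent.Helper92.ABC.part_ne_zero _ _)))
      (mul_ne_zero (neg_ne_zero.2 (Pool.Agent.Helper92.ABC.sgn3_unit p).ne_zero)
        (Int.natCast_ne_zero.2 ((hbox t0 ht0).2.1 p)))
      (Nat.one_le_pow _ _ hZ0) (hone _) (hone _) hK1 (hone _) (hone _) (hone _) (hone _)
      ?_ ?_ ?_ ?_ ?_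
    · refine key.trans ?_
      have hfin := finalE (Z : ℝ) hz E xq xr zq zr n0
      have hVe : ((Z ^ Q : ℕ) : ℝ) ^ (ε / 4) = ((Z : ℝ) ^ Q) ^ (ε / 4) := by push_cast; rfl
      rw [hVe]
      have hp0 : (0 : ℝ) ≤ C2 * ((Z : ℝ) ^ Q) ^ (ε / 4) := by positivity
      calc _ = C2 * ((Z : ℝ) ^ Q) ^ (ε / 4) * (((Z : ℝ) ^ 20) ^ 2 * (K +
            Real.sqrt (K * (Z : ℝ) ^ (zq + 20) * (Z : ℝ) ^ (zr + 20)) +
            K * ((Z : ℝ) ^ (xq + 20) * (Z : ℝ) ^ (xr + 20)) / (Z : ℝ) ^ n0)) := by ring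
        _ ≤ C2 * ((Z : ℝ) ^ Q) ^ (ε / 4) * (331776 * (Z : ℝ) ^ 480 * Y) :=
            mul_le_mul_of_nonneg_left hfin hp0
    · -- size of a
      have h1 : |(((-Pool.Agent.Helper92.ABC.sgn3 p) * (num t0 p : ℤ) : ℤ) : ℝ)| =
          (num t0 p : ℝ) := by
        rw [← Int.cast_abs, Int.abs_eq_natAbs, hap, Int.cast_natCast]
      rw [h1]
      have h2 : ((num t0 p : ℕ) : ℝ) ≤ (Z : ℝ) ^ Q := by exact_mod_cast (hbox t0 ht0).2.2.1 p
      refine h2.trans ?_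
      rw [← pow_add]
      exact pow_le_pow_right₀ hz1 (by omega)
    · -- the points
      intro P hP
      rw [Finset.mem_image] at hP
      obtain ⟨t, ht, rfl⟩ := hP
      rw [Finset.mem_filter] at ht
      obtain ⟨ht, hft⟩ := ht
      simp only [hf, Prod.mk.injEq] at hft
      obtain ⟨hfq, hfr, hfp⟩ := hft
      have hco : ∀ {x y : Fin 3}, x ≠ y → (num t x).Coprime (num t y) := fun hxy =>
        Pool.Agent.Helper92.ABC.num_coprime (hbox t ht).1 hxy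
      have hle : ∀ {d : ℕ} (n : Fin 3), d ∣ num t n → d ≤ Z ^ Q := fun n hdn =>
        (Nat.le_of_dvd (Nat.pos_of_ne_zero ((hbox t ht).2.1 n)) hdn).trans
          ((hbox t ht).2.2.1 n)
      have hlow : ∀ (a b : ℕ), Z ^ a ≤ b → (Z : ℝ) ^ (a + 20) / (Z : ℝ) ^ 20 ≤ (b : ℝ) := by
        intro a b hab
        rw [pow_add, mul_div_assoc, div_self (by positivity), mul_one]
        exact_mod_cast hab
      have hnumq : ((part (W q) (num t0 q) : ℕ) : ℝ) * (xp (T q) (S q) (num t q) : ℝ) *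
          (rootp 3 (S q) (num t q) : ℝ) ^ 3 = (num t q : ℝ) := by
        rw [← hfq]
        exact_mod_cast hdec t ht q
      have hnumr : ((part (W r) (num t0 r) : ℕ) : ℝ) * (xp (T r) (S r) (num t r) : ℝ) *
          (rootp 3 (S r) (num t r) : ℝ) ^ 3 = (num t r : ℝ) := by
        rw [← hfr]
        exact_mod_cast hdec t ht r
      have habs : ∀ (n : Fin 3) (c : ℤ) (d : ℕ), IsUnit c →
          |(((c * (d : ℤ)) : ℤ) : ℝ)| = (d : ℝ) := by
        intro n c d hc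
        rw [← Int.cast_abs, abs_mul, Int.isUnit_iff_abs_eq.1 hc, one_mul, Nat.abs_cast,
          Int.cast_natCast]
      have habsA := habs q (-Pool.Agent.Helper92.ABC.sgn3 q) (part (W q) (num t0 q))
        (Pool.Agent.Helper92.ABC.sgn3_unit q).neg
      have habsB := habs r (Pool.Agent.Helper92.ABC.sgn3 r) (part (W r) (num t0 r))
        (Pool.Agent.Helper92.ABC.sgn3_unit r)
      have hrlow : (Z : ℝ) ^ n0 ≤ (num t r : ℝ) := by exact_mod_cast hsl t ht r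
      simp only [hg]
      refine ⟨⟨hpos _ _ (hxl t ht q), hle q (hdx t ht q), hlow _ _ (hxl t ht q), ?_⟩,
        ⟨hpos _ _ (hxl t ht r), hle r (hdx t ht r), hlow _ _ (hxl t ht r), ?_⟩,
        ⟨hpos _ _ (hzl t ht q), hle q (hdz t ht q), hlow _ _ (hzl t ht q), ?_⟩,
        ⟨hpos _ _ (hzl t ht r), hle r (hdz t ht r), hlow _ _ (hzl t ht r), ?_⟩,
        ?_, ?_, ?_, ?_, ?_, ?_⟩
      · exact_mod_cast hxu t ht q
      · exact_mod_cast hxu t ht r
      · exact_mod_cast hzu t ht q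
      · exact_mod_cast hzu t ht r
      · -- the equation
        have h1 := Pool.Agent.Helper92.ABC.sgn3_rel t hpq hpr hqr
        have h2 : (part (W q) (num t0 q) : ℤ) * (xp (T q) (S q) (num t q) : ℤ) *
            (rootp 3 (S q) (num t q) : ℤ) ^ 3 = (num t q : ℤ) := by
          rw [← hfq]
          exact_mod_cast hdec t ht q
        have h3 : (part (W r) (num t0 r) : ℤ) * (xp (T r) (S r) (num t r) : ℤ) *
            (rootp 3 (S r) (num t r) : ℤ) ^ 3 = (num t r : ℤ) := by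
          rw [← hfr]
          exact_mod_cast hdec t ht r
        have h4 : (num t0 p : ℤ) = (num t p : ℤ) := by rw [hfp]
        rw [h4, ← h1, ← h2, ← h3]
        ring
      · rw [habsB, hnumr]
        exact hrlow
      · rw [habsA, habsB, hnumq, hnumr]
        have h2 : ((num t q : ℕ) : ℝ) ≤ (Z : ℝ) ^ Q := by exact_mod_cast (hbox t ht).2.2.1 q
        refine h2.trans ?_
        have h3 : (Z : ℝ) ^ Q ≤ (Z : ℝ) ^ (n0 + 20) := pow_le_pow_right₀ hz1 hQ
        refine h3.trans ?_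
        rw [pow_add, mul_comm]
        exact mul_le_mul_of_nonneg_left hrlow (by positivity)
      · have h1 : IsCoprime ((part (W q) (num t0 q) * xp (T q) (S q) (num t q) *
            rootp 3 (S q) (num t q) : ℕ) : ℤ) ((part (W r) (num t0 r) *
            xp (T r) (S r) (num t r) * rootp 3 (S r) (num t r) : ℕ) : ℤ) := by
          rw [Nat.isCoprime_iff_coprime, ← hfq, ← hfr]
          exact Nat.Coprime.of_dvd (hd3 t ht q) (hd3 t ht r) (hco hqr)
        have h2 := (Pool.Agent.Helper92.ABC.coprime_of_unit (b := ((part (W r) (num t0 r) *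
            xp (T r) (S r) (num t r) * rootp 3 (S r) (num t r) : ℕ) : ℤ))
            (Pool.Agent.Helper92.ABC.sgn3_unit q).neg).mul_left h1
        have h3 := (Pool.Agent.Helper92.ABC.coprime_of_unit
          (b := -Pool.Agent.Helper92.ABC.sgn3 q * ((part (W q) (num t0 q) *
            xp (T q) (S q) (num t q) * rootp 3 (S q) (num t q) : ℕ) : ℤ))
            (Pool.Agent.Helper92.ABC.sgn3_unit r)).symm.mul_right h2
        have e1 : -Pool.Agent.Helper92.ABC.sgn3 q * ((part (W q) (num t0 q) *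
            xp (T q) (S q) (num t q) * rootp 3 (S q) (num t q) : ℕ) : ℤ) =
            -Pool.Agent.Helper92.ABC.sgn3 q * (part (W q) (num t0 q) : ℤ) *
            (xp (T q) (S q) (num t q) : ℤ) * (rootp 3 (S q) (num t q) : ℤ) := by
          push_cast; ring
        have e2 : Pool.Agent.Helper92.ABC.sgn3 r * ((part (W r) (num t0 r) *
            xp (T r) (S r) (num t r) * rootp 3 (S r) (num t r) : ℕ) : ℤ) =
            Pool.Agent.Helper92.ABC.sgn3 r * (part (W r) (num t0 r) : ℤ) *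
            (xp (T r) (S r) (num t r) : ℤ) * (rootp 3 (S r) (num t r) : ℤ) := by
          push_cast; ring
        rw [e1, e2] at h3
        exact h3
      · have h1 : IsCoprime ((part (W q) (num t0 q) * xp (T q) (S q) (num t q) *
            rootp 3 (S q) (num t q) : ℕ) : ℤ) ((num t0 p : ℕ) : ℤ) := by
          rw [Nat.isCoprime_iff_coprime, ← hfq, ← hfp]
          exact Nat.Coprime.of_dvd (hd3 t ht q) dvd_rfl (hco hpq.symm)
        have h2 := (Pool.Agent.Helper92.ABC.coprime_of_unit (b := ((num t0 p : ℕ) : ℤ))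
            (Pool.Agent.Helper92.ABC.sgn3_unit q).neg).mul_left h1
        have h3 := (Pool.Agent.Helper92.ABC.coprime_of_unit
          (b := -Pool.Agent.Helper92.ABC.sgn3 q * ((part (W q) (num t0 q) *
            xp (T q) (S q) (num t q) * rootp 3 (S q) (num t q) : ℕ) : ℤ))
            (Pool.Agent.Helper92.ABC.sgn3_unit p).neg).symm.mul_right h2
        have e1 : -Pool.Agent.Helper92.ABC.sgn3 q * ((part (W q) (num t0 q) *
            xp (T q) (S q) (num t q) * rootp 3 (S q) (num t q) : ℕ) : ℤ) =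
            -Pool.Agent.Helper92.ABC.sgn3 q * (part (W q) (num t0 q) : ℤ) *
            (xp (T q) (S q) (num t q) : ℤ) * (rootp 3 (S q) (num t q) : ℤ) := by
          push_cast; ring
        rw [e1] at h3
        exact h3
      · have h1 : IsCoprime ((part (W r) (num t0 r) * xp (T r) (S r) (num t r) *
            rootp 3 (S r) (num t r) : ℕ) : ℤ) ((num t0 p : ℕ) : ℤ) := by
          rw [Nat.isCoprime_iff_coprime, ← hfr, ← hfp]
          exact Nat.Coprime.of_dvd (hd3 t ht r) dvd_rfl (hco hpr.symm)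
        have h2 := (Pool.Agent.Helper92.ABC.coprime_of_unit (b := ((num t0 p : ℕ) : ℤ))
            (Pool.Agent.Helper92.ABC.sgn3_unit r)).mul_left h1
        have h3 := (Pool.Agent.Helper92.ABC.coprime_of_unit
          (b := Pool.Agent.Helper92.ABC.sgn3 r * ((part (W r) (num t0 r) *
            xp (T r) (S r) (num t r) * rootp 3 (S r) (num t r) : ℕ) : ℤ))
            (Pool.Agent.Helper92.ABC.sgn3_unit p).neg).symm.mul_right h2
        have e1 : Pool.Agent.Helper92.ABC.sgn3 r * ((part (W r) (num t0 r) *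
            xp (T r) (S r) (num t r) * rootp 3 (S r) (num t r) : ℕ) : ℤ) =
            Pool.Agent.Helper92.ABC.sgn3 r * (part (W r) (num t0 r) : ℤ) *
            (xp (T r) (S r) (num t r) : ℤ) * (rootp 3 (S r) (num t r) : ℤ) := by
          push_cast; ring
        rw [e1] at h3
        exact h3
    · rw [hap, hprod]
      exact cond1 (Z : ℝ) hz E (xq + xr + zq + zr) R _ (Nat.cast_nonneg _) hrad
        (by push_cast; linarith)
    · rw [hap, hprod]
      exact cond2 (Z : ℝ) hz E (xq + xr + zq + zr) R n0 _ hrad (by push_cast; linarith)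
    · rw [hap, hprod]
      exact cond3 (Z : ℝ) hz E (xq + xr + zq + zr) R n0 _ (Nat.cast_nonneg _) hrad
        (by push_cast; linarith)
  -- the total
  set A0 : Finset (ℕ × ℕ × ℕ) := D (wt (W q) (k q)) ×ˢ D (wt (W r) (k r)) ×ˢ D (R + 5) with hA0
  have hmaps : ∀ t ∈ Box Z Q k, f t ∈ (Box Z Q k).image f := fun t ht =>
    Finset.mem_image_of_mem f ht
  have hsubA : (Box Z Q k).image f ⊆ A0 := by
    intro b hb
    rw [Finset.mem_image] at hb
    obtain ⟨t, ht, rfl⟩ := hb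
    simp only [hA0, hf, Finset.mem_product]
    exact ⟨hDm t ht q, hDm t ht r, hDp t ht⟩
  have hcI : (((Box Z Q k).image f).card : ℝ) ≤ C1 ^ 3 * (((Z : ℝ) ^ Q) ^ (ε / 4)) ^ 3 *
      ((Z : ℝ) ^ (wt (W q) (k q)) * (Z : ℝ) ^ (wt (W r) (k r)) * (Z : ℝ) ^ (R + 5)) := by
    have h1 : (((Box Z Q k).image f).card : ℝ) ≤ (A0.card : ℝ) := by
      exact_mod_cast Finset.card_le_card hsubA
    refine h1.trans ?_
    rw [hA0, Finset.card_product, Finset.card_product]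
    push_cast
    have a1 := hDc (wt (W q) (k q))
    have a2 := hDc (wt (W r) (k r))
    have a3 := hDc (R + 5)
    calc ((D (wt (W q) (k q))).card : ℝ) * (((D (wt (W r) (k r))).card : ℝ) *
          ((D (R + 5)).card : ℝ))
        ≤ (C1 * ((Z : ℝ) ^ Q) ^ (ε / 4) * (Z : ℝ) ^ (wt (W q) (k q))) *
          ((C1 * ((Z : ℝ) ^ Q) ^ (ε / 4) * (Z : ℝ) ^ (wt (W r) (k r))) *
          (C1 * ((Z : ℝ) ^ Q) ^ (ε / 4) * (Z : ℝ) ^ (R + 5))) := by gcongr
      _ = _ := by ring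
  have hwt : ∀ n : Fin 3, wt (W n) (k n) ≤ ∑ i ∈ W n, k n i + 5 := by
    intro n
    unfold wt
    rw [Finset.sum_add_distrib]
    have : ∑ i ∈ W n, 1 ≤ 5 := by
      rw [Finset.sum_const, smul_eq_mul, mul_one]
      refine (Finset.card_le_card (hWf n)).trans (le_of_eq ?_)
      simp [full]
    omega
  have hZwt : (Z : ℝ) ^ (wt (W q) (k q)) * (Z : ℝ) ^ (wt (W r) (k r)) * (Z : ℝ) ^ (R + 5) ≤
      (Z : ℝ) ^ (∑ i ∈ W q, k q i + ∑ i ∈ W r, k r i + R) * (Z : ℝ) ^ 15 := by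
    rw [← pow_add, ← pow_add, ← pow_add]
    apply pow_le_pow_right₀ hz1
    have := hwt q
    have := hwt r
    omega
  have htot : ((Box Z Q k).card : ℝ) ≤ (((Box Z Q k).image f).card : ℝ) *
      (C2 * ((Z : ℝ) ^ Q) ^ (ε / 4) * (331776 * (Z : ℝ) ^ 480 * Y)) := by
    rw [Finset.card_eq_sum_card_fiberwise (f := f) (t := (Box Z Q k).image f) hmaps]
    push_cast
    have := Finset.sum_le_card_nsmul ((Box Z Q k).image f)
      (fun b => (((Box Z Q k).filter (fun t => f t = b)).card : ℝ)) _ hfib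
    rw [nsmul_eq_mul] at this
    exact this
  have hpw : (((Z : ℝ) ^ Q) ^ (ε / 4)) ^ 3 * ((Z : ℝ) ^ Q) ^ (ε / 4) =
      ((Z : ℝ) ^ Q) ^ ε := by
    have hzq' : (0 : ℝ) ≤ (Z : ℝ) ^ Q := by positivity
    rw [← Real.rpow_natCast (((Z : ℝ) ^ Q) ^ (ε / 4)) 3,
      ← Real.rpow_mul hzq', ← Real.rpow_add (by positivity)]
    congr 1
    push_cast
    ring
  have hk15 : (Z : ℝ) ^ 15 * (Z : ℝ) ^ 480 ≤ (Z : ℝ) ^ 1000 := by
    rw [← pow_add]
    exact pow_le_pow_right₀ hz1 (by norm_num)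
  calc ((Box Z Q k).card : ℝ)
      ≤ (((Box Z Q k).image f).card : ℝ) *
        (C2 * ((Z : ℝ) ^ Q) ^ (ε / 4) * (331776 * (Z : ℝ) ^ 480 * Y)) := htot
    _ ≤ (C1 ^ 3 * (((Z : ℝ) ^ Q) ^ (ε / 4)) ^ 3 *
        ((Z : ℝ) ^ (∑ i ∈ W q, k q i + ∑ i ∈ W r, k r i + R) * (Z : ℝ) ^ 15)) *
        (C2 * ((Z : ℝ) ^ Q) ^ (ε / 4) * (331776 * (Z : ℝ) ^ 480 * Y)) := by
        have h1 := hcI.trans (mul_le_mul_of_nonneg_left hZwt (by positivity))
        exact mul_le_mul_of_nonneg_right h1 (by positivity)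
    _ = C1 ^ 3 * C2 * 331776 * ((((Z : ℝ) ^ Q) ^ (ε / 4)) ^ 3 * ((Z : ℝ) ^ Q) ^ (ε / 4)) *
        (Z : ℝ) ^ (∑ i ∈ W q, k q i + ∑ i ∈ W r, k r i + R) *
        ((Z : ℝ) ^ 15 * (Z : ℝ) ^ 480) * Y := by ring
    _ ≤ C1 ^ 3 * C2 * 331776 * ((((Z : ℝ) ^ Q) ^ (ε / 4)) ^ 3 * ((Z : ℝ) ^ Q) ^ (ε / 4)) *
        (Z : ℝ) ^ (∑ i ∈ W q, k q i + ∑ i ∈ W r, k r i + R) * (Z : ℝ) ^ 1000 * Y := by
        gcongr
    _ = _ := by rw [hpw]

end Pool.Agent.Helper1.SR
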